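import Pool.Agent.Lib.MP_441052_gt.Spec

set_option autoImplicit false

/-!
# Module ANA: the trace of a function with small energy is close to a constant
-/

namespace Pool.Agent.Lib.MP441052

open MeasureTheory Set Filter
open scoped ContDiff Topology

namespace ANAM

theorem cont_inner {f : ℝ → ℝ → ℝ} (hf : Continuous (fun q : ℝ × ℝ => f q.1 q.2)) :
    Continuous (fun φ => ∫ θ in (-Real.pi)..Real.pi, f φ θ * Real.sin φ) := by
  apply intervalIntegral.continuous_parametric_intervalIntegral_of_continuous'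
  exact hf.mul (Real.continuous_sin.comp continuous_fst)

theorem cont_slice {f : ℝ → ℝ → ℝ} (hf : Continuous (fun q : ℝ × ℝ => f q.1 q.2)) (φ : ℝ) :
    Continuous (fun θ => f φ θ * Real.sin φ) :=
  (hf.comp (continuous_const.prodMk continuous_id)).mul continuous_const

theorem II_mono {f g : ℝ → ℝ → ℝ} (hf : Continuous (fun q : ℝ × ℝ => f q.1 q.2))
    (hg : Continuous (fun q : ℝ × ℝ => g q.1 q.2)) (h : ∀ φ θ, f φ θ ≤ g φ θ) :
    II f ≤ II g := by
  unfold II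
  apply intervalIntegral.integral_mono_on Real.pi_pos.le
    ((cont_inner hf).intervalIntegrable _ _) ((cont_inner hg).intervalIntegrable _ _)
  intro φ hφ
  have hs : 0 ≤ Real.sin φ := Real.sin_nonneg_of_mem_Icc hφ
  apply intervalIntegral.integral_mono_on (by linarith [Real.pi_pos])
    ((cont_slice hf φ).intervalIntegrable _ _) ((cont_slice hg φ).intervalIntegrable _ _)
  intro θ _
  exact mul_le_mul_of_nonneg_right (h φ θ) hs

theorem II_nonneg {f : ℝ → ℝ → ℝ} (h : ∀ φ θ, 0 ≤ f φ θ) : 0 ≤ II f := by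
  unfold II
  apply intervalIntegral.integral_nonneg Real.pi_pos.le
  intro φ hφ
  have hs : 0 ≤ Real.sin φ := Real.sin_nonneg_of_mem_Icc hφ
  apply intervalIntegral.integral_nonneg (by linarith [Real.pi_pos])
  intro θ _
  exact mul_nonneg (h φ θ) hs

theorem II_add {f g : ℝ → ℝ → ℝ} (hf : Continuous (fun q : ℝ × ℝ => f q.1 q.2))
    (hg : Continuous (fun q : ℝ × ℝ => g q.1 q.2)) :
    II (fun φ θ => 2 * f φ θ + 2 * g φ θ) = 2 * II f + 2 * II g := by
  unfold II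
  rw [← intervalIntegral.integral_const_mul, ← intervalIntegral.integral_const_mul,
    ← intervalIntegral.integral_add]
  · apply intervalIntegral.integral_congr
    intro φ _
    show (∫ θ in (-Real.pi)..Real.pi, (2 * f φ θ + 2 * g φ θ) * Real.sin φ) =
      2 * (∫ θ in (-Real.pi)..Real.pi, f φ θ * Real.sin φ) +
        2 * (∫ θ in (-Real.pi)..Real.pi, g φ θ * Real.sin φ)
    rw [← intervalIntegral.integral_const_mul, ← intervalIntegral.integral_const_mul,
      ← intervalIntegral.integral_add]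
    · apply intervalIntegral.integral_congr
      intro θ _
      show (2 * f φ θ + 2 * g φ θ) * Real.sin φ =
        2 * (f φ θ * Real.sin φ) + 2 * (g φ θ * Real.sin φ)
      ring
    · exact (continuous_const.mul (cont_slice hf φ)).intervalIntegrable _ _
    · exact (continuous_const.mul (cont_slice hg φ)).intervalIntegrable _ _
  · exact (continuous_const.mul (cont_inner hf)).intervalIntegrable _ _
  · exact (continuous_const.mul (cont_inner hg)).intervalIntegrable _ _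

/-- The triangle inequality for squares. -/
theorem II_tri {F G H : ℝ → ℝ → ℝ} (hF : Continuous (fun q : ℝ × ℝ => F q.1 q.2))
    (hG : Continuous (fun q : ℝ × ℝ => G q.1 q.2)) (hH : Continuous (fun q : ℝ × ℝ => H q.1 q.2)) :
    II (fun φ θ => (F φ θ - H φ θ) ^ 2) ≤
      2 * II (fun φ θ => (F φ θ - G φ θ) ^ 2) + 2 * II (fun φ θ => (G φ θ - H φ θ) ^ 2) := by
  have c1 : Continuous (fun q : ℝ × ℝ => (F q.1 q.2 - G q.1 q.2) ^ 2) := (hF.sub hG).pow 2
  have c2 : Continuous (fun q : ℝ × ℝ => (G q.1 q.2 - H q.1 q.2) ^ 2) := (hG.sub hH).pow 2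
  have c3 : Continuous (fun q : ℝ × ℝ => (F q.1 q.2 - H q.1 q.2) ^ 2) := (hF.sub hH).pow 2
  have c4 : Continuous (fun q : ℝ × ℝ =>
      2 * (F q.1 q.2 - G q.1 q.2) ^ 2 + 2 * (G q.1 q.2 - H q.1 q.2) ^ 2) :=
    (continuous_const.mul c1).add (continuous_const.mul c2)
  have e := II_add (f := fun φ θ => (F φ θ - G φ θ) ^ 2) (g := fun φ θ => (G φ θ - H φ θ) ^ 2)
    c1 c2
  rw [← e]
  apply II_mono c3 c4
  intro φ θ
  nlinarith [sq_nonneg ((F φ θ - G φ θ) - (G φ θ - H φ θ))]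

end ANAM

open ANAM in
theorem specANA (hRAD : SpecRAD) (hSLI : SpecSLI) (hTHE : SpecTHE) (hPHI : SpecPHI)
    (hTWO : SpecTWO) : SpecANA := by
  intro U Ur Uφ Uθ κ hS h1 h2 h3
  have hS' := hS
  obtain ⟨cU, cUr, cUφ, cUθ, -, dφ, dθ⟩ := hS'
  obtain ⟨sl1, sl2⟩ := hSLI
  -- the integral over the radii is nonnegative
  have hκ : 0 ≤ κ := by
    refine le_trans ?_ h1
    apply intervalIntegral.integral_nonneg (by norm_num)
    intro r _
    exact II_nonneg fun φ θ => sq_nonneg _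
  -- the first radius
  have cθ2 : Continuous (fun q : ℝ × ℝ × ℝ => Uθ q.1 q.2.1 q.2.2 ^ 2) := cUθ.pow 2
  have cI1 : Continuous (fun r => II (fun φ θ => Uθ r φ θ ^ 2)) :=
    sl2 (fun r φ θ => Uθ r φ θ ^ 2) cθ2
  obtain ⟨r₁, hr₁, b₁⟩ := sl1 _ (7 / 8 : ℝ) (9 / 10) cI1 (by norm_num)
  -- the second radius
  have csin : Continuous (fun q : ℝ × ℝ × ℝ => Real.sin q.2.1 ^ 2) :=
    (Real.continuous_sin.comp (continuous_fst.comp continuous_snd)).pow 2
  have cφ2 : Continuous (fun q : ℝ × ℝ × ℝ => Real.sin q.2.1 ^ 2 * Uφ q.1 q.2.1 q.2.2 ^ 2) :=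
    csin.mul (cUφ.pow 2)
  have cI2 : Continuous (fun r => II (fun φ θ => Real.sin φ ^ 2 * Uφ r φ θ ^ 2)) :=
    sl2 (fun r φ θ => Real.sin φ ^ 2 * Uφ r φ θ ^ 2) cφ2
  obtain ⟨r₂, hr₂, b₂⟩ := sl1 _ (5 / 8 : ℝ) (11 / 16) cI2 (by norm_num)
  have B₁ : II (fun φ θ => Uθ r₁ φ θ ^ 2) ≤ 40 * κ := by
    have := b₁.trans h2
    linarith
  have B₂ : II (fun φ θ => Real.sin φ ^ 2 * Uφ r₂ φ θ ^ 2) ≤ 16 * κ := by
    have := b₂.trans h3
    linarith
  -- continuity of the slices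
  have cs : ∀ r : ℝ, Continuous (fun q : ℝ × ℝ => U r q.1 q.2) := fun r =>
    cU.comp (continuous_const.prodMk continuous_id)
  have csθ : ∀ r : ℝ, Continuous (fun q : ℝ × ℝ => Uθ r q.1 q.2) := fun r =>
    cUθ.comp (continuous_const.prodMk continuous_id)
  have csφ : ∀ r : ℝ, Continuous (fun q : ℝ × ℝ => Uφ r q.1 q.2) := fun r =>
    cUφ.comp (continuous_const.prodMk continuous_id)
  have ca : Continuous (fun φ : ℝ => U r₁ φ 0) :=
    (cs r₁).comp (continuous_id.prodMk continuous_const)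
  have cb : Continuous (fun θ : ℝ => U r₂ (Real.pi / 2) θ) :=
    (cs r₂).comp (continuous_const.prodMk continuous_id)
  -- the radial estimates
  have R₁ : II (fun φ θ => (U 1 φ θ - U r₁ φ θ) ^ 2) ≤ κ :=
    (hRAD U Ur Uφ Uθ hS r₁ (by linarith [hr₁.1]) (by linarith [hr₁.2])).trans h1
  have R₂ : II (fun φ θ => (U 1 φ θ - U r₂ φ θ) ^ 2) ≤ κ :=
    (hRAD U Ur Uφ Uθ hS r₂ (by linarith [hr₂.1]) (by linarith [hr₂.2])).trans h1
  -- the tangential estimates
  have pi2 : Real.pi ^ 2 < 10 := by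
    have h := Real.pi_lt_d2
    nlinarith [Real.pi_pos]
  have T₁ : II (fun φ θ => (U r₁ φ θ - U r₁ φ 0) ^ 2) ≤ 800 * κ := by
    refine (hTHE (fun φ θ => U r₁ φ θ) (fun φ θ => Uθ r₁ φ θ) (cs r₁) (csθ r₁)
      (fun φ θ => dθ r₁ φ θ)).trans ?_
    have h0 : 0 ≤ II (fun φ θ => Uθ r₁ φ θ ^ 2) := II_nonneg fun φ θ => sq_nonneg _
    have h4 : 2 * Real.pi ^ 2 * II (fun φ θ => Uθ r₁ φ θ ^ 2) ≤
        20 * II (fun φ θ => Uθ r₁ φ θ ^ 2) :=
      mul_le_mul_of_nonneg_right (by linarith) h0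
    linarith
  have T₂ : II (fun φ θ => (U r₂ φ θ - U r₂ (Real.pi / 2) θ) ^ 2) ≤ 64 * κ := by
    refine (hPHI (fun φ θ => U r₂ φ θ) (fun φ θ => Uφ r₂ φ θ) (cs r₂) (csφ r₂)
      (fun φ θ => dφ r₂ φ θ)).trans ?_
    linarith
  -- the traces
  have A₁ : II (fun φ θ => (U 1 φ θ - U r₁ φ 0) ^ 2) ≤ 1602 * κ := by
    have := II_tri (F := fun φ θ => U 1 φ θ) (G := fun φ θ => U r₁ φ θ)
      (H := fun φ _ => U r₁ φ 0) (cs 1) (cs r₁) (ca.comp continuous_fst)
    linarith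
  have A₂ : II (fun φ θ => (U 1 φ θ - U r₂ (Real.pi / 2) θ) ^ 2) ≤ 130 * κ := by
    have := II_tri (F := fun φ θ => U 1 φ θ) (G := fun φ θ => U r₂ φ θ)
      (H := fun _ θ => U r₂ (Real.pi / 2) θ) (cs 1) (cs r₂) (cb.comp continuous_snd)
    linarith
  obtain ⟨m, hm⟩ := hTWO (fun φ θ => U 1 φ θ) (fun φ => U r₁ φ 0)
    (fun θ => U r₂ (Real.pi / 2) θ) (1602 * κ) (130 * κ) (cs 1) ca cb A₁ A₂
  exact ⟨m, hm.trans (by linarith)⟩

end Pool.Agent.Lib.MP441052
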