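import Pool.Agent.Lib.MP_441052_gt.Spec

/-!
# ARE: the area density of the boundary sphere (MP_441052_gt)
-/

set_option autoImplicit false

namespace Pool.Agent.Lib.MP441052

open MeasureTheory Set Filter
open scoped ContDiff Topology

namespace AREM

/-- The unit vector in the direction of `∂_θ`. -/
noncomputable def TT (θ : ℝ) : Pt := (0, -Real.sin θ, Real.cos θ)

/-- The Gram determinant of `sphφ` and `TT`. -/
noncomputable def WW (G : RiemMetric) (q : ℝ × ℝ) : ℝ :=
  G.form (sph q.1 q.2) (sphφ q.1 q.2) (sphφ q.1 q.2) *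
      G.form (sph q.1 q.2) (TT q.2) (TT q.2) -
    G.form (sph q.1 q.2) (sphφ q.1 q.2) (TT q.2) ^ 2

lemma bil_smul_right (A : Matrix (Fin 3) (Fin 3) ℝ) (c : ℝ) (v w : Pt) :
    bil A v (c • w) = c * bil A v w := by
  unfold bil co
  simp [Fin.sum_univ_three]
  ring

lemma bil_smul_left (A : Matrix (Fin 3) (Fin 3) ℝ) (c : ℝ) (v w : Pt) :
    bil A (c • v) w = c * bil A v w := by
  unfold bil co
  simp [Fin.sum_univ_three]
  ring

lemma bil_sub (A : Matrix (Fin 3) (Fin 3) ℝ) (v w x : Pt) :
    bil A (v - w) x = bil A v x - bil A w x := by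
  unfold bil co
  simp [Fin.sum_univ_three]
  ring

lemma bil_sub' (A : Matrix (Fin 3) (Fin 3) ℝ) (v w x : Pt) :
    bil A x (v - w) = bil A x v - bil A x w := by
  unfold bil co
  simp [Fin.sum_univ_three]
  ring

lemma bil_symm {A : Matrix (Fin 3) (Fin 3) ℝ} (hA : A.IsHermitian) (v w : Pt) :
    bil A v w = bil A w v := by
  have h : ∀ i j, A i j = A j i := by
    intro i j
    have := congrFun (congrFun hA.eq i) j
    rw [Matrix.conjTranspose_apply] at this
    simpa using this.symm
  unfold bil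
  rw [Finset.sum_comm]
  refine Finset.sum_congr rfl fun i _ => Finset.sum_congr rfl fun j _ => ?_
  rw [h j i]
  ring

lemma bil_pos {A : Matrix (Fin 3) (Fin 3) ℝ} (hA : A.PosDef) {v : Pt} (hv : v ≠ 0) :
    0 < bil A v v := by
  have hco : co v ≠ 0 := by
    intro h
    apply hv
    have h0 := congrFun h 0
    have h1 := congrFun h 1
    have h2 := congrFun h 2
    simp [co] at h0 h1 h2
    ext
    · exact h0
    · exact h1
    · exact h2
  have h := (Matrix.posDef_iff_dotProduct_mulVec.mp hA).2 hco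
  have h2 : star (co v) ⬝ᵥ (A.mulVec (co v)) = bil A v v := by
    unfold bil
    simp [dotProduct, Matrix.mulVec, Fin.sum_univ_three]
    ring
  rwa [h2] at h

lemma form_sphθ (G : RiemMetric) (φ θ : ℝ) : sphθ φ θ = Real.sin φ • TT θ := by
  unfold sphθ TT
  ext <;> simp

lemma bdens_eq (G : RiemMetric) (φ θ : ℝ) :
    G.bdens φ θ = √(Real.sin φ ^ 2 * WW G (φ, θ)) := by
  unfold RiemMetric.bdens WW RiemMetric.form
  rw [form_sphθ G φ θ]
  simp only [bil_smul_left, bil_smul_right]
  congr 1
  ring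

lemma WW_pos (G : RiemMetric) (q : ℝ × ℝ) : 0 < WW G q := by
  obtain ⟨φ, θ⟩ := q
  set A := G.g (sph φ θ) with hA
  have hpos : A.PosDef := G.posDef _
  have hherm : A.IsHermitian := hpos.1
  set u := sphφ φ θ with hu
  set t := TT θ with ht
  have hsc := Real.sin_sq_add_cos_sq θ
  have hsp := Real.sin_sq_add_cos_sq φ
  have htne : t ≠ 0 := by
    intro h
    have h1 : (t.2.1) = 0 := by rw [h]; rfl
    have h2 : (t.2.2) = 0 := by rw [h]; rfl
    simp only [ht, TT] at h1 h2
    have h3 : Real.sin θ = 0 := by linarith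
    rw [h3, h2] at hsc
    norm_num at hsc
  have htt : 0 < bil A t t := bil_pos hpos htne
  have hut : ip u t = 0 := by
    simp only [hu, ht, ip, sphφ, TT]
    ring
  have huu : ip u u = 1 := by
    simp only [hu, ip, sphφ]
    have : (-Real.sin φ) * (-Real.sin φ) + Real.cos φ * Real.cos θ * (Real.cos φ * Real.cos θ) +
        Real.cos φ * Real.sin θ * (Real.cos φ * Real.sin θ) =
        Real.sin φ ^ 2 + Real.cos φ ^ 2 * (Real.sin θ ^ 2 + Real.cos θ ^ 2) := by ring
    rw [this, hsc, mul_one, hsp]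
  have hyne : (bil A t t • u - bil A u t • t) ≠ 0 := by
    intro h
    have h1 : ip (bil A t t • u - bil A u t • t) u = 0 := by
      rw [h]
      simp [ip]
    have h2 : ip (bil A t t • u - bil A u t • t) u = bil A t t * ip u u - bil A u t * ip u t := by
      simp [ip]
      ring
    rw [h2, hut, huu] at h1
    linarith
  have hy := bil_pos hpos hyne
  have hcalc : bil A (bil A t t • u - bil A u t • t) (bil A t t • u - bil A u t • t) =
      bil A t t * (bil A u u * bil A t t - bil A u t ^ 2) := by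
    rw [bil_sub, bil_sub', bil_sub']
    simp only [bil_smul_left, bil_smul_right]
    rw [bil_symm hherm t u]
    ring
  rw [hcalc] at hy
  have h3 := (mul_pos_iff_of_pos_left htt).mp hy
  exact h3

lemma continuous_co_comp {X : Type*} [TopologicalSpace X] {f : X → Pt} (hf : Continuous f)
    (i : Fin 3) : Continuous (fun x => co (f x) i) := by
  fin_cases i
  · exact hf.fst
  · exact hf.snd.fst
  · exact hf.snd.snd

lemma continuous_form {X : Type*} [TopologicalSpace X] (G : RiemMetric) {f v w : X → Pt}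
    (hf : Continuous f) (hv : Continuous v) (hw : Continuous w) :
    Continuous (fun x => G.form (f x) (v x) (w x)) := by
  unfold RiemMetric.form bil
  refine continuous_finsetSum _ fun i _ => continuous_finsetSum _ fun j _ => ?_
  exact (((G.smooth i j).continuous.comp hf).mul (continuous_co_comp hv i)).mul
    (continuous_co_comp hw j)

lemma continuous_WW (G : RiemMetric) : Continuous (WW G) := by
  have h1 : Continuous (fun q : ℝ × ℝ => sph q.1 q.2) := by
    unfold sph
    fun_prop
  have h2 : Continuous (fun q : ℝ × ℝ => sphφ q.1 q.2) := by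
    unfold sphφ
    fun_prop
  have h3 : Continuous (fun q : ℝ × ℝ => TT q.2) := by
    unfold TT
    fun_prop
  exact ((continuous_form G h1 h2 h2).mul (continuous_form G h1 h3 h3)).sub
    ((continuous_form G h1 h2 h3).pow 2)

end AREM

open AREM

theorem specARE : SpecARE := by
  intro G
  have hcont := continuous_WW G
  refine ⟨?_, ?_⟩
  · have h : (fun q : ℝ × ℝ => G.bdens q.1 q.2) =
        fun q : ℝ × ℝ => √(Real.sin q.1 ^ 2 * WW G q) := by
      funext q
      exact bdens_eq G q.1 q.2
    rw [h]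
    exact Real.continuous_sqrt.comp
      (((Real.continuous_sin.comp continuous_fst).pow 2).mul hcont)
  · have hK : IsCompact (Icc (0 : ℝ) Real.pi ×ˢ Icc (-Real.pi) Real.pi) :=
      isCompact_Icc.prod isCompact_Icc
    have hne : (Icc (0 : ℝ) Real.pi ×ˢ Icc (-Real.pi) Real.pi).Nonempty :=
      ⟨(0, 0), ⟨le_refl 0, Real.pi_pos.le⟩, ⟨by linarith [Real.pi_pos], Real.pi_pos.le⟩⟩
    obtain ⟨a, -, ha⟩ := hK.exists_isMinOn hne hcont.continuousOn
    obtain ⟨b, -, hb⟩ := hK.exists_isMaxOn hne hcont.continuousOn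
    refine ⟨√(WW G a), √(WW G b), Real.sqrt_pos.mpr (WW_pos G a),
      Real.sqrt_pos.mpr (WW_pos G b), ?_⟩
    intro φ hφ θ hθ
    have hs : 0 ≤ Real.sin φ := Real.sin_nonneg_of_nonneg_of_le_pi hφ.1 hφ.2
    have hmem : (φ, θ) ∈ Icc (0 : ℝ) Real.pi ×ˢ Icc (-Real.pi) Real.pi := ⟨hφ, hθ⟩
    have h1 : WW G a ≤ WW G (φ, θ) := ha hmem
    have h2 : WW G (φ, θ) ≤ WW G b := hb hmem
    rw [bdens_eq, Real.sqrt_mul (sq_nonneg _), Real.sqrt_sq hs]
    constructor
    · rw [mul_comm]
      exact mul_le_mul_of_nonneg_left (Real.sqrt_le_sqrt h1) hs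
    · rw [mul_comm _ (Real.sin φ)]
      exact mul_le_mul_of_nonneg_left (Real.sqrt_le_sqrt h2) hs

end Pool.Agent.Lib.MP441052
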