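import Pool.Agent.Lib.MP_441052_gt.Spec

set_option autoImplicit false

/-!
# Module CSI: the Cauchy-Schwarz inequality for a positive definite matrix and its inverse
-/

namespace Pool.Agent.Lib.MP441052

open Matrix

namespace CSIM

lemma nonneg {A : Matrix (Fin 3) (Fin 3) ℝ} (hA : A.PosDef) (x : Fin 3 → ℝ) :
    0 ≤ x ⬝ᵥ (A *ᵥ x) := by
  have := (Matrix.posDef_iff_dotProduct_mulVec.mp hA).2
  by_cases hx : x = 0
  · simp [hx]
  · have h := this hx
    simpa using h.le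

lemma symm {A : Matrix (Fin 3) (Fin 3) ℝ} (hA : A.PosDef) (x y : Fin 3 → ℝ) :
    x ⬝ᵥ (A *ᵥ y) = y ⬝ᵥ (A *ᵥ x) := by
  have h : Aᵀ = A := by
    have := hA.isHermitian
    simpa [Matrix.IsHermitian, Matrix.conjTranspose_eq_transpose_of_trivial] using this
  calc x ⬝ᵥ (A *ᵥ y) = (x ᵥ* A) ⬝ᵥ y := by rw [Matrix.dotProduct_mulVec]
    _ = (Aᵀ *ᵥ x) ⬝ᵥ y := by rw [Matrix.mulVec_transpose]
    _ = y ⬝ᵥ (A *ᵥ x) := by rw [h, dotProduct_comm]

end CSIM

open CSIM in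
theorem specCSI : SpecCSI := by
  intro A hA w v
  have hdet : IsUnit A.det := hA.det_pos.ne'.isUnit
  set y : Fin 3 → ℝ := A⁻¹ *ᵥ w with hy
  have hAy : A *ᵥ y = w := by
    rw [hy, Matrix.mulVec_mulVec, Matrix.mul_nonsing_inv _ hdet, Matrix.one_mulVec]
  have h1 : ∑ i, ∑ j, A⁻¹ i j * w i * w j = y ⬝ᵥ (A *ᵥ y) := by
    rw [hAy, hy]
    simp only [dotProduct, Matrix.mulVec, Fin.sum_univ_three]
    ring
  have h2 : ∑ i, w i * co v i = y ⬝ᵥ (A *ᵥ co v) := by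
    rw [symm hA, hAy, dotProduct_comm]
    simp only [dotProduct]
  have h3 : bil A v v = co v ⬝ᵥ (A *ᵥ co v) := by
    simp only [bil, dotProduct, Matrix.mulVec, Fin.sum_univ_three]
    ring
  refine ⟨by rw [h1]; exact nonneg hA y, ?_⟩
  rw [h1, h2, h3]
  by_cases hv : co v = 0
  · simp [hv]
  · have hα : 0 < co v ⬝ᵥ (A *ᵥ co v) := by
      simpa using (Matrix.posDef_iff_dotProduct_mulVec.mp hA).2 hv
    set α : ℝ := co v ⬝ᵥ (A *ᵥ co v) with hαd
    set γ : ℝ := y ⬝ᵥ (A *ᵥ co v) with hγd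
    have hγ' : co v ⬝ᵥ (A *ᵥ y) = γ := by rw [symm hA]
    have key := nonneg hA (α • y - γ • co v)
    have hexp : (α • y - γ • co v) ⬝ᵥ (A *ᵥ (α • y - γ • co v)) =
        α * (α * (y ⬝ᵥ (A *ᵥ y)) - γ ^ 2) := by
      rw [Matrix.mulVec_sub, Matrix.mulVec_smul, Matrix.mulVec_smul, sub_dotProduct,
        dotProduct_sub, dotProduct_sub, smul_dotProduct, smul_dotProduct, smul_dotProduct,
        smul_dotProduct, dotProduct_smul, dotProduct_smul, dotProduct_smul, dotProduct_smul,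
        hγ', ← hγd, ← hαd]
      simp only [smul_eq_mul]
      ring
    rw [hexp] at key
    have := nonneg_of_mul_nonneg_right key hα
    linarith

end Pool.Agent.Lib.MP441052
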