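import Pool.Agent.Lib.MP_441052_gt.Spec

/-!
# Module CUT: the cutoff functions
-/

set_option autoImplicit false

namespace Pool.Agent.Lib.MP441052

open MeasureTheory Set Filter
open scoped ContDiff Topology

namespace CUTM

lemma st0 {x : ℝ} (h : x ≤ 0) : Real.smoothTransition x = 0 :=
  Real.smoothTransition.zero_of_nonpos h

lemma st1 {x : ℝ} (h : 1 ≤ x) : Real.smoothTransition x = 1 :=
  Real.smoothTransition.one_of_one_le h

lemma ip_X1 (p : Pt) : ip p (X1 p) = 0 := by
  simp only [ip, X1]; ring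

lemma ip_X2 (p : Pt) : ip p (X2 p) = 0 := by
  simp only [ip, X2]; ring

end CUTM

open CUTM in
theorem specCUT : SpecCUT := by
  refine ⟨fun s => ⟨Real.smoothTransition.nonneg _, Real.smoothTransition.le_one _,
    Real.smoothTransition.nonneg _, Real.smoothTransition.le_one _⟩, fun s h => ?_, fun s h => ?_,
    fun s h => ?_, fun s h => ?_, fun p => ?_, fun p h => ?_, fun p h => ?_, fun p h h' => ?_,
    fun p h h' => ?_⟩
  · exact st1 (by linarith)
  · exact st0 (by linarith)
  · exact st0 (by linarith)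
  · exact st1 (by linarith)
  · have h1 := ip_X1 p
    have h2 := ip_X2 p
    have h3 : ip p (XX p) = ch1 (sq p) * ip p (X1 p) + ch2 (sq p) * ip p (X2 p) := by
      simp only [ip, XX, Prod.fst_add, Prod.snd_add, Prod.smul_fst, Prod.smul_snd, smul_eq_mul]
      ring
    rw [h3, h1, h2]; ring
  · have e1 : ch1 (sq p) = 0 := by
      rw [ch1, st0 (by linarith : 8 * sq p - 5 ≤ 0), zero_mul]
    have e2 : ch2 (sq p) = 0 := by
      rw [ch2, st0 (by linarith : 8 * sq p - 2 ≤ 0), zero_mul]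
    rw [XX, e1, e2]; simp
  · have e1 : ch1 (sq p) = 0 := by
      rw [ch1, st0 (by linarith : 14 - 16 * sq p ≤ 0), mul_zero]
    have e2 : ch2 (sq p) = 0 := by
      rw [ch2, st0 (by linarith : 5 - 8 * sq p ≤ 0), mul_zero]
    rw [XX, e1, e2]; simp
  · have e1 : ch1 (sq p) = 1 := by
      rw [ch1, st1 (by linarith : 1 ≤ 8 * sq p - 5), st1 (by linarith : 1 ≤ 14 - 16 * sq p), mul_one]
    have e2 : ch2 (sq p) = 0 := by
      rw [ch2, st0 (by linarith : 5 - 8 * sq p ≤ 0), mul_zero]
    rw [XX, e1, e2]; simp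
  · have e1 : ch1 (sq p) = 0 := by
      rw [ch1, st0 (by linarith : 8 * sq p - 5 ≤ 0), zero_mul]
    have e2 : ch2 (sq p) = 1 := by
      rw [ch2, st1 (by linarith : 1 ≤ 8 * sq p - 2), st1 (by linarith : 1 ≤ 5 - 8 * sq p), mul_one]
    rw [XX, e1, e2]; simp

end Pool.Agent.Lib.MP441052
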