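import Pool.Agent.Lib.MP_441052_gt.Spec

set_option autoImplicit false

/-!
# Module DBD: the determinant without squeezing is bounded above and below on the shell
-/

namespace Pool.Agent.Lib.MP441052

open MeasureTheory Set Filter
open scoped ContDiff Topology

namespace DBDM

theorem continuous_sq : Continuous sq := by
  unfold sq ip
  fun_prop

theorem continuous_chb : Continuous fun p : Pt => chb (sq p) := by
  unfold chb
  exact Real.smoothTransition.continuous.comp
    ((continuous_const.mul continuous_sq).sub continuous_const)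

theorem continuous_co (i : Fin 3) : Continuous fun p : Pt => co p i := by
  fin_cases i
  · exact continuous_fst
  · exact continuous_fst.comp continuous_snd
  · exact continuous_snd.comp continuous_snd

theorem continuous_outer : Continuous fun p : Pt => outer p :=
  continuous_matrix fun i j => (continuous_co i).mul (continuous_co j)

theorem continuous_Pm : Continuous fun p : Pt => Pm p := by
  unfold Pm
  exact (continuous_sq.smul continuous_const).sub continuous_outer

theorem continuous_g (G₀ : RiemMetric) : Continuous fun p : Pt => G₀.g p :=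
  continuous_matrix fun i j => (G₀.smooth i j).continuous

theorem continuous_DD (G₀ : RiemMetric) : Continuous (DD G₀) := by
  unfold DD
  refine Continuous.matrix_det ?_
  exact (continuous_outer.add ((continuous_const.sub continuous_chb).smul continuous_Pm)).add
    (continuous_chb.smul ((continuous_Pm.matrix_mul (continuous_g G₀)).matrix_mul continuous_Pm))

theorem Pm_transpose (p : Pt) : (Pm p).transpose = Pm p := by
  ext i j
  fin_cases i <;> fin_cases j <;> simp [Pm, outer, co, mul_comm]

theorem outer_transpose (p : Pt) : (outer p).transpose = outer p := by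
  ext i j
  simp [outer, mul_comm]

/-- The matrix is positive definite for `p ≠ 0`. -/
theorem posDef (hCUT : SpecCUT) (G₀ : RiemMetric) (p : Pt) (hp : 0 < sq p) :
    (outer p + (1 - chb (sq p)) • Pm p + chb (sq p) • (Pm p * G₀.g p * Pm p)).PosDef := by
  have hG := Matrix.posDef_iff_dotProduct_mulVec.1 (G₀.posDef p)
  have hGt : (G₀.g p).transpose = G₀.g p := by
    have h := hG.1
    rw [Matrix.IsHermitian, Matrix.conjTranspose_eq_transpose_of_trivial] at h
    exact h
  obtain ⟨-, -, hχ0, hχ1⟩ := hCUT.1 (sq p)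
  rw [Matrix.posDef_iff_dotProduct_mulVec]
  constructor
  · rw [Matrix.IsHermitian, Matrix.conjTranspose_eq_transpose_of_trivial]
    rw [Matrix.transpose_add, Matrix.transpose_add, Matrix.transpose_smul, Matrix.transpose_smul,
      outer_transpose, Pm_transpose, Matrix.transpose_mul, Matrix.transpose_mul, Pm_transpose, hGt,
      Matrix.mul_assoc]
  · intro x hx
    set χ := chb (sq p) with hχ
    set n : ℝ := x 0 ^ 2 + x 1 ^ 2 + x 2 ^ 2 with hn
    set t : ℝ := p.1 * x 0 + p.2.1 * x 1 + p.2.2 * x 2 with ht
    set q : ℝ := sq p * n - t ^ 2 with hq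
    set y : Fin 3 → ℝ := Matrix.mulVec (Pm p) x with hy
    have hs : sq p = p.1 * p.1 + p.2.1 * p.2.1 + p.2.2 * p.2.2 := rfl
    have hq0 : 0 ≤ q := by
      have h1 : q = (p.2.1 * x 2 - p.2.2 * x 1) ^ 2 + (p.1 * x 2 - p.2.2 * x 0) ^ 2 +
          (p.1 * x 1 - p.2.1 * x 0) ^ 2 := by
        rw [hq, hn, ht, hs]
        ring
      rw [h1]
      positivity
    have hn0 : 0 < n := by
      by_contra hcon
      have h0 : x 0 ^ 2 = 0 ∧ x 1 ^ 2 = 0 ∧ x 2 ^ 2 = 0 := by
        have a0 := sq_nonneg (x 0)
        have a1 := sq_nonneg (x 1)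
        have a2 := sq_nonneg (x 2)
        refine ⟨?_, ?_, ?_⟩ <;> linarith
      apply hx
      funext i
      fin_cases i
      · exact pow_eq_zero_iff (two_ne_zero) |>.1 h0.1
      · exact pow_eq_zero_iff (two_ne_zero) |>.1 h0.2.1
      · exact pow_eq_zero_iff (two_ne_zero) |>.1 h0.2.2
    have h1 : dotProduct x (Matrix.mulVec (outer p) x) = t ^ 2 := by
      simp only [dotProduct, Matrix.mulVec, outer, co, Fin.sum_univ_three, Matrix.of_apply,
        Matrix.cons_val_zero, Matrix.cons_val_one, Matrix.cons_val, ht]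
      ring
    have h2 : dotProduct x (Matrix.mulVec (Pm p) x) = q := by
      rw [Pm, Matrix.sub_mulVec, dotProduct_sub, h1, Matrix.smul_mulVec, Matrix.one_mulVec,
        dotProduct_smul, smul_eq_mul, hq]
      congr 2
      simp only [dotProduct, Fin.sum_univ_three, hn]
      ring
    have h3 : dotProduct x (Matrix.mulVec (Pm p * G₀.g p * Pm p) x) =
        dotProduct y (Matrix.mulVec (G₀.g p) y) := by
      rw [hy, ← Matrix.mulVec_mulVec, ← Matrix.mulVec_mulVec, Matrix.dotProduct_mulVec,
        ← Matrix.mulVec_transpose, Pm_transpose]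
    have h4 : dotProduct y y = sq p * q := by
      have h5 : ∀ i, y i = sq p * x i - t * co p i := by
        intro i
        rw [hy, Pm, Matrix.sub_mulVec, Matrix.smul_mulVec, Matrix.one_mulVec]
        rw [Pi.sub_apply, Pi.smul_apply, smul_eq_mul]
        congr 1
        simp only [Matrix.mulVec, dotProduct, outer, Fin.sum_univ_three, Matrix.of_apply, ht]
        simp only [co, Matrix.cons_val_zero, Matrix.cons_val_one, Matrix.cons_val]
        ring
      simp only [dotProduct, Fin.sum_univ_three, h5, hq, hn, ht]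
      simp only [co, Matrix.cons_val_zero, Matrix.cons_val_one, Matrix.cons_val]
      rw [hs]
      ring
    have h6 : star x = x := by
      funext i
      simp
    have hform : dotProduct (star x) (Matrix.mulVec
        (outer p + (1 - χ) • Pm p + χ • (Pm p * G₀.g p * Pm p)) x) =
        t ^ 2 + (1 - χ) * q + χ * dotProduct y (Matrix.mulVec (G₀.g p) y) := by
      rw [h6, Matrix.add_mulVec, Matrix.add_mulVec, dotProduct_add, dotProduct_add,
        Matrix.smul_mulVec, Matrix.smul_mulVec, dotProduct_smul, dotProduct_smul, smul_eq_mul,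
        smul_eq_mul, h1, h2, h3]
    rw [hform]
    have hy0 : y ≠ 0 → 0 < dotProduct y (Matrix.mulVec (G₀.g p) y) := by
      intro h
      have h7 := hG.2 h
      have h8 : star y = y := by
        funext i
        simp
      rw [h8] at h7
      exact h7
    rcases hq0.eq_or_lt with hq1 | hq1
    · have h7 : t ^ 2 = sq p * n := by linarith
      have h8 : 0 < sq p * n := mul_pos hp hn0
      have h9 : 0 ≤ dotProduct y (Matrix.mulVec (G₀.g p) y) := by
        by_cases h : y = 0
        · rw [h]
          simp
        · exact (hy0 h).le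
      have h10 : 0 ≤ χ * dotProduct y (Matrix.mulVec (G₀.g p) y) := mul_nonneg hχ0 h9
      rw [← hq1]
      linarith
    · have hyne : y ≠ 0 := by
        intro h
        rw [h] at h4
        have h7 : 0 < sq p * q := mul_pos hp hq1
        rw [← h4] at h7
        simp at h7
      have hF := hy0 hyne
      have h7 : 0 ≤ t ^ 2 := sq_nonneg t
      rcases hχ0.eq_or_lt with h8 | h8
      · rw [← h8]
        linarith
      · have h9 : 0 < χ * dotProduct y (Matrix.mulVec (G₀.g p) y) := mul_pos h8 hF
        have h10 : 0 ≤ (1 - χ) * q := mul_nonneg (by linarith) hq1.le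
        linarith

end DBDM

open DBDM in
/-- **DBD**: `DD G₀` is continuous, and bounded above and below by positive constants on the
shell. -/
theorem specDBD (hCUT : SpecCUT) : SpecDBD := by
  intro G₀
  have hc := continuous_DD G₀
  refine ⟨hc, ?_⟩
  set K : Set Pt := {p | 1 / 4 ≤ sq p ∧ sq p ≤ 1} with hK
  have hKc : IsCompact K := by
    refine IsCompact.of_isClosed_subset (isCompact_Icc (a := ((-1, -1, -1) : Pt))
      (b := ((1, 1, 1) : Pt))) ?_ ?_
    · exact (isClosed_le continuous_const continuous_sq).inter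
        (isClosed_le continuous_sq continuous_const)
    · rintro p ⟨-, hp⟩
      have hs : sq p = p.1 * p.1 + p.2.1 * p.2.1 + p.2.2 * p.2.2 := rfl
      rw [hs] at hp
      refine ⟨⟨?_, ?_, ?_⟩, ⟨?_, ?_, ?_⟩⟩
      · show (-1 : ℝ) ≤ p.1
        nlinarith [mul_self_nonneg p.1, mul_self_nonneg p.2.1, mul_self_nonneg p.2.2]
      · show (-1 : ℝ) ≤ p.2.1
        nlinarith [mul_self_nonneg p.1, mul_self_nonneg p.2.1, mul_self_nonneg p.2.2]
      · show (-1 : ℝ) ≤ p.2.2
        nlinarith [mul_self_nonneg p.1, mul_self_nonneg p.2.1, mul_self_nonneg p.2.2]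
      · show p.1 ≤ (1 : ℝ)
        nlinarith [mul_self_nonneg p.1, mul_self_nonneg p.2.1, mul_self_nonneg p.2.2]
      · show p.2.1 ≤ (1 : ℝ)
        nlinarith [mul_self_nonneg p.1, mul_self_nonneg p.2.1, mul_self_nonneg p.2.2]
      · show p.2.2 ≤ (1 : ℝ)
        nlinarith [mul_self_nonneg p.1, mul_self_nonneg p.2.1, mul_self_nonneg p.2.2]
  have hne : K.Nonempty := by
    refine ⟨((1, 0, 0) : Pt), ?_, ?_⟩ <;>
    · show _ ≤ _
      simp only [sq, ip]
      norm_num
  obtain ⟨p₀, hp₀, hmin⟩ := hKc.exists_isMinOn hne hc.continuousOn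
  obtain ⟨p₁, hp₁, hmax⟩ := hKc.exists_isMaxOn hne hc.continuousOn
  refine ⟨DD G₀ p₀, DD G₀ p₁, ?_, fun p h1 h2 => ⟨hmin ⟨h1, h2⟩, hmax ⟨h1, h2⟩⟩⟩
  exact (posDef hCUT G₀ p₀ (lt_of_lt_of_le (by norm_num) hp₀.1)).det_pos

end Pool.Agent.Lib.MP441052
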