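import Pool.Agent.Lib.MP_441052_gt.Spec

set_option autoImplicit false

/-! Module DER: derivatives in spherical coordinates. -/

namespace Pool.Agent.Lib.MP441052

open MeasureTheory Set Filter
open scoped ContDiff Topology

namespace DERM

lemma cont_sph : Continuous (fun q : ℝ × ℝ × ℝ => sph q.2.1 q.2.2) := by
  unfold sph
  fun_prop

lemma cont_sphφ : Continuous (fun q : ℝ × ℝ × ℝ => sphφ q.2.1 q.2.2) := by
  unfold sphφ
  fun_prop

lemma cont_sphθ : Continuous (fun q : ℝ × ℝ × ℝ => sphθ q.2.1 q.2.2) := by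
  unfold sphθ
  fun_prop

lemma hφ (φ θ : ℝ) : HasDerivAt (fun t => sph t θ) (sphφ φ θ) φ := by
  unfold sph sphφ
  have h1 := Real.hasDerivAt_cos φ
  have h2 := (Real.hasDerivAt_sin φ).mul_const (Real.cos θ)
  have h3 := (Real.hasDerivAt_sin φ).mul_const (Real.sin θ)
  exact h1.prodMk (h2.prodMk h3)

lemma hθ (φ θ : ℝ) : HasDerivAt (fun t => sph φ t) (sphθ φ θ) θ := by
  unfold sph sphθ
  have h1 := hasDerivAt_const θ (Real.cos φ)
  have h2 := (Real.hasDerivAt_cos θ).const_mul (Real.sin φ)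
  have h3 := (Real.hasDerivAt_sin θ).const_mul (Real.sin φ)
  have := h1.prodMk (h2.prodMk h3)
  simpa [mul_neg] using this

end DERM

open DERM

theorem specDER : SpecDER := by
  intro u hu
  have hd : Differentiable ℝ u := hu.differentiable (by norm_num)
  have hcf : Continuous (fderiv ℝ u) := hu.continuous_fderiv (by norm_num)
  have hP : Continuous (fun q : ℝ × ℝ × ℝ => q.1 • sph q.2.1 q.2.2) :=
    continuous_fst.smul cont_sph
  refine ⟨hu.continuous.comp hP, ?_, ?_, ?_, ?_, ?_, ?_⟩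
  · exact (hcf.comp hP).clm_apply cont_sph
  · exact (hcf.comp hP).clm_apply (continuous_fst.smul cont_sphφ)
  · exact (hcf.comp hP).clm_apply (continuous_fst.smul cont_sphθ)
  · intro r φ θ
    have h : HasDerivAt (fun t : ℝ => t • sph φ θ) (sph φ θ) r := by
      simpa using (hasDerivAt_id r).smul_const (sph φ θ)
    exact (hd (r • sph φ θ)).hasFDerivAt.comp_hasDerivAt r h
  · intro r φ θ
    have h : HasDerivAt (fun t : ℝ => r • sph t θ) (r • sphφ φ θ) φ := (hφ φ θ).const_smul r
    exact (hd (r • sph φ θ)).hasFDerivAt.comp_hasDerivAt φ h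
  · intro r φ θ
    have h : HasDerivAt (fun t : ℝ => r • sph φ t) (r • sphθ φ θ) θ := (hθ φ θ).const_smul r
    exact (hd (r • sph φ θ)).hasFDerivAt.comp_hasDerivAt θ h

end Pool.Agent.Lib.MP441052
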