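import Pool.Agent.Lib.MP_441052_gt.Spec

set_option autoImplicit false

/-!
# Module DET (helper61): the determinant of the metric
-/

namespace Pool.Agent.Lib.MP441052

open Set Filter
open scoped ContDiff Topology

namespace DETM

theorem outer_zero : outer (0 : Pt) = 0 := by
  ext i j
  fin_cases i <;> fin_cases j <;> simp [outer, co]

/-- the determinant of `c I + t x xᵀ + r y yᵀ` -/
theorem det_gen (c t r : ℝ) (p X : Pt) :
    (c • (1 : Matrix (Fin 3) (Fin 3) ℝ) + t • outer p + r • outer X).det =
      c ^ 3 + c ^ 2 * (t * ip p p + r * ip X X) + c * t * r * (ip p p * ip X X - ip p X ^ 2) := by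
  obtain ⟨x, y, z⟩ := p
  obtain ⟨u, v, w⟩ := X
  simp [Matrix.det_fin_three, outer, co, ip]
  ring

/-- the determinant of `H + t x xᵀ` -/
theorem det_lin (H : Matrix (Fin 3) (Fin 3) ℝ) (p : Pt) (t : ℝ) :
    (H + t • outer p).det = H.det + t * ((H + outer p).det - H.det) := by
  obtain ⟨x, y, z⟩ := p
  simp [Matrix.det_fin_three, outer, co]
  ring

theorem Pm_mulVec (p : Pt) : (Pm p).mulVec (co p) = 0 := by
  obtain ⟨x, y, z⟩ := p
  ext i
  fin_cases i <;>
    simp [Pm, outer, co, sq, ip, Matrix.mulVec, dotProduct, Fin.sum_univ_three] <;> ring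

theorem co_ne_zero {p : Pt} (h : 0 < sq p) : co p ≠ 0 := by
  intro h0
  have h1 : p.1 = 0 := by
    have := congrFun h0 0
    simpa [co] using this
  have h2 : p.2.1 = 0 := by
    have := congrFun h0 1
    simpa [co] using this
  have h3 : p.2.2 = 0 := by
    have := congrFun h0 2
    simpa [co] using this
  rw [sq, ip, h1, h2, h3] at h
  norm_num at h

end DETM

open DETM in
theorem specDET (hCUT : SpecCUT) : SpecDET := by
  intro G₀ δ τ p hδ
  obtain ⟨-, -, hbe0, hch0, -, hpX, hX1, hX2, -, -⟩ := hCUT
  have hdd : δ ^ 2 ≠ 0 := by positivity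
  have haa : 1 ≤ aa δ p := by
    have : 0 ≤ ip (XX p) (XX p) := by
      rw [ip]
      nlinarith [mul_self_nonneg (XX p).1, mul_self_nonneg (XX p).2.1,
        mul_self_nonneg (XX p).2.2]
    rw [aa]
    have h2 : 0 ≤ ip (XX p) (XX p) / δ ^ 2 := by positivity
    linarith
  have haa1 : XX p = 0 → aa δ p = 1 := by
    intro h
    rw [aa, h]
    simp [ip]
  have hMM : XX p = 0 → MM δ p = Pm p := by
    intro h
    rw [MM, haa1 h, h, outer_zero]
    simp
  refine ⟨fun hs => ?_, fun hs => ?_⟩
  · have hbe := hbe0 (sq p) hs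
    rcases le_total (sq p) (7 / 8) with h78 | h78
    · have hch := hch0 (sq p) h78
      have hD : DD G₀ p = sq p ^ 3 := by
        have h1 : outer p + (1 - chb (sq p)) • Pm p + chb (sq p) • (Pm p * G₀.g p * Pm p) =
            (sq p) • (1 : Matrix (Fin 3) (Fin 3) ℝ) + (0 : ℝ) • outer p +
              (0 : ℝ) • outer (0 : Pt) := by
          rw [hch, Pm]
          simp
        rw [DD, h1, det_gen]
        ring
      have hg : gm G₀ δ τ p = (aa δ p * sq p) • (1 : Matrix (Fin 3) (Fin 3) ℝ) +
          (δ ^ 2 - aa δ p) • outer p + (-(sq p * ka δ p)) • outer (XX p) := by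
        rw [gm, hbe, hch, MM, Pm]
        ext i j
        simp only [Matrix.add_apply, Matrix.smul_apply, Matrix.sub_apply, smul_eq_mul]
        ring
      rw [hg, det_gen, hD, hpX p]
      have hk : ka δ p * ip (XX p) (XX p) = aa δ p - 1 / aa δ p := by
        have h3 : ip (XX p) (XX p) = (aa δ p - 1) * δ ^ 2 := by
          rw [aa]
          field_simp
          ring
        have h4 : aa δ p ≠ 0 := by positivity
        rw [h3, ka]
        field_simp
        ring
      have hpp : ip p p = sq p := rfl
      rw [hpp]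
      have h4 : aa δ p ≠ 0 := by positivity
      have h5 : aa δ p * (aa δ p - ka δ p * ip (XX p) (XX p)) = 1 := by
        rw [hk]
        field_simp
        ring
      have h6 : (aa δ p * sq p) ^ 3 +
          (aa δ p * sq p) ^ 2 * ((δ ^ 2 - aa δ p) * sq p + -(sq p * ka δ p) * ip (XX p) (XX p)) +
          aa δ p * sq p * (δ ^ 2 - aa δ p) * -(sq p * ka δ p) *
            (sq p * ip (XX p) (XX p) - 0 ^ 2) =
          δ ^ 2 * sq p ^ 3 * (aa δ p * (aa δ p - ka δ p * ip (XX p) (XX p))) := by
        ring
      rw [h6, h5]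
      ring
    · have hX := hX2 p h78
      set H : Matrix (Fin 3) (Fin 3) ℝ :=
        (1 - chb (sq p)) • Pm p + chb (sq p) • (Pm p * G₀.g p * Pm p) with hH
      have hg : gm G₀ δ τ p = H + δ ^ 2 • outer p := by
        rw [gm, hbe, hMM hX, hH]
        simp only [mul_zero, zero_smul, zero_add]
        abel
      have hD : DD G₀ p = (H + outer p).det := by
        rw [DD, hH]
        congr 1
        abel
      have hdet : H.det = 0 := by
        rw [← Matrix.exists_mulVec_eq_zero_iff]
        refine ⟨co p, co_ne_zero (by linarith), ?_⟩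
        rw [hH, Matrix.add_mulVec, Matrix.smul_mulVec, Matrix.smul_mulVec,
          ← Matrix.mulVec_mulVec, Pm_mulVec, Matrix.mulVec_zero]
        simp
      rw [hg, det_lin, hD, hdet]
      ring
  · have hX := hX1 p hs
    have hch := hch0 (sq p) (by linarith)
    have hg : gm G₀ δ τ p = (τ * be (sq p) + sq p) • (1 : Matrix (Fin 3) (Fin 3) ℝ) +
        (δ ^ 2 - 1) • outer p + (0 : ℝ) • outer (0 : Pt) := by
      rw [gm, hch, hMM hX, Pm]
      ext i j
      simp only [Matrix.add_apply, Matrix.smul_apply, Matrix.sub_apply, smul_eq_mul]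
      ring
    have hpp : ip p p = sq p := rfl
    rw [hg, det_gen, hpp]
    ring

end Pool.Agent.Lib.MP441052
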