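import Mathlib

set_option autoImplicit false

/-!
# Large first Steklov eigenvalue on the three-dimensional ball: definitions

Riemannian metrics on the closed unit ball `B³`, their volume, the area of the boundary sphere, the
Dirichlet energy and the first non-zero Steklov eigenvalue.
-/

namespace Pool.Agent.Lib.MP441052

open MeasureTheory Set Filter
open scoped ContDiff Topology

/-- Points (and vectors) of `ℝ³`; the coordinates of `p` are `p.1`, `p.2.1`, `p.2.2`. -/
abbrev Pt : Type := ℝ × ℝ × ℝ

/-- The coordinate vector fields (standard basis). -/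
def e : Fin 3 → Pt := ![(1, 0, 0), (0, 1, 0), (0, 0, 1)]

/-- The coordinates of a vector. -/
def co (v : Pt) : Fin 3 → ℝ := ![v.1, v.2.1, v.2.2]

/-- The Euclidean inner product. -/
def ip (p q : Pt) : ℝ := p.1 * q.1 + p.2.1 * q.2.1 + p.2.2 * q.2.2

/-- The closed unit ball `B³`, a compact connected smooth three-manifold with boundary. -/
def ball3 : Set Pt := {p | ip p p ≤ 1}

/-- The unit sphere `S²`, the boundary of `B³`. -/
def sphere2 : Set Pt := {p | ip p p = 1}

/-- The bilinear form of a matrix: `bil A v w = ∑ i j, A i j v_i w_j`. -/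
def bil (A : Matrix (Fin 3) (Fin 3) ℝ) (v w : Pt) : ℝ := ∑ i, ∑ j, A i j * co v i * co w j

/-- A smooth Riemannian metric on `B³` (the restriction of one on `ℝ³`), given by its Gram matrix
in the standard frame. -/
structure RiemMetric where
  /-- the Gram matrix -/
  g : Pt → Matrix (Fin 3) (Fin 3) ℝ
  smooth : ∀ i j, ContDiff ℝ ∞ (fun p => g p i j)
  posDef : ∀ p, (g p).PosDef

/-- The parametrisation of `S²` by spherical coordinates `(φ, θ) ∈ [0, π] × [-π, π]`. -/
noncomputable def sph (φ θ : ℝ) : Pt :=
  (Real.cos φ, Real.sin φ * Real.cos θ, Real.sin φ * Real.sin θ)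

/-- The partial derivative `∂/∂φ` of `sph`. -/
noncomputable def sphφ (φ θ : ℝ) : Pt :=
  (-Real.sin φ, Real.cos φ * Real.cos θ, Real.cos φ * Real.sin θ)

/-- The partial derivative `∂/∂θ` of `sph`. -/
noncomputable def sphθ (φ θ : ℝ) : Pt :=
  (0, -(Real.sin φ * Real.sin θ), Real.sin φ * Real.cos θ)

namespace RiemMetric

variable (G : RiemMetric)

/-- `g_p(v, w)`. -/
def form (p v w : Pt) : ℝ := bil (G.g p) v w

/-- The Riemannian volume density `√(det g)`. -/
noncomputable def dens (p : Pt) : ℝ := √ (G.g p).det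

/-- The volume of `B³`. -/
noncomputable def vol : ℝ := ∫ p in ball3, G.dens p

/-- The area density of `S²` for the induced metric in spherical coordinates, the square root of
the Gram determinant of the two coordinate vector fields `∂/∂φ`, `∂/∂θ`. -/
noncomputable def bdens (φ θ : ℝ) : ℝ :=
  √ (G.form (sph φ θ) (sphφ φ θ) (sphφ φ θ) * G.form (sph φ θ) (sphθ φ θ) (sphθ φ θ) -
    G.form (sph φ θ) (sphφ φ θ) (sphθ φ θ) ^ 2)

/-- `∫_{S²} f dA_g`, in spherical coordinates. -/
noncomputable def intB (f : Pt → ℝ) : ℝ :=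
  ∫ φ in (0 : ℝ)..Real.pi, ∫ θ in (-Real.pi)..Real.pi, f (sph φ θ) * G.bdens φ θ

/-- The area of the boundary. -/
noncomputable def area : ℝ := G.intB fun _ => 1

/-- `|∇u|²_g = ∑ g^{ij} ∂_i u ∂_j u`. -/
noncomputable def gradSq (u : Pt → ℝ) (p : Pt) : ℝ :=
  ∑ i, ∑ j, (G.g p)⁻¹ i j * fderiv ℝ u p (e i) * fderiv ℝ u p (e j)

/-- The Dirichlet energy `∫_{B³} |∇u|²_g dV_g`. -/
noncomputable def energy (u : Pt → ℝ) : ℝ := ∫ p in ball3, G.gradSq u p * G.dens p

/-- Admissible functions in the variational characterisation of the first Steklov eigenvalue: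
`C¹` functions with mean zero on `S²` which do not vanish identically on `S²`. -/
def IsAdmissible (u : Pt → ℝ) : Prop :=
  ContDiff ℝ 1 u ∧ G.intB u = 0 ∧ G.intB (fun p => u p ^ 2) ≠ 0

/-- The first non-zero Steklov eigenvalue, the infimum of the Rayleigh quotients
`∫_M |∇u|² dV / ∫_{∂M} u² dA` over the admissible functions. -/
noncomputable def sigma1 : ℝ :=
  sInf {r | ∃ u, G.IsAdmissible u ∧ r = G.energy u / G.intB (fun p => u p ^ 2)}

/-- Two metrics induce the same Riemannian metric on the boundary sphere: they agree on all pairs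
of tangent vectors of `S²`. -/
def SameBoundary (G G' : RiemMetric) : Prop :=
  ∀ p ∈ sphere2, ∀ v w, ip p v = 0 → ip p w = 0 → G.form p v w = G'.form p v w

end RiemMetric

end Pool.Agent.Lib.MP441052
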