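import Pool.Agent.Lib.MP_441052_gt.Spec

set_option autoImplicit false

/-!
# Module EDN: the energy density dominates the three directional derivatives
-/

namespace Pool.Agent.Lib.MP441052

open MeasureTheory Set Filter
open scoped ContDiff Topology

namespace EDNM

theorem fderiv_expand (u : Pt → ℝ) (p v : Pt) :
    fderiv ℝ u p v = ∑ i, fderiv ℝ u p (e i) * co v i := by
  have hv : v = v.1 • e 0 + v.2.1 • e 1 + v.2.2 • e 2 := by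
    ext <;> simp [e]
  conv_lhs => rw [hv]
  rw [map_add, map_add, map_smul, map_smul, map_smul]
  have c0 : co v 0 = v.1 := rfl
  have c1 : co v 1 = v.2.1 := rfl
  have c2 : co v 2 = v.2.2 := rfl
  rw [Fin.sum_univ_three, c0, c1, c2, smul_eq_mul, smul_eq_mul, smul_eq_mul]
  ring

theorem key (G₀ : RiemMetric) {c' δ τ : ℝ} (hδ : 0 < δ) (hτ : 0 < τ) (hPDM : SpecPDM)
    (hDET : SpecDET) (hCSI : SpecCSI) (u : Pt → ℝ) (p v : Pt) (h1 : 1 / 4 ≤ sq p)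
    (hc' : c' ≤ DD G₀ p) (hb : bil (gm G₀ δ τ p) v v ≤ δ ^ 2) :
    √ c' * fderiv ℝ u p v ^ 2 ≤ δ * eden (gm G₀ δ τ p) u p := by
  have hA := hPDM G₀ δ τ p hδ hτ
  obtain ⟨hQ, hCS⟩ := hCSI _ hA (fun i => fderiv ℝ u p (e i)) v
  have hdet : √ (gm G₀ δ τ p).det = δ * √ (DD G₀ p) := by
    rw [(hDET G₀ δ τ p hδ).1 h1, Real.sqrt_mul (sq_nonneg δ), Real.sqrt_sq hδ.le]
  have h2 : fderiv ℝ u p v ^ 2 ≤
      (∑ i, ∑ j, (gm G₀ δ τ p)⁻¹ i j * fderiv ℝ u p (e i) * fderiv ℝ u p (e j)) * δ ^ 2 := by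
    rw [fderiv_expand]
    exact hCS.trans (mul_le_mul_of_nonneg_left hb hQ)
  have h3 : √ c' ≤ √ (DD G₀ p) := Real.sqrt_le_sqrt hc'
  unfold eden
  rw [hdet]
  generalize (∑ i, ∑ j, (gm G₀ δ τ p)⁻¹ i j * fderiv ℝ u p (e i) * fderiv ℝ u p (e j)) = Q at *
  calc √ c' * fderiv ℝ u p v ^ 2 ≤ √ c' * (Q * δ ^ 2) :=
        mul_le_mul_of_nonneg_left h2 (Real.sqrt_nonneg _)
    _ ≤ √ (DD G₀ p) * (Q * δ ^ 2) := mul_le_mul_of_nonneg_right h3 (by positivity)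
    _ = δ * (Q * (δ * √ (DD G₀ p))) := by ring

end EDNM

theorem specEDN (hPDM : SpecPDM) (hVAL : SpecVAL) (hDET : SpecDET) (hDBD : SpecDBD)
    (hCSI : SpecCSI) : SpecEDN := by
  intro G₀
  obtain ⟨-, c', C, hc', hb⟩ := hDBD G₀
  refine ⟨√ c', Real.sqrt_pos.2 hc', ?_⟩
  intro δ τ hδ hτ u p
  obtain ⟨v1, v2, v3, -⟩ := hVAL G₀ δ τ p hδ
  refine ⟨?_, ?_, ?_, ?_⟩
  · have hA := hPDM G₀ δ τ p hδ hτ
    exact mul_nonneg (hCSI _ hA (fun i => fderiv ℝ u p (e i)) p).1 (Real.sqrt_nonneg _)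
  · intro h1 h2
    refine EDNM.key G₀ hδ hτ hPDM hDET hCSI u p p h1 (hb p h1 h2).1 ?_
    rw [v1 h1]
    have : sq p ^ 2 ≤ 1 := by nlinarith
    nlinarith [sq_nonneg δ]
  · intro h1 h2
    exact EDNM.key G₀ hδ hτ hPDM hDET hCSI u p _ (by linarith)
      (hb p (by linarith) (by linarith)).1 (v2 h1 h2)
  · intro h1 h2
    exact EDNM.key G₀ hδ hτ hPDM hDET hCSI u p _ (by linarith)
      (hb p (by linarith) (by linarith)).1 (v3 h1 h2)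

end Pool.Agent.Lib.MP441052
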