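import Pool.Agent.Lib.MP_441052_gt.Spec

set_option autoImplicit false

/-! Module ENG: the energy in spherical coordinates. -/

namespace Pool.Agent.Lib.MP441052

open MeasureTheory Set Filter
open scoped ContDiff Topology

namespace ENGM

lemma cont_sph : Continuous (fun q : ℝ × ℝ × ℝ => sph q.2.1 q.2.2) := by
  unfold sph
  fun_prop

lemma cont_sphφ : Continuous (fun q : ℝ × ℝ × ℝ => sphφ q.2.1 q.2.2) := by
  unfold sphφ
  fun_prop

lemma cont_sphθ : Continuous (fun q : ℝ × ℝ × ℝ => sphθ q.2.1 q.2.2) := by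
  unfold sphθ
  fun_prop

lemma contP : Continuous (fun q : ℝ × ℝ × ℝ => q.1 • sph q.2.1 q.2.2) :=
  continuous_fst.smul cont_sph

lemma sq_smul_sph (r φ θ : ℝ) : sq (r • sph φ θ) = r ^ 2 := by
  have h1 := Real.sin_sq_add_cos_sq φ
  have h2 := Real.sin_sq_add_cos_sq θ
  simp only [sq, ip, sph, Prod.smul_mk, smul_eq_mul]
  linear_combination (r ^ 2 * Real.sin φ ^ 2) * h2 + r ^ 2 * h1

lemma X1_eq (r φ θ : ℝ) : X1 (r • sph φ θ) = r • sphθ φ θ := by
  simp only [X1, sph, sphθ, Prod.smul_mk, smul_eq_mul, Prod.mk.injEq]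
  refine ⟨by ring, by ring, trivial⟩

lemma X2_eq (r φ θ : ℝ) :
    X2 (r • sph φ θ) = (-(r * Real.sin φ)) • (r • sphφ φ θ) := by
  have h2 := Real.sin_sq_add_cos_sq θ
  simp only [X2, sph, sphφ, Prod.smul_mk, smul_eq_mul, Prod.mk.injEq]
  refine ⟨by linear_combination (r ^ 2 * Real.sin φ ^ 2) * h2, by ring, by ring⟩

lemma eden_cont {A : Pt → Matrix (Fin 3) (Fin 3) ℝ} (hA : ∀ i j, Continuous fun p => A p i j)
    (hd : ∀ p, (A p).PosDef) {u : Pt → ℝ} (hu : ContDiff ℝ 1 u) :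
    Continuous (fun p => eden (A p) u p) := by
  have hAc : Continuous A := continuous_matrix hA
  have hdet : Continuous (fun p => (A p).det) := hAc.matrix_det
  have hne : ∀ p, (A p).det ≠ 0 := fun p => (hd p).det_pos.ne'
  have hinv : ∀ i j, Continuous (fun p => (A p)⁻¹ i j) := by
    intro i j
    have : (fun p => (A p)⁻¹ i j) = fun p => (A p).det⁻¹ * (A p).adjugate i j := by
      funext p
      rw [Matrix.inv_def, Matrix.smul_apply, Ring.inverse_eq_inv', smul_eq_mul]
    rw [this]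
    exact (hdet.inv₀ hne).mul (hAc.matrix_adjugate.matrix_elem i j)
  have hcf : Continuous (fderiv ℝ u) := hu.continuous_fderiv (by norm_num)
  unfold eden
  refine Continuous.mul ?_ hdet.sqrt
  refine continuous_finsetSum _ fun i _ => continuous_finsetSum _ fun j _ => ?_
  exact ((hinv i j).mul (hcf.clm_apply continuous_const)).mul (hcf.clm_apply continuous_const)

lemma in_cont {F : ℝ → ℝ → ℝ → ℝ} (hF : Continuous (fun q : ℝ × ℝ × ℝ => F q.1 q.2.1 q.2.2)) :
    Continuous (fun q : ℝ × ℝ => ∫ θ in (-Real.pi)..Real.pi, F q.1 q.2 θ * Real.sin q.2) := by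
  apply intervalIntegral.continuous_parametric_intervalIntegral_of_continuous'
  have h1 : Continuous (fun x : (ℝ × ℝ) × ℝ => ((x.1.1, x.1.2, x.2) : ℝ × ℝ × ℝ)) := by fun_prop
  have h2 := hF.comp h1
  have h3 : Continuous (fun x : (ℝ × ℝ) × ℝ => Real.sin x.1.2) := by fun_prop
  exact h2.mul h3

lemma II_cont {F : ℝ → ℝ → ℝ → ℝ} (hF : Continuous (fun q : ℝ × ℝ × ℝ => F q.1 q.2.1 q.2.2)) :
    Continuous (fun r => II (F r)) := by
  unfold II
  apply intervalIntegral.continuous_parametric_intervalIntegral_of_continuous'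
  exact in_cont hF

lemma slice {F : ℝ → ℝ → ℝ → ℝ} (hF : Continuous (fun q : ℝ × ℝ × ℝ => F q.1 q.2.1 q.2.2))
    (r : ℝ) : Continuous (fun φ => ∫ θ in (-Real.pi)..Real.pi, F r φ θ * Real.sin φ) := by
  have := (in_cont hF).comp (by fun_prop : Continuous (fun φ : ℝ => ((r, φ) : ℝ × ℝ)))
  exact this

lemma II_mono {F G : ℝ → ℝ → ℝ → ℝ} (hF : Continuous (fun q : ℝ × ℝ × ℝ => F q.1 q.2.1 q.2.2))
    (hG : Continuous (fun q : ℝ × ℝ × ℝ => G q.1 q.2.1 q.2.2)) (r : ℝ)
    (h : ∀ φ ∈ Icc (0 : ℝ) Real.pi, ∀ θ, F r φ θ ≤ G r φ θ) : II (F r) ≤ II (G r) := by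
  unfold II
  refine intervalIntegral.integral_mono_on Real.pi_pos.le
    ((slice hF r).intervalIntegrable _ _) ((slice hG r).intervalIntegrable _ _) ?_
  intro φ hφ
  have c1 : Continuous (fun θ => F r φ θ * Real.sin φ) := by
    have := hF.comp (by fun_prop : Continuous (fun θ : ℝ => ((r, φ, θ) : ℝ × ℝ × ℝ)))
    exact this.mul continuous_const
  have c2 : Continuous (fun θ => G r φ θ * Real.sin φ) := by
    have := hG.comp (by fun_prop : Continuous (fun θ : ℝ => ((r, φ, θ) : ℝ × ℝ × ℝ)))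
    exact this.mul continuous_const
  refine intervalIntegral.integral_mono_on (by linarith [Real.pi_pos])
    (c1.intervalIntegrable _ _) (c2.intervalIntegrable _ _) ?_
  intro θ _
  exact mul_le_mul_of_nonneg_right (h φ hφ θ) (Real.sin_nonneg_of_mem_Icc hφ)

lemma II_const_mul (c : ℝ) (f : ℝ → ℝ → ℝ) : II (fun φ θ => c * f φ θ) = c * II f := by
  unfold II
  rw [← intervalIntegral.integral_const_mul]
  refine intervalIntegral.integral_congr fun φ _ => ?_
  simp only
  rw [← intervalIntegral.integral_const_mul]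
  refine intervalIntegral.integral_congr fun θ _ => ?_
  ring

/-- The general comparison. -/
lemma compare (hPOL : SpecPOL) {E : Pt → ℝ} (hE : Continuous E) (hE0 : ∀ p, 0 ≤ E p)
    {F : ℝ → ℝ → ℝ → ℝ} (hF : Continuous (fun q : ℝ × ℝ × ℝ => F q.1 q.2.1 q.2.2))
    {c δ a b : ℝ} (hδ : 0 < δ) (ha : 0 ≤ a) (hab : a ≤ b) (hb : b ≤ 1)
    (h : ∀ r ∈ Icc a b, ∀ φ ∈ Icc (0 : ℝ) Real.pi, ∀ θ,
      c * F r φ θ ≤ δ * (E (r • sph φ θ) * r ^ 2)) :
    (c * ∫ r in a..b, II (F r)) ≤ δ * ∫ p in ball3, E p := by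
  have hG : Continuous (fun q : ℝ × ℝ × ℝ => E (q.1 • sph q.2.1 q.2.2) * q.1 ^ 2) :=
    (hE.comp contP).mul (continuous_fst.pow 2)
  have hJ : Continuous (fun r => II (fun φ θ => E (r • sph φ θ) * r ^ 2)) :=
    II_cont (F := fun r φ θ => E (r • sph φ θ) * r ^ 2) hG
  have hball : ∫ p in ball3, E p = ∫ r in (0 : ℝ)..1, II (fun φ θ => E (r • sph φ θ) * r ^ 2) := by
    rw [hPOL E hE]
    refine intervalIntegral.integral_congr fun r _ => ?_
    simp only [II]
    refine intervalIntegral.integral_congr fun φ _ => ?_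
    refine intervalIntegral.integral_congr fun θ _ => ?_
    ring
  have hJ0 : ∀ r, 0 ≤ II (fun φ θ => E (r • sph φ θ) * r ^ 2) := by
    intro r
    unfold II
    refine intervalIntegral.integral_nonneg Real.pi_pos.le fun φ hφ => ?_
    refine intervalIntegral.integral_nonneg (by linarith [Real.pi_pos]) fun θ _ => ?_
    exact mul_nonneg (mul_nonneg (hE0 _) (sq_nonneg r)) (Real.sin_nonneg_of_mem_Icc hφ)
  rw [hball, ← intervalIntegral.integral_const_mul, ← intervalIntegral.integral_const_mul]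
  calc (∫ r in a..b, c * II (F r))
      ≤ ∫ r in a..b, δ * II (fun φ θ => E (r • sph φ θ) * r ^ 2) := by
        refine intervalIntegral.integral_mono_on hab
          ((continuous_const.mul (II_cont hF)).intervalIntegrable _ _)
          ((continuous_const.mul hJ).intervalIntegrable _ _) ?_
        intro r hr
        rw [← II_const_mul, ← II_const_mul]
        exact II_mono (F := fun r φ θ => c * F r φ θ)
          (G := fun r φ θ => δ * (E (r • sph φ θ) * r ^ 2)) (continuous_const.mul hF)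
          (continuous_const.mul hG) r (h r hr)
    _ ≤ ∫ r in (0 : ℝ)..1, δ * II (fun φ θ => E (r • sph φ θ) * r ^ 2) := by
        refine intervalIntegral.integral_mono_interval ha hab hb ?_
          ((continuous_const.mul hJ).intervalIntegrable _ _)
        exact Eventually.of_forall fun r => mul_nonneg hδ.le (hJ0 r)

end ENGM

open ENGM

theorem specENG (hSMO : SpecSMO) (hPDM : SpecPDM) (hEDN : SpecEDN) (hPOL : SpecPOL) :
    SpecENG := by
  intro G₀
  obtain ⟨c, hc, H⟩ := hEDN G₀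
  refine ⟨c / 16, by positivity, ?_⟩
  intro δ τ hδ hτ u hu
  have hcf : Continuous (fderiv ℝ u) := hu.continuous_fderiv (by norm_num)
  have hE : Continuous (fun p => eden (gm G₀ δ τ p) u p) :=
    eden_cont (fun i j => (hSMO G₀ δ τ hδ i j).continuous) (fun p => hPDM G₀ δ τ p hδ hτ) hu
  have hE0 : ∀ p, 0 ≤ eden (gm G₀ δ τ p) u p := fun p => (H δ τ hδ hτ u p).1
  refine ⟨?_, ?_, ?_⟩
  · refine compare hPOL hE hE0 (F := fun r φ θ => fderiv ℝ u (r • sph φ θ) (sph φ θ) ^ 2)
      (((hcf.comp contP).clm_apply cont_sph).pow 2) hδ (by norm_num) (by norm_num) le_rfl ?_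
    intro r hr φ _ θ
    have hs := sq_smul_sph r φ θ
    have hr1 := hr.1
    have hr2 := hr.2
    have key := (H δ τ hδ hτ u (r • sph φ θ)).2.1 (by rw [hs]; nlinarith) (by rw [hs]; nlinarith)
    rw [map_smul, smul_eq_mul] at key
    set X := fderiv ℝ u (r • sph φ θ) (sph φ θ)
    set e0 := eden (gm G₀ δ τ (r • sph φ θ)) u (r • sph φ θ)
    have hr4 : (1 : ℝ) / 16 ≤ r ^ 4 := by
      have : (1 / 2 : ℝ) ^ 4 ≤ r ^ 4 := pow_le_pow_left₀ (by norm_num) hr1 4
      norm_num at this ⊢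
      linarith
    have h1 : c * (r * X) ^ 2 * r ^ 2 ≤ δ * e0 * r ^ 2 :=
      mul_le_mul_of_nonneg_right key (sq_nonneg r)
    have h2 : c * X ^ 2 * (1 / 16) ≤ c * X ^ 2 * r ^ 4 :=
      mul_le_mul_of_nonneg_left hr4 (by positivity)
    nlinarith
  · refine compare hPOL hE hE0
      (F := fun r φ θ => fderiv ℝ u (r • sph φ θ) (r • sphθ φ θ) ^ 2)
      (((hcf.comp contP).clm_apply (continuous_fst.smul cont_sphθ)).pow 2) hδ
      (by norm_num) (by norm_num) (by norm_num) ?_
    intro r hr φ _ θ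
    have hs := sq_smul_sph r φ θ
    have hr1 := hr.1
    have hr2 := hr.2
    have key := (H δ τ hδ hτ u (r • sph φ θ)).2.2.1 (by rw [hs]; nlinarith) (by rw [hs]; nlinarith)
    rw [X1_eq] at key
    set X := fderiv ℝ u (r • sph φ θ) (r • sphθ φ θ)
    set e0 := eden (gm G₀ δ τ (r • sph φ θ)) u (r • sph φ θ)
    have h1 : c * X ^ 2 * r ^ 2 ≤ δ * e0 * r ^ 2 :=
      mul_le_mul_of_nonneg_right key (sq_nonneg r)
    have h2 : c * X ^ 2 * (1 / 16) ≤ c * X ^ 2 * r ^ 2 :=
      mul_le_mul_of_nonneg_left (by nlinarith) (by positivity)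
    nlinarith
  · refine compare hPOL hE hE0
      (F := fun r φ θ => Real.sin φ ^ 2 * fderiv ℝ u (r • sph φ θ) (r • sphφ φ θ) ^ 2)
      (((Real.continuous_sin.comp (continuous_fst.comp continuous_snd)).pow 2).mul
        (((hcf.comp contP).clm_apply (continuous_fst.smul cont_sphφ)).pow 2)) hδ
      (by norm_num) (by norm_num) (by norm_num) ?_
    intro r hr φ _ θ
    have hs := sq_smul_sph r φ θ
    have hr1 := hr.1
    have hr2 := hr.2
    have key := (H δ τ hδ hτ u (r • sph φ θ)).2.2.2 (by rw [hs]; nlinarith) (by rw [hs]; nlinarith)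
    rw [X2_eq, map_smul, smul_eq_mul] at key
    set X := fderiv ℝ u (r • sph φ θ) (r • sphφ φ θ)
    set e0 := eden (gm G₀ δ τ (r • sph φ θ)) u (r • sph φ θ)
    have hr4 : (1 : ℝ) / 16 ≤ r ^ 4 := by
      have : (5 / 8 : ℝ) ^ 4 ≤ r ^ 4 := pow_le_pow_left₀ (by norm_num) hr1 4
      norm_num at this ⊢
      linarith
    have h1 : c * (-(r * Real.sin φ) * X) ^ 2 * r ^ 2 ≤ δ * e0 * r ^ 2 :=
      mul_le_mul_of_nonneg_right key (sq_nonneg r)
    have h2 : c * (Real.sin φ ^ 2 * X ^ 2) * (1 / 16) ≤ c * (Real.sin φ ^ 2 * X ^ 2) * r ^ 4 :=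
      mul_le_mul_of_nonneg_left hr4 (by positivity)
    nlinarith

end Pool.Agent.Lib.MP441052
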