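import Pool.Agent.Lib.MP_441052_gt.Spec

set_option autoImplicit false

/-!
# Module FIN: the main theorem
-/

namespace Pool.Agent.Lib.MP441052

open MeasureTheory Set Filter
open scoped ContDiff Topology

namespace FINM

/-- The Euclidean metric. -/
noncomputable def eucl : RiemMetric where
  g := fun _ => 1
  smooth := fun _ _ => contDiff_const
  posDef := fun _ => Matrix.PosDef.one

lemma ip_sph_sph (φ θ : ℝ) : ip (sph φ θ) (sph φ θ) = 1 := by
  simp only [ip, sph]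
  nlinarith [Real.sin_sq_add_cos_sq φ, Real.sin_sq_add_cos_sq θ]

lemma ip_sph_sphφ (φ θ : ℝ) : ip (sph φ θ) (sphφ φ θ) = 0 := by
  simp only [ip, sph, sphφ]
  have h : Real.cos θ ^ 2 = 1 - Real.sin θ ^ 2 := by
    linarith [Real.sin_sq_add_cos_sq θ]
  ring_nf
  rw [h]
  ring

lemma ip_sph_sphθ (φ θ : ℝ) : ip (sph φ θ) (sphθ φ θ) = 0 := by
  simp only [ip, sph, sphθ]
  ring

lemma bdens_eq {G G' : RiemMetric} (h : G.SameBoundary G') (φ θ : ℝ) :
    G.bdens φ θ = G'.bdens φ θ := by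
  have hp : sph φ θ ∈ sphere2 := ip_sph_sph φ θ
  unfold RiemMetric.bdens
  rw [h _ hp _ _ (ip_sph_sphφ φ θ) (ip_sph_sphφ φ θ), h _ hp _ _ (ip_sph_sphθ φ θ) (ip_sph_sphθ φ θ),
    h _ hp _ _ (ip_sph_sphφ φ θ) (ip_sph_sphθ φ θ)]

lemma area_eq {G G' : RiemMetric} (h : G.SameBoundary G') : G.area = G'.area := by
  unfold RiemMetric.area RiemMetric.intB
  simp only [bdens_eq h]

/-- The metric of the theorem. -/
noncomputable def mk (hSMO : SpecSMO) (hPDM : SpecPDM) (G₀ : RiemMetric) {δ τ : ℝ} (hδ : 0 < δ)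
    (hτ : 0 < τ) : RiemMetric where
  g := gm G₀ δ τ
  smooth := hSMO G₀ δ τ hδ
  posDef := fun p => hPDM G₀ δ τ p hδ hτ

end FINM

open FINM in
theorem specFIN (hSMO : SpecSMO) (hPDM : SpecPDM) (hVAL : SpecVAL) (hVOL : SpecVOL)
    (hENG : SpecENG) (hDER : SpecDER) (hANA : SpecANA) (hSIG : SpecSIG) : SpecFIN := by
  have main : ∀ (G₀ : RiemMetric) (V K : ℝ), 0 < V →
      ∃ G : RiemMetric, G.SameBoundary G₀ ∧ G.vol = V ∧ K ≤ G.sigma1 := by
    intro G₀ V K hV
    obtain ⟨δ₀, hδ₀, h₀⟩ := hVOL G₀ V hV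
    obtain ⟨c, hc, hE⟩ := hENG G₀
    obtain ⟨C, hC, hS⟩ := hSIG G₀
    have hK1 : (0 : ℝ) < |K| + 1 := by positivity
    set δ : ℝ := min δ₀ (c / (20000 * C * (|K| + 1))) with hδdef
    have hδ : 0 < δ := lt_min hδ₀ (by positivity)
    obtain ⟨τ, hτ, hvol⟩ := h₀ δ hδ (min_le_left _ _)
    have hbd : (mk hSMO hPDM G₀ hδ hτ).SameBoundary G₀ := by
      intro p hp v w hv hw
      exact (hVAL G₀ δ τ p hδ).2.2.2 hp v w hv hw
    refine ⟨mk hSMO hPDM G₀ hδ hτ, hbd, hvol, ?_⟩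
    have hA : 0 < c / (20000 * δ) := by positivity
    have key := hS (mk hSMO hPDM G₀ hδ hτ) hbd (c / (20000 * δ)) hA ?_
    · refine le_trans ?_ key
      have h1 : δ ≤ c / (20000 * C * (|K| + 1)) := min_le_right _ _
      have h2 : |K| + 1 ≤ c / (20000 * δ) / C := by
        rw [div_div, le_div_iff₀ (by positivity)]
        rw [le_div_iff₀ (by positivity)] at h1
        linarith
      linarith [le_abs_self K]
    · intro u hu
      obtain ⟨e1, e2, e3⟩ := hE δ τ hδ hτ u hu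
      have hen : (mk hSMO hPDM G₀ hδ hτ).energy u = ∫ p in ball3, eden (gm G₀ δ τ p) u p := rfl
      set E : ℝ := ∫ p in ball3, eden (gm G₀ δ τ p) u p with hEdef
      obtain ⟨m, hm⟩ := hANA _ _ _ _ (δ * E / c) (hDER u hu)
        (by rw [le_div_iff₀ hc]; linarith) (by rw [le_div_iff₀ hc]; linarith)
        (by rw [le_div_iff₀ hc]; linarith)
      refine ⟨m, ?_⟩
      simp only [one_smul] at hm
      rw [hen]
      calc c / (20000 * δ) * II (fun φ θ => (u (sph φ θ) - m) ^ 2)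
          ≤ c / (20000 * δ) * (20000 * (δ * E / c)) := by
            apply mul_le_mul_of_nonneg_left hm hA.le
        _ = E := by
            field_simp
  refine ⟨?_, main⟩
  choose g h1 h2 h3 using fun n : ℕ => main eucl 1 n one_pos
  refine ⟨g, ⟨max 1 eucl.area, fun n => ⟨?_, ?_⟩⟩, ?_⟩
  · rw [h2 n]; exact le_max_left _ _
  · rw [area_eq (h1 n)]; exact le_max_right _ _
  · exact tendsto_atTop_mono h3 tendsto_natCast_atTop_atTop

end Pool.Agent.Lib.MP441052
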