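import Pool.Agent.Lib.MP_441052_gt.Spec

set_option autoImplicit false

/-!
# Module FRM: the quadratic form of the metric
-/

namespace Pool.Agent.Lib.MP441052

namespace FRMM

lemma bil_eq (A : Matrix (Fin 3) (Fin 3) ℝ) (v w : Pt) :
    bil A v w = (A 0 0 * v.1 * w.1 + A 0 1 * v.1 * w.2.1 + A 0 2 * v.1 * w.2.2) +
      (A 1 0 * v.2.1 * w.1 + A 1 1 * v.2.1 * w.2.1 + A 1 2 * v.2.1 * w.2.2) +
      (A 2 0 * v.2.2 * w.1 + A 2 1 * v.2.2 * w.2.1 + A 2 2 * v.2.2 * w.2.2) := by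
  simp [bil, co, Fin.sum_univ_three]

lemma bil_add (A B : Matrix (Fin 3) (Fin 3) ℝ) (v w : Pt) :
    bil (A + B) v w = bil A v w + bil B v w := by
  simp only [bil_eq, Matrix.add_apply]; ring

lemma bil_sub (A B : Matrix (Fin 3) (Fin 3) ℝ) (v w : Pt) :
    bil (A - B) v w = bil A v w - bil B v w := by
  simp only [bil_eq, Matrix.sub_apply]; ring

lemma bil_smul (c : ℝ) (A : Matrix (Fin 3) (Fin 3) ℝ) (v w : Pt) :
    bil (c • A) v w = c * bil A v w := by
  simp only [bil_eq, Matrix.smul_apply, smul_eq_mul]; ring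

lemma bil_one (v w : Pt) : bil 1 v w = ip v w := by
  simp [bil_eq, ip]

lemma bil_outer (x v w : Pt) : bil (outer x) v w = ip x v * ip x w := by
  simp [bil_eq, ip, outer, co]; ring

lemma bil_Pm (p v w : Pt) : bil (Pm p) v w = sq p * ip v w - ip p v * ip p w := by
  rw [Pm, bil_sub, bil_smul, bil_one, bil_outer]

lemma bil_conj (A : Matrix (Fin 3) (Fin 3) ℝ) (p v w : Pt) :
    bil (Pm p * A * Pm p) v w = bil A (pr p v) (pr p w) := by
  simp only [bil_eq, Matrix.mul_apply, Fin.sum_univ_three, Pm, outer, co, pr, Matrix.sub_apply,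
    Matrix.smul_apply, Matrix.one_apply, Matrix.of_apply, smul_eq_mul, ip, Prod.fst_sub,
    Prod.snd_sub, Prod.smul_fst, Prod.smul_snd]
  simp
  ring

end FRMM

open FRMM in
theorem specFRM : SpecFRM := by
  intro G₀ δ τ p v w
  rw [gm, bil_add, bil_add, bil_add, bil_smul, bil_one, bil_smul, bil_outer, bil_smul, bil_smul,
    bil_conj, MM, bil_sub, bil_smul, bil_Pm, bil_smul, bil_outer]

end Pool.Agent.Lib.MP441052
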