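import Pool.Agent.Lib.MP_441052_gt.Spec

/-! Module HAR: a Hardy inequality. -/

set_option autoImplicit false

namespace Pool.Agent.Lib.MP441052

open MeasureTheory Set Filter

namespace HARM

theorem ptw (S C a b : ℝ) (hS : 0 ≤ S) (hC : 0 ≤ C) (hCS : C ≤ S ^ 2) :
    1 / 2 * (a ^ 2 * S) - 2 * (S ^ 2 * b ^ 2 * S) ≤ S * a ^ 2 + C * (2 * a * b) := by
  rcases le_total 0 (a * b) with h | h
  · have h1 : 0 ≤ C * (2 * a * b) := by
      have : C * (2 * a * b) = 2 * (C * (a * b)) := by ring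
      rw [this]
      positivity
    have h2 : 0 ≤ a ^ 2 * S := by positivity
    have h3 : 0 ≤ S ^ 2 * b ^ 2 * S := by positivity
    nlinarith
  · have h1 : S ^ 2 * (a * b) ≤ C * (a * b) := by
      have := mul_le_mul_of_nonpos_right hCS h
      linarith
    have h2 : 0 ≤ 1 / 2 * S * (a + 2 * S * b) ^ 2 := by positivity
    have h3 : 1 / 2 * S * (a + 2 * S * b) ^ 2 =
      1 / 2 * (a ^ 2 * S) + 2 * (S ^ 2 * (a * b)) + 2 * (S ^ 2 * b ^ 2 * S) := by ring
    have h4 : C * (2 * a * b) = 2 * (C * (a * b)) := by ring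
    rw [h4]
    rw [h3] at h2
    linarith

theorem half (v v' : ℝ → ℝ) (hc : Continuous v') (hd : ∀ φ, HasDerivAt v (v' φ) φ)
    (h0 : v (Real.pi / 2) = 0) :
    ∫ φ in (0 : ℝ)..(Real.pi / 2), v φ ^ 2 * Real.sin φ ≤
      4 * ∫ φ in (0 : ℝ)..(Real.pi / 2), Real.sin φ ^ 2 * v' φ ^ 2 * Real.sin φ := by
  have hv : Continuous v := continuous_iff_continuousAt.2 fun x => (hd x).continuousAt
  have hpi : (0 : ℝ) ≤ Real.pi / 2 := by positivity
  have hF : ∀ φ, HasDerivAt (fun t => (1 - Real.cos t) * v t ^ 2)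
      (Real.sin φ * v φ ^ 2 + (1 - Real.cos φ) * (2 * v φ * v' φ)) φ := by
    intro φ
    have h1 := ((hasDerivAt_const φ (1 : ℝ)).sub (Real.hasDerivAt_cos φ)).mul ((hd φ).pow 2)
    refine h1.congr_deriv ?_
    simp
  have hI := intervalIntegral.integral_eq_sub_of_hasDerivAt (a := 0) (b := Real.pi / 2)
    (fun x _ => hF x) (Continuous.intervalIntegrable (by fun_prop) _ _)
  rw [h0] at hI
  have hI' : ∫ φ in (0 : ℝ)..(Real.pi / 2),
      (Real.sin φ * v φ ^ 2 + (1 - Real.cos φ) * (2 * v φ * v' φ)) = 0 := by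
    rw [hI]
    simp
  have i1 : IntervalIntegrable (fun φ => v φ ^ 2 * Real.sin φ) volume 0 (Real.pi / 2) :=
    Continuous.intervalIntegrable (by fun_prop) _ _
  have i2 : IntervalIntegrable (fun φ => Real.sin φ ^ 2 * v' φ ^ 2 * Real.sin φ) volume 0
      (Real.pi / 2) := Continuous.intervalIntegrable (by fun_prop) _ _
  have hmono : ∫ φ in (0 : ℝ)..(Real.pi / 2),
      (1 / 2 * (v φ ^ 2 * Real.sin φ) - 2 * (Real.sin φ ^ 2 * v' φ ^ 2 * Real.sin φ)) ≤
      ∫ φ in (0 : ℝ)..(Real.pi / 2),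
        (Real.sin φ * v φ ^ 2 + (1 - Real.cos φ) * (2 * v φ * v' φ)) := by
    refine intervalIntegral.integral_mono_on hpi ((i1.const_mul _).sub (i2.const_mul _))
      (Continuous.intervalIntegrable (by fun_prop) _ _) ?_
    intro φ hφ
    have hcos : 0 ≤ Real.cos φ := Real.cos_nonneg_of_neg_pi_div_two_le_of_le (by linarith [hφ.1])
      hφ.2
    have hsin : 0 ≤ Real.sin φ := Real.sin_nonneg_of_nonneg_of_le_pi hφ.1
      (by linarith [hφ.2, Real.pi_pos])
    have hcos1 : Real.cos φ ≤ 1 := Real.cos_le_one φ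
    refine ptw _ _ _ _ hsin (by linarith) ?_
    have := Real.sin_sq_add_cos_sq φ
    nlinarith
  rw [hI', intervalIntegral.integral_sub (i1.const_mul _) (i2.const_mul _),
    intervalIntegral.integral_const_mul, intervalIntegral.integral_const_mul] at hmono
  linarith

end HARM

theorem specHAR : SpecHAR := by
  intro w w' hc hd
  obtain ⟨v, hv⟩ : ∃ v : ℝ → ℝ, v = fun φ => w φ - w (Real.pi / 2) := ⟨_, rfl⟩
  have hvd : ∀ φ, HasDerivAt v (w' φ) φ := by
    intro φ
    rw [hv]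
    exact (hd φ).sub_const _
  have hvc : Continuous v := continuous_iff_continuousAt.2 fun x => (hvd x).continuousAt
  have h0 : v (Real.pi / 2) = 0 := by rw [hv]; simp
  have h1 := HARM.half v w' hc hvd h0
  obtain ⟨u, hu⟩ : ∃ u : ℝ → ℝ, u = fun φ => v (Real.pi - φ) := ⟨_, rfl⟩
  have hud : ∀ φ, HasDerivAt u (-(w' (Real.pi - φ))) φ := by
    intro φ
    rw [hu]
    have := (hvd (Real.pi - φ)).comp φ ((hasDerivAt_id φ).const_sub Real.pi)
    refine this.congr_deriv ?_
    ring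
  have hu0 : u (Real.pi / 2) = 0 := by
    rw [hu]
    have : Real.pi - Real.pi / 2 = Real.pi / 2 := by ring
    simp only [this, h0]
  have h2 := HARM.half u (fun φ => -(w' (Real.pi - φ))) (by fun_prop) hud hu0
  have e1 : ∫ φ in (0 : ℝ)..(Real.pi / 2), u φ ^ 2 * Real.sin φ =
      ∫ φ in (Real.pi / 2)..Real.pi, v φ ^ 2 * Real.sin φ := by
    have h3 := intervalIntegral.integral_comp_sub_left (a := 0) (b := Real.pi / 2)
      (fun φ => v φ ^ 2 * Real.sin φ) Real.pi
    have h4 : Real.pi - Real.pi / 2 = Real.pi / 2 := by ring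
    rw [h4, sub_zero] at h3
    rw [← h3, hu]
    simp only [Real.sin_pi_sub]
  have e2 : ∫ φ in (0 : ℝ)..(Real.pi / 2),
      Real.sin φ ^ 2 * (-(w' (Real.pi - φ))) ^ 2 * Real.sin φ =
      ∫ φ in (Real.pi / 2)..Real.pi, Real.sin φ ^ 2 * w' φ ^ 2 * Real.sin φ := by
    have h3 := intervalIntegral.integral_comp_sub_left (a := 0) (b := Real.pi / 2)
      (fun φ => Real.sin φ ^ 2 * w' φ ^ 2 * Real.sin φ) Real.pi
    have h4 : Real.pi - Real.pi / 2 = Real.pi / 2 := by ring
    rw [h4, sub_zero] at h3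
    rw [← h3]
    simp only [Real.sin_pi_sub, neg_sq]
  rw [e1, e2] at h2
  have s1 := intervalIntegral.integral_add_adjacent_intervals (μ := volume) (a := 0)
    (b := Real.pi / 2) (c := Real.pi) (f := fun φ => v φ ^ 2 * Real.sin φ)
    (Continuous.intervalIntegrable (by fun_prop) _ _)
    (Continuous.intervalIntegrable (by fun_prop) _ _)
  have s2 := intervalIntegral.integral_add_adjacent_intervals (μ := volume) (a := 0)
    (b := Real.pi / 2) (c := Real.pi) (f := fun φ => Real.sin φ ^ 2 * w' φ ^ 2 * Real.sin φ)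
    (Continuous.intervalIntegrable (by fun_prop) _ _)
    (Continuous.intervalIntegrable (by fun_prop) _ _)
  have e3 : ∫ φ in (0 : ℝ)..Real.pi, (w φ - w (Real.pi / 2)) ^ 2 * Real.sin φ =
      ∫ φ in (0 : ℝ)..Real.pi, v φ ^ 2 * Real.sin φ := by rw [hv]
  rw [e3, ← s1, ← s2]
  linarith

end Pool.Agent.Lib.MP441052
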