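import Pool.Agent.Lib.MP_441052_gt.Spec

set_option autoImplicit false

/-!
# Module PDM: the metric is positive definite
-/

namespace Pool.Agent.Lib.MP441052

open MeasureTheory Set Filter
open scoped ContDiff Topology

namespace PDMM

theorem Pm_transpose (p : Pt) : (Pm p).transpose = Pm p := by
  ext i j
  fin_cases i <;> fin_cases j <;> simp [Pm, outer, co, mul_comm]

theorem outer_transpose (p : Pt) : (outer p).transpose = outer p := by
  ext i j
  simp [outer, mul_comm]

/-- The vector of `Pt` with the coordinates `x`. -/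
def vec (x : Fin 3 → ℝ) : Pt := (x 0, x 1, x 2)

theorem co_vec (x : Fin 3 → ℝ) : co (vec x) = x := by
  funext i
  fin_cases i <;> rfl

theorem dot_eq (A : Matrix (Fin 3) (Fin 3) ℝ) (x : Fin 3 → ℝ) :
    dotProduct (star x) (Matrix.mulVec A x) = bil A (vec x) (vec x) := by
  have h6 : star x = x := by
    funext i
    simp
  rw [h6, bil, co_vec]
  simp only [dotProduct, Matrix.mulVec, Fin.sum_univ_three]
  ring

theorem gm_transpose (G₀ : RiemMetric) (δ τ : ℝ) (p : Pt) :
    (gm G₀ δ τ p).transpose = gm G₀ δ τ p := by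
  have hG := Matrix.posDef_iff_dotProduct_mulVec.1 (G₀.posDef p)
  have hGt : (G₀.g p).transpose = G₀.g p := by
    have h := hG.1
    rw [Matrix.IsHermitian, Matrix.conjTranspose_eq_transpose_of_trivial] at h
    exact h
  unfold gm MM
  rw [Matrix.transpose_add, Matrix.transpose_add, Matrix.transpose_add, Matrix.transpose_smul,
    Matrix.transpose_smul, Matrix.transpose_smul, Matrix.transpose_smul, Matrix.transpose_one,
    Matrix.transpose_sub, Matrix.transpose_smul, Matrix.transpose_smul, outer_transpose,
    outer_transpose, Pm_transpose, Matrix.transpose_mul, Matrix.transpose_mul, Pm_transpose, hGt,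
    Matrix.mul_assoc]

end PDMM

open PDMM in
/-- **PDM**: the metric is positive definite. -/
theorem specPDM (hCUT : SpecCUT) (hFRM : SpecFRM) : SpecPDM := by
  intro G₀ δ τ p hδ hτ
  have hG := Matrix.posDef_iff_dotProduct_mulVec.1 (G₀.posDef p)
  obtain ⟨hβ0, -, hχ0, hχ1⟩ := hCUT.1 (sq p)
  have hpX : ip p (XX p) = 0 := hCUT.2.2.2.2.2.1 p
  rw [Matrix.posDef_iff_dotProduct_mulVec]
  refine ⟨?_, ?_⟩
  · rw [Matrix.IsHermitian, Matrix.conjTranspose_eq_transpose_of_trivial]
    exact gm_transpose G₀ δ τ p
  · intro x hx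
    rw [dot_eq, hFRM]
    set v : Pt := vec x with hv
    set X : Pt := XX p with hX
    set χ := chb (sq p) with hχ
    set β := be (sq p) with hβ
    set s := sq p with hs
    have hs' : s = p.1 * p.1 + p.2.1 * p.2.1 + p.2.2 * p.2.2 := rfl
    set a := aa δ p with ha
    set κ := ka δ p with hκ
    set n : ℝ := ip v v with hn
    set t : ℝ := ip p v with ht
    set q : ℝ := s * n - t * t with hq
    have hq0 : 0 ≤ q := by
      have h1 : q = (p.2.1 * v.2.2 - p.2.2 * v.2.1) ^ 2 + (p.1 * v.2.2 - p.2.2 * v.1) ^ 2 +
          (p.1 * v.2.1 - p.2.1 * v.1) ^ 2 := by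
        rw [hq, hn, ht, hs']
        unfold ip
        ring
      rw [h1]
      positivity
    have hn0 : 0 < n := by
      by_contra hcon
      have hnn : n = x 0 * x 0 + x 1 * x 1 + x 2 * x 2 := rfl
      have a0 := mul_self_nonneg (x 0)
      have a1 := mul_self_nonneg (x 1)
      have a2 := mul_self_nonneg (x 2)
      have h0 : x 0 * x 0 = 0 := by linarith
      have h1 : x 1 * x 1 = 0 := by linarith
      have h2 : x 2 * x 2 = 0 := by linarith
      apply hx
      funext i
      fin_cases i
      · exact mul_self_eq_zero.1 h0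
      · exact mul_self_eq_zero.1 h1
      · exact mul_self_eq_zero.1 h2
    have hs0 : 0 ≤ s := by
      rw [hs']
      nlinarith [mul_self_nonneg p.1, mul_self_nonneg p.2.1, mul_self_nonneg p.2.2]
    -- the squeezed part
    set N : ℝ := ip X X with hN
    have hN0 : 0 ≤ N := by
      rw [hN]
      unfold ip
      nlinarith [mul_self_nonneg X.1, mul_self_nonneg X.2.1, mul_self_nonneg X.2.2]
    have hδ2 : 0 < δ ^ 2 := by positivity
    have ha1 : 1 ≤ a := by
      rw [ha, aa]
      have : 0 ≤ ip (XX p) (XX p) / δ ^ 2 := div_nonneg hN0 hδ2.le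
      linarith
    have ha0 : 0 < a := by linarith
    have hN' : N = (a - 1) * δ ^ 2 := by
      rw [ha, aa]
      have : ip (XX p) (XX p) = N := rfl
      rw [this]
      field_simp
      ring
    have hκN : κ * N = a - 1 / a := by
      have h1 : κ = (1 + a) / (δ ^ 2 * a) := rfl
      rw [h1, hN']
      field_simp
      ring
    have hκ0 : 0 ≤ κ := by
      have h1 : κ = (1 + a) / (δ ^ 2 * a) := rfl
      rw [h1]
      positivity
    have hLag : s * (ip X v * ip X v) ≤ N * q := by
      have h1 : N * q - s * (ip X v * ip X v) =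
          (p.1 * (X.2.1 * v.2.2 - X.2.2 * v.2.1) - p.2.1 * (X.1 * v.2.2 - X.2.2 * v.1) +
            p.2.2 * (X.1 * v.2.1 - X.2.1 * v.1)) ^ 2 -
          2 * ip p X * ip X v * t + n * ip p X ^ 2 := by
        rw [hN, hq, hn, ht, hs']
        unfold ip
        ring
      rw [hpX] at h1
      nlinarith [sq_nonneg (p.1 * (X.2.1 * v.2.2 - X.2.2 * v.2.1) -
        p.2.1 * (X.1 * v.2.2 - X.2.2 * v.1) + p.2.2 * (X.1 * v.2.1 - X.2.1 * v.1))]
    have hS : q / a ≤ a * (s * n - t * t) - s * κ * (ip X v * ip X v) := by
      have h1 : s * κ * (ip X v * ip X v) ≤ κ * (N * q) := by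
        calc s * κ * (ip X v * ip X v) = κ * (s * (ip X v * ip X v)) := by ring
          _ ≤ κ * (N * q) := mul_le_mul_of_nonneg_left hLag hκ0
      have h2 : κ * (N * q) = a * q - q / a := by
        rw [← mul_assoc, hκN]
        ring
      rw [h2] at h1
      have h3 : a * (s * n - t * t) = a * q := rfl
      rw [h3]
      linarith
    have hqa : 0 ≤ q / a := div_nonneg hq0 ha0.le
    -- the last term
    have hF : ∀ w : Pt, w ≠ 0 → 0 < bil (G₀.g p) w w := by
      intro w hw
      have h1 : co w ≠ 0 := by
        intro h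
        apply hw
        have e0 := congrFun h 0
        have e1 := congrFun h 1
        have e2 := congrFun h 2
        exact Prod.ext e0 (Prod.ext e1 e2)
      have h2 := hG.2 h1
      rw [dot_eq] at h2
      exact h2
    have hF0 : 0 ≤ bil (G₀.g p) (pr p v) (pr p v) := by
      by_cases h : pr p v = 0
      · rw [h]
        simp [bil, co, Fin.sum_univ_three]
      · exact (hF _ h).le
    have t1 : 0 ≤ τ * β * n := mul_nonneg (mul_nonneg hτ.le hβ0) hn0.le
    have t2 : 0 ≤ δ ^ 2 * (t * t) := mul_nonneg hδ2.le (mul_self_nonneg t)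
    have t3 : 0 ≤ (1 - χ) * (a * (s * n - t * t) - s * κ * (ip X v * ip X v)) :=
      mul_nonneg (by linarith) (hqa.trans hS)
    have t4 : 0 ≤ χ * bil (G₀.g p) (pr p v) (pr p v) := mul_nonneg hχ0 hF0
    by_cases hs8 : s ≤ 1 / 8
    · have hβ1 : β = 1 := hCUT.2.1 s hs8
      have : 0 < τ * β * n := by
        rw [hβ1, mul_one]
        exact mul_pos hτ hn0
      linarith
    · have hs1 : 0 < s := by
        push Not at hs8
        linarith
      rcases hq0.eq_or_lt with hq1 | hq1
      · have h1 : t * t = s * n := by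
          have : s * n - t * t = 0 := hq1.symm
          linarith
        have h2 : 0 < δ ^ 2 * (t * t) := by
          rw [h1]
          exact mul_pos hδ2 (mul_pos hs1 hn0)
        linarith
      · rcases hχ0.eq_or_lt with h8 | h8
        · have h9 : 0 < (1 - χ) * (a * (s * n - t * t) - s * κ * (ip X v * ip X v)) := by
            rw [← h8, sub_zero, one_mul]
            exact lt_of_lt_of_le (div_pos hq1 ha0) hS
          linarith
        · have hpr : pr p v ≠ 0 := by
            intro h
            have h1 : ip (pr p v) (pr p v) = s * q := by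
              rw [hq, hn, ht, hs']
              have hs'' : sq p = p.1 * p.1 + p.2.1 * p.2.1 + p.2.2 * p.2.2 := rfl
              unfold pr
              rw [hs'']
              simp only [ip, Prod.fst_sub, Prod.snd_sub, Prod.smul_fst, Prod.smul_snd, smul_eq_mul]
              ring
            rw [h] at h1
            have h2 : 0 < s * q := mul_pos hs1 hq1
            rw [← h1] at h2
            simp [ip] at h2
          have h9 : 0 < χ * bil (G₀.g p) (pr p v) (pr p v) := mul_pos h8 (hF _ hpr)
          linarith

end Pool.Agent.Lib.MP441052
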