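import Pool.Agent.Lib.MP_441052_gt.Spec

/-!
# Module PHI (helper68): the Hardy inequality on the sphere
-/

set_option autoImplicit false

namespace Pool.Agent.Lib.MP441052

open MeasureTheory Set Filter
open scoped ContDiff Topology

namespace PHIM

/-- exchange of the two integrals, continuous integrand -/
theorem swap (F : ℝ → ℝ → ℝ) (hF : Continuous (fun q : ℝ × ℝ => F q.1 q.2)) (a b c d : ℝ) :
    ∫ x in a..b, ∫ y in c..d, F x y = ∫ y in c..d, ∫ x in a..b, F x y := by
  apply intervalIntegral_intervalIntegral_swap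
  have h1 : IntegrableOn F.uncurry (uIcc a b ×ˢ uIcc c d) :=
    ContinuousOn.integrableOn_compact (isCompact_uIcc.prod isCompact_uIcc) hF.continuousOn
  exact h1.mono_set (Set.prod_mono uIoc_subset_uIcc uIoc_subset_uIcc)

theorem cont (F : ℝ → ℝ → ℝ) (hF : Continuous (fun q : ℝ × ℝ => F q.1 q.2)) (a b : ℝ) :
    Continuous fun y => ∫ x in a..b, F x y := by
  apply intervalIntegral.continuous_parametric_intervalIntegral_of_continuous'
  exact hF.comp continuous_swap

end PHIM

theorem specPHI (hHAR : SpecHAR) : SpecPHI := by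
  intro f f' hf hf' hd
  have hsin : Continuous (fun q : ℝ × ℝ => Real.sin q.1) := Real.continuous_sin.comp continuous_fst
  have hπ : Continuous (fun q : ℝ × ℝ => f (Real.pi / 2) q.2) :=
    hf.comp (continuous_const.prodMk continuous_snd)
  have c1 : Continuous (fun q : ℝ × ℝ =>
      (f q.1 q.2 - f (Real.pi / 2) q.2) ^ 2 * Real.sin q.1) :=
    ((hf.sub hπ).pow 2).mul hsin
  have c2 : Continuous (fun q : ℝ × ℝ =>
      Real.sin q.1 ^ 2 * f' q.1 q.2 ^ 2 * Real.sin q.1) :=
    ((hsin.pow 2).mul (hf'.pow 2)).mul hsin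
  unfold II
  rw [PHIM.swap (fun φ θ => (f φ θ - f (Real.pi / 2) θ) ^ 2 * Real.sin φ) c1,
    PHIM.swap (fun φ θ => Real.sin φ ^ 2 * f' φ θ ^ 2 * Real.sin φ) c2,
    ← intervalIntegral.integral_const_mul]
  have hπ2 : -Real.pi ≤ Real.pi := by linarith [Real.pi_pos]
  apply intervalIntegral.integral_mono_on hπ2
  · exact (PHIM.cont (fun φ θ => (f φ θ - f (Real.pi / 2) θ) ^ 2 * Real.sin φ) c1 _ _).intervalIntegrable _ _
  · exact ((PHIM.cont (fun φ θ => Real.sin φ ^ 2 * f' φ θ ^ 2 * Real.sin φ) c2 _ _).const_mul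
      4).intervalIntegrable _ _
  · intro θ _
    exact hHAR (fun φ => f φ θ) (fun φ => f' φ θ)
      (hf'.comp (continuous_id.prodMk continuous_const)) (fun φ => hd φ θ)

end Pool.Agent.Lib.MP441052
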