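import Pool.Agent.Lib.MP_441052_gt.Spec

set_option autoImplicit false

/-!
# Integration over the ball in spherical coordinates (module POL)
-/

namespace Pool.Agent.Lib.MP441052

open MeasureTheory Set Filter
open scoped ContDiff Topology

namespace POLM

/-- the indicator of a measurable set contained in a box times a continuous function -/
theorem integrable_ind (S : Set (ℝ × ℝ × ℝ)) (hS : MeasurableSet S) (M : ℝ)
    (hM : S ⊆ Icc (-M) M ×ˢ Icc (-M) M ×ˢ Icc (-M) M) (F : ℝ × ℝ × ℝ → ℝ) (hF : Continuous F) :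
    Integrable (S.indicator F) := by
  rw [integrable_indicator_iff hS]
  refine (hF.continuousOn.integrableOn_compact ?_).mono_set hM
  exact isCompact_Icc.prod (isCompact_Icc.prod isCompact_Icc)

/-- Fubini, the third variable outside -/
theorem fub (G : ℝ × ℝ × ℝ → ℝ) (hG : Integrable G) :
    ∫ z, ∫ q : ℝ × ℝ, G (z, q) = ∫ t, ∫ q : ℝ × ℝ, G (q.1, q.2, t) := by
  have h1 : ∫ p, G p = ∫ z, ∫ q : ℝ × ℝ, G (z, q) := integral_prod _ hG
  have h2 := (volume_preserving_prodAssoc (α₁ := ℝ) (β₁ := ℝ) (γ₁ := ℝ)).integral_comp' G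
  have h3 : Integrable (fun p : (ℝ × ℝ) × ℝ => G (MeasurableEquiv.prodAssoc p))
      ((volume : Measure (ℝ × ℝ)).prod volume) :=
    ((volume_preserving_prodAssoc (α₁ := ℝ) (β₁ := ℝ) (γ₁ := ℝ)).integrable_comp_emb
      MeasurableEquiv.prodAssoc.measurableEmbedding).2 hG
  have h4 : ∫ p : (ℝ × ℝ) × ℝ, G (MeasurableEquiv.prodAssoc p) =
      ∫ t, ∫ q : ℝ × ℝ, G (MeasurableEquiv.prodAssoc (q, t)) := integral_prod_symm _ h3
  rw [← h1, ← h2, h4]
  rfl

/-- the ball as a set of triples -/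
def S0 : Set (ℝ × ℝ × ℝ) := {p | p.1 * p.1 + p.2.1 * p.2.1 + p.2.2 * p.2.2 ≤ 1}

/-- the domain in cylindrical coordinates -/
def S1 : Set (ℝ × ℝ × ℝ) :=
  {p | 0 < p.2.1 ∧ p.1 * p.1 + p.2.1 * p.2.1 ≤ 1} ∩ {p | -Real.pi < p.2.2 ∧ p.2.2 < Real.pi}

/-- the domain in spherical coordinates -/
def S2 : Set (ℝ × ℝ × ℝ) := Ioc 0 1 ×ˢ Ioo 0 Real.pi ×ˢ Ioo (-Real.pi) Real.pi

/-- the integrand in cylindrical coordinates -/
noncomputable def F1 (f : ℝ × ℝ × ℝ → ℝ) (p : ℝ × ℝ × ℝ) : ℝ :=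
  p.2.1 * f (p.1, p.2.1 * Real.cos p.2.2, p.2.1 * Real.sin p.2.2)

/-- the integrand in spherical coordinates -/
noncomputable def F2 (f : ℝ × ℝ × ℝ → ℝ) (p : ℝ × ℝ × ℝ) : ℝ :=
  f (p.1 • sph p.2.1 p.2.2) * (p.1 ^ 2 * Real.sin p.2.1)

theorem measurable_S0 : MeasurableSet S0 :=
  measurableSet_le (by fun_prop) measurable_const

theorem measurable_S1 : MeasurableSet S1 := by
  have h1 : MeasurableSet {p : ℝ × ℝ × ℝ | 0 < p.2.1} :=
    measurableSet_lt measurable_const (by fun_prop)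
  have h2 : MeasurableSet {p : ℝ × ℝ × ℝ | p.1 * p.1 + p.2.1 * p.2.1 ≤ 1} :=
    measurableSet_le (by fun_prop) measurable_const
  have h3 : MeasurableSet {p : ℝ × ℝ × ℝ | -Real.pi < p.2.2} :=
    measurableSet_lt measurable_const (by fun_prop)
  have h4 : MeasurableSet {p : ℝ × ℝ × ℝ | p.2.2 < Real.pi} :=
    measurableSet_lt (by fun_prop) measurable_const
  exact (h1.inter h2).inter (h3.inter h4)

theorem measurable_S2 : MeasurableSet S2 :=
  measurableSet_Ioc.prod (measurableSet_Ioo.prod measurableSet_Ioo)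

theorem continuous_F1 (f : ℝ × ℝ × ℝ → ℝ) (hf : Continuous f) : Continuous (F1 f) := by
  unfold F1
  fun_prop

theorem continuous_F2 (f : ℝ × ℝ × ℝ → ℝ) (hf : Continuous f) : Continuous (F2 f) := by
  unfold F2 sph
  fun_prop

theorem abs_le_of (a M : ℝ) (hM : 0 ≤ M) (h : a * a ≤ M * M) : -M ≤ a ∧ a ≤ M := by
  constructor <;> nlinarith

theorem int_g (f : ℝ × ℝ × ℝ → ℝ) (hf : Continuous f) : Integrable (S0.indicator f) := by
  refine integrable_ind S0 measurable_S0 1 ?_ f hf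
  intro p hp
  have h : p.1 * p.1 + p.2.1 * p.2.1 + p.2.2 * p.2.2 ≤ 1 := hp
  refine ⟨?_, ?_, ?_⟩
  · exact abs_le_of p.1 1 (by norm_num) (by nlinarith [mul_self_nonneg p.2.1, mul_self_nonneg p.2.2])
  · exact abs_le_of p.2.1 1 (by norm_num) (by nlinarith [mul_self_nonneg p.1, mul_self_nonneg p.2.2])
  · exact abs_le_of p.2.2 1 (by norm_num) (by nlinarith [mul_self_nonneg p.1, mul_self_nonneg p.2.1])

theorem int_G (f : ℝ × ℝ × ℝ → ℝ) (hf : Continuous f) : Integrable (S1.indicator (F1 f)) := by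
  refine integrable_ind S1 measurable_S1 4 ?_ _ (continuous_F1 f hf)
  intro p hp
  obtain ⟨⟨h1, h2⟩, h3, h4⟩ := hp
  have hpi := Real.pi_lt_four
  refine ⟨?_, ?_, ?_⟩
  · exact abs_le_of p.1 4 (by norm_num) (by nlinarith [mul_self_nonneg p.2.1])
  · exact abs_le_of p.2.1 4 (by norm_num) (by nlinarith [mul_self_nonneg p.1])
  · exact ⟨by linarith, by linarith⟩

theorem int_K (f : ℝ × ℝ × ℝ → ℝ) (hf : Continuous f) : Integrable (S2.indicator (F2 f)) := by
  refine integrable_ind S2 measurable_S2 4 ?_ _ (continuous_F2 f hf)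
  intro p hp
  obtain ⟨h1, h2, h3⟩ := hp
  have hpi := Real.pi_lt_four
  exact ⟨⟨by linarith [h1.1], by linarith [h1.2]⟩, ⟨by linarith [h2.1], by linarith [h2.2]⟩,
    ⟨by linarith [h3.1], by linarith [h3.2]⟩⟩

/-- polar coordinates in the last two variables -/
theorem step1 (f : ℝ × ℝ × ℝ → ℝ) (z : ℝ) :
    ∫ q : ℝ × ℝ, S0.indicator f (z, q) = ∫ q : ℝ × ℝ, S1.indicator (F1 f) (z, q) := by
  rw [← integral_comp_polarCoord_symm,
    ← integral_indicator polarCoord.open_target.measurableSet]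
  congr 1
  ext q
  by_cases hq : q ∈ polarCoord.target
  · rw [indicator_of_mem hq]
    have hq' : 0 < q.1 ∧ -Real.pi < q.2 ∧ q.2 < Real.pi := hq
    have hs : ((z, polarCoord.symm q) ∈ S0) ↔ (z, q) ∈ S1 := by
      have e1 : q.1 * Real.cos q.2 * (q.1 * Real.cos q.2) + q.1 * Real.sin q.2 * (q.1 * Real.sin q.2) =
          q.1 * q.1 := by
        have := Real.sin_sq_add_cos_sq q.2
        linear_combination (q.1 * q.1) * this
      change z * z + q.1 * Real.cos q.2 * (q.1 * Real.cos q.2) +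
        q.1 * Real.sin q.2 * (q.1 * Real.sin q.2) ≤ 1 ↔
        ((0 < q.1 ∧ z * z + q.1 * q.1 ≤ 1) ∧ (-Real.pi < q.2 ∧ q.2 < Real.pi))
      rw [add_assoc, e1]
      exact ⟨fun h => ⟨⟨hq'.1, h⟩, hq'.2⟩, fun h => h.1.2⟩
    by_cases hz : (z, q) ∈ S1
    · rw [indicator_of_mem hz, indicator_of_mem (hs.2 hz)]
      rfl
    · rw [indicator_of_notMem hz, indicator_of_notMem (fun h => hz (hs.1 h)), smul_zero]
  · rw [indicator_of_notMem hq, indicator_of_notMem]
    rintro ⟨⟨h1, -⟩, h2⟩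
    exact hq ⟨h1, h2⟩

/-- polar coordinates in the first two variables -/
theorem step2 (f : ℝ × ℝ × ℝ → ℝ) (t : ℝ) :
    ∫ q : ℝ × ℝ, S1.indicator (F1 f) (q.1, q.2, t) = ∫ q : ℝ × ℝ, S2.indicator (F2 f) (q.1, q.2, t) := by
  rw [← integral_comp_polarCoord_symm,
    ← integral_indicator polarCoord.open_target.measurableSet]
  congr 1
  ext q
  by_cases hq : q ∈ polarCoord.target
  · rw [indicator_of_mem hq]
    have hq' : 0 < q.1 ∧ -Real.pi < q.2 ∧ q.2 < Real.pi := hq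
    have hs : (((polarCoord.symm q).1, (polarCoord.symm q).2, t) ∈ S1) ↔ (q.1, q.2, t) ∈ S2 := by
      have e1 : q.1 * Real.cos q.2 * (q.1 * Real.cos q.2) + q.1 * Real.sin q.2 * (q.1 * Real.sin q.2) =
          q.1 * q.1 := by
        have := Real.sin_sq_add_cos_sq q.2
        linear_combination (q.1 * q.1) * this
      change ((0 < q.1 * Real.sin q.2 ∧ q.1 * Real.cos q.2 * (q.1 * Real.cos q.2) +
        q.1 * Real.sin q.2 * (q.1 * Real.sin q.2) ≤ 1) ∧ (-Real.pi < t ∧ t < Real.pi)) ↔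
        ((0 < q.1 ∧ q.1 ≤ 1) ∧ (0 < q.2 ∧ q.2 < Real.pi) ∧ (-Real.pi < t ∧ t < Real.pi))
      rw [e1]
      constructor
      · rintro ⟨⟨h1, h2⟩, h3⟩
        refine ⟨⟨hq'.1, by nlinarith⟩, ⟨?_, hq'.2.2⟩, h3⟩
        by_contra hc
        have h4 : Real.sin q.2 ≤ 0 := Real.sin_nonpos_of_nonpos_of_neg_pi_le (not_lt.1 hc) hq'.2.1.le
        nlinarith
      · rintro ⟨⟨h1, h2⟩, ⟨h3, h4⟩, h5⟩
        refine ⟨⟨mul_pos h1 (Real.sin_pos_of_pos_of_lt_pi h3 h4), by nlinarith⟩, h5⟩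
    by_cases hz : (q.1, q.2, t) ∈ S2
    · rw [indicator_of_mem hz, indicator_of_mem (hs.2 hz)]
      have e2 : (q.1 • sph q.2 t : ℝ × ℝ × ℝ) = (q.1 * Real.cos q.2, q.1 * Real.sin q.2 * Real.cos t,
          q.1 * Real.sin q.2 * Real.sin t) := by
        ext <;> simp [sph, mul_assoc]
      change q.1 • (q.1 * Real.sin q.2 * f (q.1 * Real.cos q.2, q.1 * Real.sin q.2 * Real.cos t,
        q.1 * Real.sin q.2 * Real.sin t)) = f (q.1 • sph q.2 t) * (q.1 ^ 2 * Real.sin q.2)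
      rw [e2, smul_eq_mul]
      ring
    · rw [indicator_of_notMem hz, indicator_of_notMem (fun h => hz (hs.1 h)), smul_zero]
  · rw [indicator_of_notMem hq, indicator_of_notMem]
    rintro ⟨⟨h1, h1'⟩, ⟨h2, h2'⟩, -⟩
    exact hq ⟨h1, by linarith [Real.pi_pos, show (0 : ℝ) < q.2 from h2], h2'⟩

end POLM

/-- POL: integration over the ball in spherical coordinates -/
theorem specPOL : SpecPOL := by
  intro f hf
  have h0 : ∫ p in ball3, f p = ∫ p, POLM.S0.indicator f p :=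
    (integral_indicator POLM.measurable_S0).symm
  have h1 : ∫ p, POLM.S0.indicator f p = ∫ z, ∫ q : ℝ × ℝ, POLM.S0.indicator f (z, q) :=
    integral_prod _ (POLM.int_g f hf)
  have h2 : ∫ z, ∫ q : ℝ × ℝ, POLM.S0.indicator f (z, q) =
      ∫ z, ∫ q : ℝ × ℝ, POLM.S1.indicator (POLM.F1 f) (z, q) := by
    congr 1
    ext z
    exact POLM.step1 f z
  have h3 : ∫ t, ∫ q : ℝ × ℝ, POLM.S1.indicator (POLM.F1 f) (q.1, q.2, t) =
      ∫ t, ∫ q : ℝ × ℝ, POLM.S2.indicator (POLM.F2 f) (q.1, q.2, t) := by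
    congr 1
    ext t
    exact POLM.step2 f t
  rw [h0, h1, h2, POLM.fub _ (POLM.int_G f hf), h3, ← POLM.fub _ (POLM.int_K f hf)]
  have hpi := Real.pi_pos
  rw [intervalIntegral.integral_of_le zero_le_one, ← integral_indicator measurableSet_Ioc]
  congr 1
  ext r
  by_cases hr : r ∈ Ioc (0 : ℝ) 1
  · rw [indicator_of_mem hr]
    have hcont : Continuous (fun q : ℝ × ℝ => POLM.F2 f (r, q)) :=
      (POLM.continuous_F2 f hf).comp (by fun_prop)
    have h4 : (fun q : ℝ × ℝ => POLM.S2.indicator (POLM.F2 f) (r, q)) =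
        (Ioo 0 Real.pi ×ˢ Ioo (-Real.pi) Real.pi).indicator (fun q : ℝ × ℝ => POLM.F2 f (r, q)) := by
      ext q
      by_cases hq : q ∈ Ioo 0 Real.pi ×ˢ Ioo (-Real.pi) Real.pi
      · rw [indicator_of_mem hq, indicator_of_mem (show (r, q) ∈ POLM.S2 from ⟨hr, hq⟩)]
      · rw [indicator_of_notMem hq, indicator_of_notMem (fun h => hq h.2)]
    rw [h4, integral_indicator (measurableSet_Ioo.prod measurableSet_Ioo)]
    have h5 : ∫ q in Ioo 0 Real.pi ×ˢ Ioo (-Real.pi) Real.pi, POLM.F2 f (r, q) =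
        ∫ φ in Ioo 0 Real.pi, ∫ θ in Ioo (-Real.pi) Real.pi, POLM.F2 f (r, φ, θ) := by
      refine setIntegral_prod _ ?_
      have h6 : IsCompact (Icc 0 Real.pi ×ˢ Icc (-Real.pi) Real.pi) :=
        isCompact_Icc.prod isCompact_Icc
      exact (hcont.continuousOn.integrableOn_compact h6).mono_set
        (Set.prod_mono Ioo_subset_Icc_self Ioo_subset_Icc_self)
    rw [h5, intervalIntegral.integral_of_le hpi.le, integral_Ioc_eq_integral_Ioo]
    refine setIntegral_congr_fun measurableSet_Ioo fun φ _ => ?_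
    rw [intervalIntegral.integral_of_le (by linarith), integral_Ioc_eq_integral_Ioo]
    rfl
  · rw [indicator_of_notMem hr]
    have h4 : (fun q : ℝ × ℝ => POLM.S2.indicator (POLM.F2 f) (r, q)) = fun _ => 0 := by
      ext q
      exact indicator_of_notMem (fun h => hr h.1) _
    rw [h4, integral_zero]

end Pool.Agent.Lib.MP441052
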