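import Pool.Agent.Lib.MP_441052_gt.Spec

set_option autoImplicit false

/-!
# Module SIG: a lower bound for the first Steklov eigenvalue
-/

namespace Pool.Agent.Lib.MP441052

open MeasureTheory Set Filter
open scoped ContDiff Topology

namespace SIGM

/-- The integral over the parameter rectangle. -/
noncomputable def J (F : ℝ → ℝ → ℝ) : ℝ :=
  ∫ φ in (0 : ℝ)..Real.pi, ∫ θ in (-Real.pi)..Real.pi, F φ θ

theorem cont_inner {F : ℝ → ℝ → ℝ} (hF : Continuous fun q : ℝ × ℝ => F q.1 q.2) :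
    Continuous fun φ => ∫ θ in (-Real.pi)..Real.pi, F φ θ :=
  intervalIntegral.continuous_parametric_intervalIntegral_of_continuous' (f := F) hF _ _

theorem cont_right {F : ℝ → ℝ → ℝ} (hF : Continuous fun q : ℝ × ℝ => F q.1 q.2) (φ : ℝ) :
    Continuous fun θ => F φ θ :=
  hF.comp (continuous_const.prodMk continuous_id)

theorem J_mono {F F' : ℝ → ℝ → ℝ} (hF : Continuous fun q : ℝ × ℝ => F q.1 q.2)
    (hF' : Continuous fun q : ℝ × ℝ => F' q.1 q.2)
    (h : ∀ φ ∈ Icc (0 : ℝ) Real.pi, ∀ θ ∈ Icc (-Real.pi) Real.pi, F φ θ ≤ F' φ θ) :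
    J F ≤ J F' := by
  have hpi := Real.pi_pos
  refine intervalIntegral.integral_mono_on hpi.le ((cont_inner hF).intervalIntegrable _ _)
    ((cont_inner hF').intervalIntegrable _ _) fun φ hφ => ?_
  exact intervalIntegral.integral_mono_on (by linarith) ((cont_right hF φ).intervalIntegrable _ _)
    ((cont_right hF' φ).intervalIntegrable _ _) fun θ hθ => h φ hφ θ hθ

theorem J_add {F F' : ℝ → ℝ → ℝ} (hF : Continuous fun q : ℝ × ℝ => F q.1 q.2)
    (hF' : Continuous fun q : ℝ × ℝ => F' q.1 q.2) :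
    J (fun φ θ => F φ θ + F' φ θ) = J F + J F' := by
  unfold J
  rw [← intervalIntegral.integral_add ((cont_inner hF).intervalIntegrable _ _)
    ((cont_inner hF').intervalIntegrable _ _)]
  refine intervalIntegral.integral_congr fun φ _ => ?_
  exact intervalIntegral.integral_add ((cont_right hF φ).intervalIntegrable _ _)
    ((cont_right hF' φ).intervalIntegrable _ _)

theorem J_const_mul (c : ℝ) (F : ℝ → ℝ → ℝ) : J (fun φ θ => c * F φ θ) = c * J F := by
  unfold J
  rw [← intervalIntegral.integral_const_mul]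
  refine intervalIntegral.integral_congr fun φ _ => ?_
  exact intervalIntegral.integral_const_mul _ _

theorem II_eq (F : ℝ → ℝ → ℝ) : II F = J fun φ θ => F φ θ * Real.sin φ := rfl

theorem continuous_sph : Continuous fun q : ℝ × ℝ => sph q.1 q.2 := by
  unfold sph
  fun_prop

theorem sph_mem (φ θ : ℝ) : sph φ θ ∈ sphere2 := by
  show ip (sph φ θ) (sph φ θ) = 1
  simp only [ip, sph]
  have h1 := Real.sin_sq_add_cos_sq φ
  have h2 := Real.sin_sq_add_cos_sq θ
  calc Real.cos φ * Real.cos φ + Real.sin φ * Real.cos θ * (Real.sin φ * Real.cos θ) +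
        Real.sin φ * Real.sin θ * (Real.sin φ * Real.sin θ)
      = Real.cos φ ^ 2 + Real.sin φ ^ 2 * (Real.sin θ ^ 2 + Real.cos θ ^ 2) := by ring
    _ = 1 := by rw [h2]; linarith

theorem ip_sphφ (φ θ : ℝ) : ip (sph φ θ) (sphφ φ θ) = 0 := by
  simp only [ip, sph, sphφ]
  have h2 := Real.sin_sq_add_cos_sq θ
  calc Real.cos φ * -Real.sin φ + Real.sin φ * Real.cos θ * (Real.cos φ * Real.cos θ) +
        Real.sin φ * Real.sin θ * (Real.cos φ * Real.sin θ)
      = Real.cos φ * Real.sin φ * (Real.sin θ ^ 2 + Real.cos θ ^ 2 - 1) := by ring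
    _ = 0 := by rw [h2]; ring

theorem ip_sphθ (φ θ : ℝ) : ip (sph φ θ) (sphθ φ θ) = 0 := by
  simp only [ip, sph, sphθ]
  ring

theorem bdens_eq {G G₀ : RiemMetric} (h : G.SameBoundary G₀) (φ θ : ℝ) :
    G.bdens φ θ = G₀.bdens φ θ := by
  unfold RiemMetric.bdens
  rw [h _ (sph_mem φ θ) _ _ (ip_sphφ φ θ) (ip_sphφ φ θ),
    h _ (sph_mem φ θ) _ _ (ip_sphθ φ θ) (ip_sphθ φ θ),
    h _ (sph_mem φ θ) _ _ (ip_sphφ φ θ) (ip_sphθ φ θ)]

theorem intB_eq {G G₀ : RiemMetric} (h : G.SameBoundary G₀) (f : Pt → ℝ) :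
    G.intB f = G₀.intB f := by
  unfold RiemMetric.intB
  simp only [bdens_eq h]

/-- `∫ (cos φ - m)² sin φ = (2 + 6 m²)/3`. -/
theorem int_cos (m : ℝ) : ∫ φ in (0 : ℝ)..Real.pi, (Real.cos φ - m) ^ 2 * Real.sin φ =
    (2 + 6 * m ^ 2) / 3 := by
  have h1 : ∀ φ : ℝ, HasDerivAt (fun φ => -(Real.cos φ - m) ^ 3 / 3)
      ((Real.cos φ - m) ^ 2 * Real.sin φ) φ := by
    intro φ
    have h2 : HasDerivAt (fun φ => Real.cos φ - m) (-Real.sin φ) φ :=
      (Real.hasDerivAt_cos φ).sub_const m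
    have h3 := ((h2.pow 3).neg).div_const 3
    have h4 : (Real.cos φ - m) ^ 2 * Real.sin φ =
        -(((3 : ℕ) : ℝ) * (Real.cos φ - m) ^ (3 - 1) * -Real.sin φ) / 3 := by
      norm_num
      ring
    rw [h4]
    exact h3
  rw [intervalIntegral.integral_eq_sub_of_hasDerivAt (fun φ _ => h1 φ)
    (Continuous.intervalIntegrable (by fun_prop) _ _)]
  rw [Real.cos_pi, Real.cos_zero]
  ring

end SIGM

open SIGM in
/-- **SIG**: an upper bound for the distance to the constants on `S²` by the energy gives a lower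
bound for the first Steklov eigenvalue. -/
theorem specSIG (hARE : SpecARE) : SpecSIG := by
  intro G₀
  obtain ⟨hbc, c, C, hc, hC, hb⟩ := hARE G₀
  refine ⟨C, hC, ?_⟩
  intro G hSB A hA hyp
  have hpi := Real.pi_pos
  set b : ℝ → ℝ → ℝ := fun φ θ => G₀.bdens φ θ with hbdef
  have hbc' : Continuous fun q : ℝ × ℝ => b q.1 q.2 := hbc
  have hsinc : Continuous fun q : ℝ × ℝ => Real.sin q.1 := by fun_prop
  have hint : ∀ f : Pt → ℝ, G.intB f = J fun φ θ => f (sph φ θ) * b φ θ := fun f =>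
    intB_eq hSB f
  have hsin : ∀ φ ∈ Icc (0 : ℝ) Real.pi, 0 ≤ Real.sin φ := fun φ hφ =>
    Real.sin_nonneg_of_nonneg_of_le_pi hφ.1 hφ.2
  have hb0 : ∀ φ ∈ Icc (0 : ℝ) Real.pi, ∀ θ ∈ Icc (-Real.pi) Real.pi, 0 ≤ b φ θ := by
    intro φ hφ θ hθ
    exact (mul_nonneg hc.le (hsin φ hφ)).trans (hb φ hφ θ hθ).1
  -- continuity of `f (sph φ θ)`
  have hfc : ∀ f : Pt → ℝ, Continuous f → Continuous fun q : ℝ × ℝ => f (sph q.1 q.2) :=
    fun f hf => hf.comp continuous_sph
  -- expansion
  have hexp : ∀ (u : Pt → ℝ) (m : ℝ), Continuous u → G.intB (fun p => (u p - m) ^ 2) =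
      G.intB (fun p => u p ^ 2) + ((-2 * m) * G.intB u + m ^ 2 * G.intB (fun _ => 1)) := by
    intro u m hu
    have huc := hfc u hu
    rw [hint, hint, hint, hint, ← J_const_mul, ← J_const_mul, ← J_add, ← J_add]
    · congr 1
      funext φ θ
      ring
    · exact (huc.pow 2).mul hbc'
    · exact (continuous_const.mul (huc.mul hbc')).add
        (continuous_const.mul (continuous_const.mul hbc'))
    · exact continuous_const.mul (huc.mul hbc')
    · exact continuous_const.mul (continuous_const.mul hbc')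
  -- nonnegativity
  have hnn : ∀ u : Pt → ℝ, Continuous u → 0 ≤ G.intB (fun p => u p ^ 2) := by
    intro u hu
    rw [hint]
    have h0 : J (fun _ _ => (0 : ℝ)) = 0 := by
      unfold J
      simp
    rw [← h0]
    exact J_mono continuous_const (((hfc u hu).pow 2).mul hbc') fun φ hφ θ hθ =>
      mul_nonneg (sq_nonneg _) (hb0 φ hφ θ hθ)
  -- comparison with `II`
  have hle : ∀ u : Pt → ℝ, Continuous u →
      G.intB (fun p => u p ^ 2) ≤ C * II (fun φ θ => u (sph φ θ) ^ 2) := by
    intro u hu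
    rw [hint, II_eq, ← J_const_mul]
    refine J_mono (((hfc u hu).pow 2).mul hbc')
      (continuous_const.mul (((hfc u hu).pow 2).mul hsinc)) fun φ hφ θ hθ => ?_
    have h1 := (hb φ hφ θ hθ).2
    calc u (sph φ θ) ^ 2 * b φ θ ≤ u (sph φ θ) ^ 2 * (C * Real.sin φ) :=
          mul_le_mul_of_nonneg_left h1 (sq_nonneg _)
      _ = C * (u (sph φ θ) ^ 2 * Real.sin φ) := by ring
  have hge : ∀ u : Pt → ℝ, Continuous u →
      c * II (fun φ θ => u (sph φ θ) ^ 2) ≤ G.intB (fun p => u p ^ 2) := by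
    intro u hu
    rw [hint, II_eq, ← J_const_mul]
    refine J_mono (continuous_const.mul (((hfc u hu).pow 2).mul hsinc))
      (((hfc u hu).pow 2).mul hbc') fun φ hφ θ hθ => ?_
    have h1 := (hb φ hφ θ hθ).1
    calc c * (u (sph φ θ) ^ 2 * Real.sin φ) = u (sph φ θ) ^ 2 * (c * Real.sin φ) := by ring
      _ ≤ u (sph φ θ) ^ 2 * b φ θ := mul_le_mul_of_nonneg_left h1 (sq_nonneg _)
  -- `II` of `(cos φ - m)²`
  have hII : ∀ m : ℝ, 0 < II (fun φ θ => ((sph φ θ).1 - m) ^ 2) := by
    intro m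
    have h1 : II (fun φ θ => ((sph φ θ).1 - m) ^ 2) = 2 * Real.pi * ((2 + 6 * m ^ 2) / 3) := by
      rw [← int_cos m, ← intervalIntegral.integral_const_mul]
      unfold II
      refine intervalIntegral.integral_congr fun φ _ => ?_
      show ∫ θ in (-Real.pi)..Real.pi, (Real.cos φ - m) ^ 2 * Real.sin φ = _
      rw [intervalIntegral.integral_const, smul_eq_mul]
      ring
    rw [h1]
    positivity
  have harea : 0 < G.intB (fun _ => 1) := by
    have h1 := hge (fun _ => 1) continuous_const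
    have h2 : G.intB (fun _ => (1 : ℝ) ^ 2) = G.intB (fun _ => 1) := by
      simp only [one_pow]
    have h3 : 0 < II (fun _ _ => (1 : ℝ) ^ 2) := by
      have h4 : II (fun _ _ => (1 : ℝ) ^ 2) = 2 * Real.pi * 2 := by
        unfold II
        have h5 : ∀ φ : ℝ, ∫ θ in (-Real.pi)..Real.pi, (1 : ℝ) ^ 2 * Real.sin φ =
            2 * Real.pi * Real.sin φ := by
          intro φ
          rw [intervalIntegral.integral_const, smul_eq_mul]
          ring
        simp only [h5]
        rw [intervalIntegral.integral_const_mul, integral_sin, Real.cos_pi, Real.cos_zero]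
        ring
      rw [h4]
      positivity
    rw [← h2]
    exact lt_of_lt_of_le (mul_pos hc h3) h1
  unfold RiemMetric.sigma1
  refine le_csInf ?_ ?_
  · -- an admissible function
    set m₀ : ℝ := G.intB (fun p => p.1) / G.intB (fun _ => 1) with hm₀
    refine ⟨_, fun p => p.1 - m₀, ⟨?_, ?_, ?_⟩, rfl⟩
    · exact contDiff_fst.sub contDiff_const
    · have h1 : G.intB (fun p => p.1 - m₀) =
          G.intB (fun p => p.1) + (-m₀) * G.intB (fun _ => 1) := by
        rw [hint, hint, hint, ← J_const_mul, ← J_add]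
        · congr 1
          funext φ θ
          ring
        · exact (hfc _ continuous_fst).mul hbc'
        · exact continuous_const.mul (continuous_const.mul hbc')
      rw [h1, hm₀]
      field_simp
      ring
    · have h1 := hge (fun p => p.1 - m₀) (continuous_fst.sub continuous_const)
      have h2 := mul_pos hc (hII m₀)
      exact (lt_of_lt_of_le h2 h1).ne'
  · rintro r ⟨u, ⟨hu1, hu2, hu3⟩, rfl⟩
    have hu : Continuous u := hu1.continuous
    obtain ⟨m, hm⟩ := hyp u hu1
    have h1 := hexp u m hu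
    rw [hu2, mul_zero, zero_add] at h1
    have h2 : G.intB (fun p => u p ^ 2) ≤ G.intB (fun p => (u p - m) ^ 2) := by
      rw [h1]
      have : 0 ≤ m ^ 2 * G.intB (fun _ => 1) := mul_nonneg (sq_nonneg m) harea.le
      linarith
    have h3 := hle (fun p => u p - m) (hu.sub continuous_const)
    have h4 : 0 < G.intB (fun p => u p ^ 2) := lt_of_le_of_ne (hnn u hu) (Ne.symm hu3)
    rw [div_le_div_iff₀ hC h4]
    calc A * G.intB (fun p => u p ^ 2) ≤ A * (C * II (fun φ θ => (u (sph φ θ) - m) ^ 2)) :=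
          mul_le_mul_of_nonneg_left (h2.trans h3) hA.le
      _ = C * (A * II (fun φ θ => (u (sph φ θ) - m) ^ 2)) := by ring
      _ ≤ C * G.energy u := mul_le_mul_of_nonneg_left hm hC.le
      _ = G.energy u * C := by ring

end Pool.Agent.Lib.MP441052
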