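import Pool.Agent.Lib.MP_441052_gt.Spec

/-!
# Mean values and continuity in the radius (module SLI)
-/

set_option autoImplicit false

namespace Pool.Agent.Lib.MP441052

open MeasureTheory Set Filter
open scoped ContDiff Topology

/-- SLI: a good slice; continuity of the integral over the sphere in a parameter -/
theorem specSLI : SpecSLI := by
  refine ⟨?_, ?_⟩
  · intro h a b hh hab
    obtain ⟨r, hr, hmin⟩ := isCompact_Icc.exists_isMinOn (nonempty_Icc.2 hab.le) hh.continuousOn
    refine ⟨r, hr, ?_⟩
    have h1 : (b - a) * h r = ∫ _t in a..b, h r := by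
      rw [intervalIntegral.integral_const, smul_eq_mul]
    rw [h1]
    refine intervalIntegral.integral_mono_on hab.le (continuous_const.intervalIntegrable _ _)
      (hh.intervalIntegrable _ _) fun t ht => ?_
    exact hmin ht
  · intro F hF
    unfold II
    have h1 : Continuous (fun q : (ℝ × ℝ) × ℝ => F q.1.1 q.1.2 q.2 * Real.sin q.1.2) := by
      have h2 : Continuous fun q : (ℝ × ℝ) × ℝ => F q.1.1 q.1.2 q.2 :=
        hF.comp ((continuous_fst.comp continuous_fst).prodMk
          ((continuous_snd.comp continuous_fst).prodMk continuous_snd))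
      exact h2.mul (Real.continuous_sin.comp (continuous_snd.comp continuous_fst))
    have h3 : Continuous (fun q : ℝ × ℝ =>
        ∫ θ in (-Real.pi)..Real.pi, F q.1 q.2 θ * Real.sin q.2) :=
      intervalIntegral.continuous_parametric_intervalIntegral_of_continuous'
        (f := fun (q : ℝ × ℝ) (θ : ℝ) => F q.1 q.2 θ * Real.sin q.2) (μ := volume) h1 _ _
    exact intervalIntegral.continuous_parametric_intervalIntegral_of_continuous'
      (f := fun (r φ : ℝ) => ∫ θ in (-Real.pi)..Real.pi, F r φ θ * Real.sin φ) (μ := volume) h3 _ _

end Pool.Agent.Lib.MP441052
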