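import Pool.Agent.Lib.MP_441052_gt.Spec

/-!
# Module SMO: the entries of the metric are smooth
-/

set_option autoImplicit false

namespace Pool.Agent.Lib.MP441052

open MeasureTheory Set Filter
open scoped ContDiff Topology

namespace SMOM

lemma c1 : ContDiff ℝ ∞ (fun p : Pt => p.1) := contDiff_fst
lemma c2 : ContDiff ℝ ∞ (fun p : Pt => p.2.1) := contDiff_fst.comp contDiff_snd
lemma c3 : ContDiff ℝ ∞ (fun p : Pt => p.2.2) := contDiff_snd.comp contDiff_snd

lemma cip {f g : Pt → Pt} (hf : ContDiff ℝ ∞ f) (hg : ContDiff ℝ ∞ g) :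
    ContDiff ℝ ∞ (fun p => ip (f p) (g p)) := by
  unfold ip
  exact (((c1.comp hf).mul (c1.comp hg)).add ((c2.comp hf).mul (c2.comp hg))).add
    ((c3.comp hf).mul (c3.comp hg))

lemma csq : ContDiff ℝ ∞ sq := by
  have := cip (f := fun p => p) (g := fun p => p) contDiff_id contDiff_id
  exact this

lemma st {f : Pt → ℝ} (hf : ContDiff ℝ ∞ f) : ContDiff ℝ ∞ (fun p => Real.smoothTransition (f p)) :=
  Real.smoothTransition.contDiff.comp hf

lemma cbe : ContDiff ℝ ∞ (fun p : Pt => be (sq p)) :=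
  st (contDiff_const.sub (contDiff_const.mul csq))

lemma cchb : ContDiff ℝ ∞ (fun p : Pt => chb (sq p)) :=
  st ((contDiff_const.mul csq).sub contDiff_const)

lemma cch1 : ContDiff ℝ ∞ (fun p : Pt => ch1 (sq p)) :=
  (st ((contDiff_const.mul csq).sub contDiff_const)).mul
    (st (contDiff_const.sub (contDiff_const.mul csq)))

lemma cch2 : ContDiff ℝ ∞ (fun p : Pt => ch2 (sq p)) :=
  (st ((contDiff_const.mul csq).sub contDiff_const)).mul
    (st (contDiff_const.sub (contDiff_const.mul csq)))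

lemma cX1 : ContDiff ℝ ∞ X1 := by
  unfold X1
  exact contDiff_const.prodMk (c3.neg.prodMk c2)

lemma cX2 : ContDiff ℝ ∞ X2 := by
  unfold X2
  exact ((c2.pow 2).add (c3.pow 2)).prodMk ((c1.mul c2).neg.prodMk (c1.mul c3).neg)

lemma cXX : ContDiff ℝ ∞ XX := by
  unfold XX
  exact (cch1.smul cX1).add (cch2.smul cX2)

lemma ip_self_nonneg (v : Pt) : 0 ≤ ip v v := by
  unfold ip; nlinarith [mul_self_nonneg v.1, mul_self_nonneg v.2.1, mul_self_nonneg v.2.2]

lemma caa (δ : ℝ) : ContDiff ℝ ∞ (aa δ) := by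
  unfold aa
  exact contDiff_const.add ((cip cXX cXX).div_const _)

lemma aa_pos (δ : ℝ) (p : Pt) : 0 < aa δ p := by
  unfold aa
  have := div_nonneg (ip_self_nonneg (XX p)) (sq_nonneg δ)
  linarith

lemma cka {δ : ℝ} (hδ : 0 < δ) : ContDiff ℝ ∞ (ka δ) := by
  unfold ka
  refine (contDiff_const.add (caa δ)).div (contDiff_const.mul (caa δ)) (fun p => ?_)
  have := aa_pos δ p
  positivity

lemma cco {f : Pt → Pt} (hf : ContDiff ℝ ∞ f) (i : Fin 3) : ContDiff ℝ ∞ (fun p => co (f p) i) := by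
  fin_cases i
  · exact c1.comp hf
  · exact c2.comp hf
  · exact c3.comp hf

lemma couter {f : Pt → Pt} (hf : ContDiff ℝ ∞ f) (i j : Fin 3) :
    ContDiff ℝ ∞ (fun p => outer (f p) i j) := by
  simp only [outer, Matrix.of_apply]
  exact (cco hf i).mul (cco hf j)

lemma cPm (i j : Fin 3) : ContDiff ℝ ∞ (fun p : Pt => Pm p i j) := by
  simp only [Pm, Matrix.sub_apply, Matrix.smul_apply, smul_eq_mul]
  exact (csq.mul contDiff_const).sub (couter contDiff_id i j)

end SMOM

open SMOM in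
theorem specSMO : SpecSMO := by
  intro G₀ δ τ hδ i j
  simp only [gm, MM, Matrix.add_apply, Matrix.sub_apply, Matrix.smul_apply, smul_eq_mul,
    Matrix.mul_apply]
  refine (((contDiff_const.mul cbe).mul contDiff_const).add
    (contDiff_const.mul (couter contDiff_id i j))).add ((contDiff_const.sub cchb).mul
      (((caa δ).mul (cPm i j)).sub ((csq.mul (cka hδ)).mul (couter cXX i j)))) |>.add
      (cchb.mul ?_)
  refine ContDiff.sum (fun k _ => (ContDiff.sum (fun l _ => ?_)).mul (cPm k j))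
  exact (cPm i l).mul (G₀.smooth l k)

end Pool.Agent.Lib.MP441052
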