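import Pool.Agent.Lib.MP_441052_gt.Spec

set_option autoImplicit false

namespace Pool.Agent.Lib.MP441052

open MeasureTheory Set Filter
open scoped ContDiff Topology

namespace THEM

/-- Cauchy-Schwarz on an interval. -/
theorem cs (g : ℝ → ℝ) (hg : Continuous g) (a b : ℝ) (hab : a ≤ b) :
    (∫ x in a..b, g x) ^ 2 ≤ (b - a) * ∫ x in a..b, g x ^ 2 := by
  set I := ∫ x in a..b, g x with hI
  set J := ∫ x in a..b, g x ^ 2 with hJ
  rcases hab.eq_or_lt with h | h
  · subst h
    simp [hI]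
  · have h1 : 0 ≤ ∫ x in a..b, ((b - a) * g x - I) ^ 2 :=
      intervalIntegral.integral_nonneg hab fun x _ => sq_nonneg _
    have h2 : ∫ x in a..b, ((b - a) * g x - I) ^ 2 =
        (b - a) ^ 2 * J - 2 * (b - a) * I * I + (b - a) * I ^ 2 := by
      have e : (fun x => ((b - a) * g x - I) ^ 2) =
          fun x => (b - a) ^ 2 * g x ^ 2 - 2 * (b - a) * I * g x + I ^ 2 := by
        funext x; ring
      rw [e, intervalIntegral.integral_add, intervalIntegral.integral_sub,
        intervalIntegral.integral_const_mul, intervalIntegral.integral_const_mul,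
        intervalIntegral.integral_const]
      · simp only [smul_eq_mul, ← hI, ← hJ]
      · exact (Continuous.intervalIntegrable (by fun_prop) _ _)
      · exact (Continuous.intervalIntegrable (by fun_prop) _ _)
      · exact (Continuous.intervalIntegrable (by fun_prop) _ _)
      · exact (Continuous.intervalIntegrable (by fun_prop) _ _)
    rw [h2] at h1
    have h3 : 0 ≤ (b - a) * ((b - a) * J - I ^ 2) := by nlinarith only [h1]
    have h4 : 0 ≤ (b - a) * J - I ^ 2 := nonneg_of_mul_nonneg_right h3 (by linarith)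
    linarith

theorem pt (g g' : ℝ → ℝ) (hg' : Continuous g') (hd : ∀ t, HasDerivAt g (g' t) t) (θ : ℝ)
    (h : θ ∈ Icc (-Real.pi) Real.pi) :
    (g θ - g 0) ^ 2 ≤ Real.pi * ∫ t in (-Real.pi)..Real.pi, g' t ^ 2 := by
  have hpi := Real.pi_pos
  have ftc : ∀ a b : ℝ, ∫ t in a..b, g' t = g b - g a := fun a b =>
    intervalIntegral.integral_eq_sub_of_hasDerivAt (fun x _ => hd x)
      (hg'.intervalIntegrable _ _)
  have hsq : Continuous fun t => g' t ^ 2 := by fun_prop
  have mono : ∀ a b : ℝ, -Real.pi ≤ a → a ≤ b → b ≤ Real.pi →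
      ∫ t in a..b, g' t ^ 2 ≤ ∫ t in (-Real.pi)..Real.pi, g' t ^ 2 := by
    intro a b h1 h2 h3
    refine intervalIntegral.integral_mono_interval h1 h2 h3 ?_ (hsq.intervalIntegrable _ _)
    exact Filter.Eventually.of_forall fun t => sq_nonneg _
  have nn : ∀ a b : ℝ, a ≤ b → 0 ≤ ∫ t in a..b, g' t ^ 2 := fun a b hab =>
    intervalIntegral.integral_nonneg hab fun x _ => sq_nonneg _
  rcases le_total 0 θ with h0 | h0
  · have c := cs g' hg' 0 θ h0
    rw [ftc] at c
    have m := mono 0 θ (by linarith) h0 h.2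
    have n := nn 0 θ h0
    have : (θ - 0) * ∫ t in (0:ℝ)..θ, g' t ^ 2 ≤ Real.pi * ∫ t in (-Real.pi)..Real.pi, g' t ^ 2 :=
      mul_le_mul (by linarith [h.2]) m n hpi.le
    linarith
  · have c := cs g' hg' θ 0 h0
    rw [ftc] at c
    have m := mono θ 0 h.1 h0 hpi.le
    have n := nn θ 0 h0
    have : (0 - θ) * ∫ t in θ..(0:ℝ), g' t ^ 2 ≤ Real.pi * ∫ t in (-Real.pi)..Real.pi, g' t ^ 2 :=
      mul_le_mul (by linarith [h.1]) m n hpi.le
    have e : (g θ - g 0) ^ 2 = (g 0 - g θ) ^ 2 := by ring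
    linarith

end THEM

theorem specTHE : SpecTHE := by
  intro f f' hf hf' hd
  have hpi := Real.pi_pos
  unfold II
  have cf : ∀ φ, Continuous fun θ => f φ θ := fun φ =>
    hf.comp (by fun_prop : Continuous fun θ : ℝ => (φ, θ))
  have cf' : ∀ φ, Continuous fun θ => f' φ θ := fun φ =>
    hf'.comp (by fun_prop : Continuous fun θ : ℝ => (φ, θ))
  have c0 : Continuous fun φ => f φ 0 := hf.comp (by fun_prop : Continuous fun φ : ℝ => (φ, (0:ℝ)))
  have A1 : Continuous (fun φ : ℝ => ∫ θ in (-Real.pi)..Real.pi, (f φ θ - f φ 0) ^ 2 * Real.sin φ) := by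
    apply intervalIntegral.continuous_parametric_intervalIntegral_of_continuous'
    have : Continuous fun q : ℝ × ℝ => (f q.1 q.2 - f q.1 0) ^ 2 * Real.sin q.1 :=
      ((hf.sub (c0.comp continuous_fst)).pow 2).mul (by fun_prop)
    exact this
  have A2 : Continuous (fun φ : ℝ => ∫ θ in (-Real.pi)..Real.pi, f' φ θ ^ 2 * Real.sin φ) := by
    apply intervalIntegral.continuous_parametric_intervalIntegral_of_continuous'
    have : Continuous fun q : ℝ × ℝ => f' q.1 q.2 ^ 2 * Real.sin q.1 :=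
      (hf'.pow 2).mul (by fun_prop)
    exact this
  rw [← intervalIntegral.integral_const_mul]
  refine intervalIntegral.integral_mono_on hpi.le (A1.intervalIntegrable _ _)
    ((A2.const_mul _ : Continuous fun φ => 2 * Real.pi ^ 2 *
      ∫ θ in (-Real.pi)..Real.pi, f' φ θ ^ 2 * Real.sin φ).intervalIntegrable _ _) ?_
  intro φ hφ
  have hs : 0 ≤ Real.sin φ := Real.sin_nonneg_of_mem_Icc hφ
  have e1 : ∫ θ in (-Real.pi)..Real.pi, f' φ θ ^ 2 * Real.sin φ =
      (∫ θ in (-Real.pi)..Real.pi, f' φ θ ^ 2) * Real.sin φ :=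
    intervalIntegral.integral_mul_const _ _
  have e2 : ∫ θ in (-Real.pi)..Real.pi, (f φ θ - f φ 0) ^ 2 * Real.sin φ =
      (∫ θ in (-Real.pi)..Real.pi, (f φ θ - f φ 0) ^ 2) * Real.sin φ :=
    intervalIntegral.integral_mul_const _ _
  have key : ∫ θ in (-Real.pi)..Real.pi, (f φ θ - f φ 0) ^ 2 ≤
      ∫ _θ in (-Real.pi)..Real.pi, Real.pi * ∫ t in (-Real.pi)..Real.pi, f' φ t ^ 2 := by
    refine intervalIntegral.integral_mono_on (by linarith) ?_ ?_ ?_
    · exact Continuous.intervalIntegrable (((cf φ).sub continuous_const).pow 2) _ _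
    · exact continuous_const.intervalIntegrable _ _
    · intro θ hθ
      exact THEM.pt (fun t => f φ t) (fun t => f' φ t) (cf' φ) (fun t => hd φ t) θ hθ
  rw [intervalIntegral.integral_const, smul_eq_mul] at key
  rw [e1, e2]
  calc (∫ θ in (-Real.pi)..Real.pi, (f φ θ - f φ 0) ^ 2) * Real.sin φ
      ≤ ((Real.pi - -Real.pi) * (Real.pi * ∫ t in (-Real.pi)..Real.pi, f' φ t ^ 2)) * Real.sin φ :=
        mul_le_mul_of_nonneg_right key hs
    _ = 2 * Real.pi ^ 2 * ((∫ θ in (-Real.pi)..Real.pi, f' φ θ ^ 2) * Real.sin φ) := by ring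

end Pool.Agent.Lib.MP441052
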