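import Pool.Agent.Lib.MP_441052_gt.Spec

set_option autoImplicit false

/-!
# TWO: a function close to a function of `φ` and to a function of `θ` is close to a constant
-/

namespace Pool.Agent.Lib.MP441052

open MeasureTheory Set Filter
open scoped ContDiff Topology

namespace TWOM

lemma cont_inner (f : ℝ → ℝ → ℝ) (hf : Continuous fun q : ℝ × ℝ => f q.1 q.2) (c d : ℝ) :
    Continuous fun φ => ∫ θ in c..d, f φ θ * Real.sin φ := by
  apply intervalIntegral.continuous_parametric_intervalIntegral_of_continuous'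
  exact hf.mul (Real.continuous_sin.comp continuous_fst)

lemma cont_sec (f : ℝ → ℝ → ℝ) (hf : Continuous fun q : ℝ × ℝ => f q.1 q.2) (φ : ℝ) :
    Continuous fun θ => f φ θ * Real.sin φ :=
  (hf.comp (Continuous.prodMk continuous_const continuous_id)).mul continuous_const

lemma II_mono (f g : ℝ → ℝ → ℝ) (hf : Continuous fun q : ℝ × ℝ => f q.1 q.2)
    (hg : Continuous fun q : ℝ × ℝ => g q.1 q.2) (h : ∀ φ θ, f φ θ ≤ g φ θ) : II f ≤ II g := by
  unfold II
  apply intervalIntegral.integral_mono_on Real.pi_pos.le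
    ((cont_inner f hf _ _).intervalIntegrable _ _) ((cont_inner g hg _ _).intervalIntegrable _ _)
  intro φ hφ
  have hs : 0 ≤ Real.sin φ := Real.sin_nonneg_of_mem_Icc hφ
  apply intervalIntegral.integral_mono_on (by linarith [Real.pi_pos])
    ((cont_sec f hf φ).intervalIntegrable _ _) ((cont_sec g hg φ).intervalIntegrable _ _)
  intro θ _
  exact mul_le_mul_of_nonneg_right (h φ θ) hs

lemma II_lin (f g : ℝ → ℝ → ℝ) (hf : Continuous fun q : ℝ × ℝ => f q.1 q.2)
    (hg : Continuous fun q : ℝ × ℝ => g q.1 q.2) :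
    II (fun φ θ => 2 * f φ θ + 2 * g φ θ) = 2 * II f + 2 * II g := by
  unfold II
  have h1 : ∀ φ, (∫ θ in (-Real.pi)..Real.pi, (2 * f φ θ + 2 * g φ θ) * Real.sin φ)
      = 2 * (∫ θ in (-Real.pi)..Real.pi, f φ θ * Real.sin φ)
        + 2 * (∫ θ in (-Real.pi)..Real.pi, g φ θ * Real.sin φ) := by
    intro φ
    rw [← intervalIntegral.integral_const_mul, ← intervalIntegral.integral_const_mul,
      ← intervalIntegral.integral_add
        (((cont_sec f hf φ).const_mul 2).intervalIntegrable _ _)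
        (((cont_sec g hg φ).const_mul 2).intervalIntegrable _ _)]
    congr 1
    funext θ
    ring
  simp only [h1]
  rw [intervalIntegral.integral_add
        (((cont_inner f hf _ _).const_mul 2).intervalIntegrable _ _)
        (((cont_inner g hg _ _).const_mul 2).intervalIntegrable _ _),
    intervalIntegral.integral_const_mul, intervalIntegral.integral_const_mul]

lemma swap (f : ℝ → ℝ → ℝ) (hf : Continuous fun q : ℝ × ℝ => f q.1 q.2) :
    II f = ∫ θ in (-Real.pi)..Real.pi, ∫ φ in (0 : ℝ)..Real.pi, f φ θ * Real.sin φ := by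
  unfold II
  apply intervalIntegral_intervalIntegral_swap
  have hc : Continuous (Function.uncurry fun φ θ : ℝ => f φ θ * Real.sin φ) :=
    hf.mul (Real.continuous_sin.comp continuous_fst)
  exact (hc.continuousOn.integrableOn_compact
    (isCompact_uIcc.prod isCompact_uIcc)).mono_set (prod_mono uIoc_subset_uIcc uIoc_subset_uIcc)

end TWOM

open TWOM in
theorem specTWO (hSLI : SpecSLI) : SpecTWO := by
  intro F a b A B hF ha hb hA hB
  have ha' : Continuous (fun q : ℝ × ℝ => a q.1) := ha.comp continuous_fst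
  have hb' : Continuous (fun q : ℝ × ℝ => b q.2) := hb.comp continuous_snd
  have hFa : Continuous (fun q : ℝ × ℝ => (F q.1 q.2 - a q.1) ^ 2) := (hF.sub ha').pow 2
  have hFb : Continuous (fun q : ℝ × ℝ => (F q.1 q.2 - b q.2) ^ 2) := (hF.sub hb').pow 2
  have hab : Continuous (fun q : ℝ × ℝ => (a q.1 - b q.2) ^ 2) := (ha'.sub hb').pow 2
  have h1 : II (fun φ θ => (a φ - b θ) ^ 2) ≤ 2 * A + 2 * B := by
    have h2 := II_mono (fun φ θ => (a φ - b θ) ^ 2)
      (fun φ θ => 2 * (F φ θ - a φ) ^ 2 + 2 * (F φ θ - b θ) ^ 2) hab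
      ((hFa.const_mul 2).add (hFb.const_mul 2))
      (fun φ θ => by nlinarith [sq_nonneg ((F φ θ - a φ) + (F φ θ - b θ))])
    rw [II_lin (fun φ θ => (F φ θ - a φ) ^ 2) (fun φ θ => (F φ θ - b θ) ^ 2) hFa hFb] at h2
    linarith
  set h : ℝ → ℝ := fun θ => ∫ φ in (0 : ℝ)..Real.pi, (a φ - b θ) ^ 2 * Real.sin φ with hh
  have hcont : Continuous h := by
    apply intervalIntegral.continuous_parametric_intervalIntegral_of_continuous'
    exact (((ha.comp continuous_snd).sub (hb.comp continuous_fst)).pow 2).mul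
      (Real.continuous_sin.comp continuous_snd)
  obtain ⟨θ₀, -, hθ₀⟩ := hSLI.1 h (-Real.pi) Real.pi hcont (by linarith [Real.pi_pos])
  have h3 : ∫ t in (-Real.pi)..Real.pi, h t = II (fun φ θ => (a φ - b θ) ^ 2) :=
    (swap (fun φ θ => (a φ - b θ) ^ 2) hab).symm
  have h4 : II (fun φ _ => (a φ - b θ₀) ^ 2) = (Real.pi - -Real.pi) * h θ₀ := by
    have ham : Continuous (fun q : ℝ × ℝ => (a q.1 - b θ₀) ^ 2) := (ha'.sub continuous_const).pow 2
    rw [swap (fun φ _ => (a φ - b θ₀) ^ 2) ham, intervalIntegral.integral_const, smul_eq_mul]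
  have ham : Continuous (fun q : ℝ × ℝ => (a q.1 - b θ₀) ^ 2) := (ha'.sub continuous_const).pow 2
  have hFm : Continuous (fun q : ℝ × ℝ => (F q.1 q.2 - b θ₀) ^ 2) :=
    (hF.sub continuous_const).pow 2
  refine ⟨b θ₀, ?_⟩
  have h5 := II_mono (fun φ θ => (F φ θ - b θ₀) ^ 2)
    (fun φ θ => 2 * (F φ θ - a φ) ^ 2 + 2 * (a φ - b θ₀) ^ 2) hFm
    ((hFa.const_mul 2).add (ham.const_mul 2))
    (fun φ θ => by nlinarith [sq_nonneg ((F φ θ - a φ) - (a φ - b θ₀))])
  rw [II_lin (fun φ θ => (F φ θ - a φ) ^ 2) (fun φ _ => (a φ - b θ₀) ^ 2) hFa ham] at h5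
  rw [h3] at hθ₀
  linarith

end Pool.Agent.Lib.MP441052
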