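import Pool.Agent.Lib.MP_441052_gt.Spec

set_option autoImplicit false

/-!
# Module VAL: values of the quadratic form
-/

namespace Pool.Agent.Lib.MP441052

namespace VALM

lemma pr_self (p : Pt) : pr p p = 0 := by
  simp [pr, sq]

lemma bil_zero (A : Matrix (Fin 3) (Fin 3) ℝ) : bil A 0 0 = 0 := by
  simp [bil, co, Fin.sum_univ_three]

lemma ip_comm (p q : Pt) : ip p q = ip q p := by
  simp only [ip]; ring

lemma ip_nonneg (p : Pt) : 0 ≤ ip p p := by
  simp only [ip]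
  nlinarith [mul_self_nonneg p.1, mul_self_nonneg p.2.1, mul_self_nonneg p.2.2]

/-- The squeezed value. -/
lemma squeeze {s N δ : ℝ} (hs0 : 0 ≤ s) (hs : s ≤ 1) (hN : 0 ≤ N) (hδ : 0 < δ) :
    (1 + N / δ ^ 2) * (s * N) - s * ((1 + (1 + N / δ ^ 2)) / (δ ^ 2 * (1 + N / δ ^ 2))) * (N * N) ≤
      δ ^ 2 := by
  have hδ2 : 0 < δ ^ 2 := by positivity
  have ha : 0 < 1 + N / δ ^ 2 := by positivity
  have h1 : (1 + N / δ ^ 2) * (s * N) -
      s * ((1 + (1 + N / δ ^ 2)) / (δ ^ 2 * (1 + N / δ ^ 2))) * (N * N) =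
      s * (N / (1 + N / δ ^ 2)) := by
    have hx : (δ ^ 2 + N) ≠ 0 := by positivity
    field_simp
    ring
  rw [h1]
  have h2 : N / (1 + N / δ ^ 2) ≤ δ ^ 2 := by
    rw [div_le_iff₀ ha]
    have : δ ^ 2 * (1 + N / δ ^ 2) = δ ^ 2 + N := by
      field_simp
    rw [this]
    linarith
  have h3 : 0 ≤ N / (1 + N / δ ^ 2) := by positivity
  nlinarith

lemma layer (hFRM : SpecFRM) (G₀ : RiemMetric) (δ τ : ℝ) (p Y : Pt) (hδ : 0 < δ)
    (hb : be (sq p) = 0) (hc : chb (sq p) = 0) (hX : XX p = Y) (hpY : ip p Y = 0)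
    (hs : sq p ≤ 1) : bil (gm G₀ δ τ p) Y Y ≤ δ ^ 2 := by
  rw [hFRM, hb, hc, hpY, hX]
  have h := squeeze (s := sq p) (N := ip Y Y) (ip_nonneg p) hs (ip_nonneg Y) hδ
  have : aa δ p = 1 + ip Y Y / δ ^ 2 := by rw [aa, hX]
  rw [ka, this]
  linarith

end VALM

open VALM in
theorem specVAL (hCUT : SpecCUT) (hFRM : SpecFRM) : SpecVAL := by
  obtain ⟨_, _, hbe0, hch0, hch1, hpX, _, _, hX1, hX2⟩ := hCUT
  intro G₀ δ τ p hδ
  refine ⟨fun hp => ?_, fun h1 h2 => ?_, fun h1 h2 => ?_, fun hp v w hv hw => ?_⟩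
  · have hxp : ip (XX p) p = 0 := by rw [ip_comm]; exact hpX p
    rw [hFRM, hbe0 _ hp, pr_self, bil_zero, hxp]
    simp only [sq]
    ring
  · have hX := hX1 p h1 h2
    exact layer hFRM G₀ δ τ p (X1 p) hδ (hbe0 _ (by linarith)) (hch0 _ (by linarith)) hX
      (by rw [← hX]; exact hpX p) (by linarith)
  · have hX := hX2 p h1 h2
    exact layer hFRM G₀ δ τ p (X2 p) hδ (hbe0 _ (by linarith)) (hch0 _ (by linarith)) hX
      (by rw [← hX]; exact hpX p) (by linarith)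
  · have hv' : pr p v = v := by simp [pr, hp, hv]
    have hw' : pr p w = w := by simp [pr, hp, hw]
    rw [hFRM, hbe0 _ (by rw [hp]; norm_num), hch1 _ (by rw [hp]; norm_num), hv', hw', hv, hw]
    ring

end Pool.Agent.Lib.MP441052
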