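import Pool.Agent.Lib.MP_441052_gt.Spec

set_option autoImplicit false

/-!
# Module VOL: the volume can be prescribed
-/

namespace Pool.Agent.Lib.MP441052

open MeasureTheory Set Filter
open scoped ContDiff Topology

namespace VOLM

theorem continuous_sq : Continuous sq := by
  unfold sq ip
  fun_prop

theorem isCompact_ball3 : IsCompact ball3 := by
  have hcl : IsClosed ball3 := isClosed_le continuous_sq continuous_const
  refine (isCompact_Icc (a := ((-1, -1, -1) : Pt)) (b := ((1, 1, 1) : Pt))).of_isClosed_subset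
    hcl ?_
  rintro ⟨x, y, z⟩ h
  have h' : x * x + y * y + z * z ≤ 1 := h
  simp only [mem_Icc, Prod.mk_le_mk]
  refine ⟨⟨?_, ?_, ?_⟩, ?_, ?_, ?_⟩ <;>
    nlinarith [mul_self_nonneg x, mul_self_nonneg y, mul_self_nonneg z]

theorem sq_nonneg' (p : Pt) : 0 ≤ sq p := by
  unfold sq ip
  nlinarith [mul_self_nonneg p.1, mul_self_nonneg p.2.1, mul_self_nonneg p.2.2]

theorem gm_entry (G₀ : RiemMetric) (δ τ : ℝ) (p : Pt) (i j : Fin 3) :
    gm G₀ δ τ p i j = τ * be (sq p) * (1 : Matrix (Fin 3) (Fin 3) ℝ) i j + gm G₀ δ 0 p i j := by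
  unfold gm
  simp only [Matrix.add_apply, Matrix.smul_apply, smul_eq_mul]
  ring

theorem cont_joint (hSMO : SpecSMO) (G₀ : RiemMetric) {δ : ℝ} (hδ : 0 < δ) :
    Continuous (fun q : ℝ × Pt => √ (gm G₀ δ q.1 q.2).det) := by
  refine Real.continuous_sqrt.comp (Continuous.matrix_det ?_)
  refine continuous_matrix fun i j => ?_
  have h0 : Continuous (fun p => gm G₀ δ 0 p i j) := (hSMO G₀ δ 0 hδ i j).continuous
  have hb : Continuous be := by
    unfold be
    exact Real.smoothTransition.continuous.comp (by fun_prop)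
  have h1 : Continuous (fun q : ℝ × Pt => q.1 * be (sq q.2) * (1 : Matrix (Fin 3) (Fin 3) ℝ) i j
      + gm G₀ δ 0 q.2 i j) :=
    ((continuous_fst.mul (hb.comp (continuous_sq.comp continuous_snd))).mul
      continuous_const).add (h0.comp continuous_snd)
  exact h1.congr fun q => (gm_entry G₀ δ q.1 q.2 i j).symm

/-- The volume. -/
noncomputable def W (G₀ : RiemMetric) (δ τ : ℝ) : ℝ := ∫ p in ball3, √ (gm G₀ δ τ p).det

theorem cont_W (hSMO : SpecSMO) (G₀ : RiemMetric) {δ : ℝ} (hδ : 0 < δ) :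
    Continuous (W G₀ δ) := by
  unfold W
  exact continuous_parametric_integral_of_continuous (f := fun τ p => √ (gm G₀ δ τ p).det)
    (cont_joint hSMO G₀ hδ) isCompact_ball3

theorem cont_one (hSMO : SpecSMO) (G₀ : RiemMetric) {δ : ℝ} (hδ : 0 < δ) (τ : ℝ) :
    Continuous (fun p => √ (gm G₀ δ τ p).det) := by
  have h1 : Continuous (fun p : Pt => ((τ, p) : ℝ × Pt)) := Continuous.prodMk_right τ
  have h := (cont_joint hSMO G₀ hδ).comp h1
  exact h

theorem upper (hCUT : SpecCUT) (hDET : SpecDET) (G₀ : RiemMetric) {C δ : ℝ} (hδ : 0 < δ)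
    (hδ1 : δ ≤ 1) (hC : ∀ p, 1 / 4 ≤ sq p → sq p ≤ 1 → DD G₀ p ≤ C) (p : Pt) (hp : p ∈ ball3) :
    √ (gm G₀ δ (δ ^ 2) p).det ≤ (4 + √ C) * δ := by
  have hs1 : sq p ≤ 1 := hp
  have hs0 := sq_nonneg' p
  have hCn := Real.sqrt_nonneg C
  rcases le_total (1 / 4) (sq p) with h | h
  · rw [(hDET G₀ δ (δ ^ 2) p hδ).1 h, Real.sqrt_mul (sq_nonneg δ), Real.sqrt_sq hδ.le]
    have := Real.sqrt_le_sqrt (hC p h hs1)
    nlinarith
  · rw [(hDET G₀ δ (δ ^ 2) p hδ).2 h]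
    obtain ⟨hb0, hb1, -, -⟩ := hCUT.1 (sq p)
    have hd1 : δ ^ 2 ≤ 1 := by nlinarith
    have hd0 : 0 < δ ^ 2 := by positivity
    have hx0 : 0 ≤ δ ^ 2 * be (sq p) := by positivity
    have hx1 : δ ^ 2 * be (sq p) ≤ δ ^ 2 := by nlinarith
    have h1 : (δ ^ 2 * be (sq p) + sq p) ^ 2 ≤ 4 := by nlinarith
    have h2 : δ ^ 2 * be (sq p) + δ ^ 2 * sq p ≤ 4 * δ ^ 2 := by nlinarith
    have h3 : 0 ≤ δ ^ 2 * be (sq p) + δ ^ 2 * sq p := by positivity
    have h4 : (δ ^ 2 * be (sq p) + sq p) ^ 2 * (δ ^ 2 * be (sq p) + δ ^ 2 * sq p) ≤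
        (4 * δ) ^ 2 := by
      calc (δ ^ 2 * be (sq p) + sq p) ^ 2 * (δ ^ 2 * be (sq p) + δ ^ 2 * sq p) ≤
            4 * (4 * δ ^ 2) := mul_le_mul h1 h2 h3 (by norm_num)
        _ = (4 * δ) ^ 2 := by ring
    calc √ ((δ ^ 2 * be (sq p) + sq p) ^ 2 * (δ ^ 2 * be (sq p) + δ ^ 2 * sq p)) ≤
          √ ((4 * δ) ^ 2) := Real.sqrt_le_sqrt h4
      _ = 4 * δ := Real.sqrt_sq (by positivity)
      _ ≤ (4 + √ C) * δ := by nlinarith

theorem lower (hCUT : SpecCUT) (hDET : SpecDET) (G₀ : RiemMetric) {δ τ : ℝ} (hδ : 0 < δ)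
    (hτ : 1 ≤ τ) (p : Pt) (hp : sq p ≤ 1 / 8) : τ ≤ √ (gm G₀ δ τ p).det := by
  have hs0 := sq_nonneg' p
  rw [(hDET G₀ δ τ p hδ).2 (by linarith), hCUT.2.1 (sq p) hp]
  refine Real.le_sqrt_of_sq_le ?_
  have h1 : τ ^ 2 ≤ (τ * 1 + sq p) ^ 2 := by nlinarith
  have h2 : 1 ≤ τ * 1 + δ ^ 2 * sq p := by nlinarith [mul_nonneg (sq_nonneg δ) hs0]
  calc τ ^ 2 = τ ^ 2 * 1 := by ring
    _ ≤ (τ * 1 + sq p) ^ 2 * (τ * 1 + δ ^ 2 * sq p) :=
      mul_le_mul h1 h2 (by norm_num) (sq_nonneg _)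

end VOLM

theorem specVOL (hCUT : SpecCUT) (hSMO : SpecSMO) (hDET : SpecDET) (hDBD : SpecDBD) :
    SpecVOL := by
  intro G₀ V hV
  obtain ⟨-, c, C, -, hcC⟩ := hDBD G₀
  have hfin : volume ball3 < ⊤ := VOLM.isCompact_ball3.measure_lt_top
  have hmeas : MeasurableSet ball3 := VOLM.isCompact_ball3.measurableSet
  set M : ℝ := volume.real ball3 with hM
  have hM0 : 0 ≤ M := measureReal_nonneg
  set C' : ℝ := 4 + √ C with hC'
  have hC'0 : 0 < C' := by
    have := Real.sqrt_nonneg C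
    linarith
  have hCM : 0 ≤ C' * M := by positivity
  set S : Set Pt := {p | sq p ≤ 1 / 8} with hS
  have hSB : S ⊆ ball3 := fun p hp => by
    have h : sq p ≤ 1 / 8 := hp
    show sq p ≤ 1
    linarith
  have hSmeas : MeasurableSet S :=
    (isClosed_le VOLM.continuous_sq continuous_const).measurableSet
  have hSfin : volume S < ⊤ := lt_of_le_of_lt (measure_mono hSB) hfin
  have hSpos : 0 < volume.real S := by
    have hop : IsOpen {p : Pt | sq p < 1 / 8} := isOpen_lt VOLM.continuous_sq continuous_const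
    have hne : ({p : Pt | sq p < 1 / 8}).Nonempty := ⟨0, by simp [sq, ip]⟩
    have h1 : 0 < volume {p : Pt | sq p < 1 / 8} := hop.measure_pos volume hne
    have h2 : volume {p : Pt | sq p < 1 / 8} ≤ volume S := by
      refine measure_mono fun p hp => ?_
      have h : sq p < 1 / 8 := hp
      exact h.le
    exact ENNReal.toReal_pos (lt_of_lt_of_le h1 h2).ne' hSfin.ne
  refine ⟨min 1 (V / (C' * M + 1)), lt_min one_pos (by positivity), ?_⟩
  intro δ hδ hδ0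
  have hδ1 : δ ≤ 1 := hδ0.trans (min_le_left _ _)
  have hδ2 : δ ≤ V / (C' * M + 1) := hδ0.trans (min_le_right _ _)
  have hint : ∀ τ, IntegrableOn (fun p => √ (gm G₀ δ τ p).det) ball3 := fun τ =>
    (VOLM.cont_one hSMO G₀ hδ τ).continuousOn.integrableOn_compact VOLM.isCompact_ball3
  set τ₁ : ℝ := max 1 (V / volume.real S) with hτ₁
  have hτ1 : 1 ≤ τ₁ := le_max_left _ _
  have hup : VOLM.W G₀ δ (δ ^ 2) ≤ V := by
    have h1 : VOLM.W G₀ δ (δ ^ 2) ≤ ∫ _p in ball3, C' * δ := by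
      refine setIntegral_mono_on (hint _) (integrableOn_const hfin.ne) hmeas ?_
      intro p hp
      exact VOLM.upper hCUT hDET G₀ hδ hδ1 (fun q h h' => (hcC q h h').2) p hp
    rw [setIntegral_const, smul_eq_mul] at h1
    have h2 : δ * (C' * M + 1) ≤ V := (le_div_iff₀ (by positivity)).1 hδ2
    have h3 : volume.real ball3 * (C' * δ) = δ * (C' * M) := by rw [hM]; ring
    nlinarith
  have hlo : V ≤ VOLM.W G₀ δ τ₁ := by
    have h1 : ∫ _p in S, τ₁ ≤ ∫ p in S, √ (gm G₀ δ τ₁ p).det := by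
      refine setIntegral_mono_on (integrableOn_const hSfin.ne) ((hint _).mono_set hSB) hSmeas ?_
      intro p hp
      exact VOLM.lower hCUT hDET G₀ hδ hτ1 p hp
    have h2 : ∫ p in S, √ (gm G₀ δ τ₁ p).det ≤ VOLM.W G₀ δ τ₁ := by
      refine setIntegral_mono_set (hint _) ?_ (Filter.Eventually.of_forall hSB)
      exact Filter.Eventually.of_forall fun p => Real.sqrt_nonneg _
    rw [setIntegral_const, smul_eq_mul] at h1
    have h3 : V / volume.real S ≤ τ₁ := le_max_right _ _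
    have h4 : V ≤ τ₁ * volume.real S := (div_le_iff₀ hSpos).1 h3
    nlinarith
  have hle : δ ^ 2 ≤ τ₁ := by nlinarith
  obtain ⟨τ, hτ, hτV⟩ := intermediate_value_Icc hle
    (VOLM.cont_W hSMO G₀ hδ).continuousOn ⟨hup, hlo⟩
  exact ⟨τ, lt_of_lt_of_le (by positivity) hτ.1, hτV⟩

end Pool.Agent.Lib.MP441052
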