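import Pool.Agent.Lib.MP_441052_gt.CUT
import Pool.Agent.Lib.MP_441052_gt.FRM
import Pool.Agent.Lib.MP_441052_gt.SMO
import Pool.Agent.Lib.MP_441052_gt.PDM
import Pool.Agent.Lib.MP_441052_gt.VAL
import Pool.Agent.Lib.MP_441052_gt.DET
import Pool.Agent.Lib.MP_441052_gt.DBD
import Pool.Agent.Lib.MP_441052_gt.VOL
import Pool.Agent.Lib.MP_441052_gt.CSI
import Pool.Agent.Lib.MP_441052_gt.EDN
import Pool.Agent.Lib.MP_441052_gt.POL
import Pool.Agent.Lib.MP_441052_gt.ENG
import Pool.Agent.Lib.MP_441052_gt.DER
import Pool.Agent.Lib.MP_441052_gt.RAD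
import Pool.Agent.Lib.MP_441052_gt.SLI
import Pool.Agent.Lib.MP_441052_gt.THE
import Pool.Agent.Lib.MP_441052_gt.HAR
import Pool.Agent.Lib.MP_441052_gt.PHI
import Pool.Agent.Lib.MP_441052_gt.TWO
import Pool.Agent.Lib.MP_441052_gt.ANA
import Pool.Agent.Lib.MP_441052_gt.ARE
import Pool.Agent.Lib.MP_441052_gt.SIG
import Pool.Agent.Lib.MP_441052_gt.FIN

set_option autoImplicit false

/-!
# Large first Steklov eigenvalue on the ball: assembly of the modules
-/

namespace Pool.Agent.Lib.MP441052

/-- The theorem, from the modules. -/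
theorem main : SpecFIN :=
  have cut := specCUT
  have frm := specFRM
  have smo := specSMO
  have pdm := specPDM cut frm
  have val := specVAL cut frm
  have det := specDET cut
  have dbd := specDBD cut
  have vol := specVOL cut smo det dbd
  have edn := specEDN pdm val det dbd specCSI
  have eng := specENG smo pdm edn specPOL
  have sli := specSLI
  have ana := specANA specRAD sli specTHE (specPHI specHAR) (specTWO sli)
  specFIN smo pdm val vol eng specDER ana (specSIG specARE)

end Pool.Agent.Lib.MP441052
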