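import Pool.Agent.Lib.MP_441052_gt.Spec

set_option autoImplicit false

namespace Pool.Agent.Lib.MP441052

open MeasureTheory Set Filter
open scoped ContDiff Topology

namespace RADM

/-- Cauchy-Schwarz on an interval. -/
theorem cs (g : ℝ → ℝ) (hg : Continuous g) (a b : ℝ) (hab : a ≤ b) :
    (∫ x in a..b, g x) ^ 2 ≤ (b - a) * ∫ x in a..b, g x ^ 2 := by
  set I := ∫ x in a..b, g x with hI
  set J := ∫ x in a..b, g x ^ 2 with hJ
  rcases hab.eq_or_lt with h | h
  · subst h
    simp [hI]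
  · have h1 : 0 ≤ ∫ x in a..b, ((b - a) * g x - I) ^ 2 :=
      intervalIntegral.integral_nonneg hab fun x _ => sq_nonneg _
    have h2 : ∫ x in a..b, ((b - a) * g x - I) ^ 2 =
        (b - a) ^ 2 * J - 2 * (b - a) * I * I + (b - a) * I ^ 2 := by
      have e : (fun x => ((b - a) * g x - I) ^ 2) =
          fun x => (b - a) ^ 2 * g x ^ 2 - 2 * (b - a) * I * g x + I ^ 2 := by
        funext x; ring
      rw [e, intervalIntegral.integral_add, intervalIntegral.integral_sub,
        intervalIntegral.integral_const_mul, intervalIntegral.integral_const_mul,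
        intervalIntegral.integral_const]
      · simp only [smul_eq_mul, ← hI, ← hJ]
      · exact (Continuous.intervalIntegrable (by fun_prop) _ _)
      · exact (Continuous.intervalIntegrable (by fun_prop) _ _)
      · exact (Continuous.intervalIntegrable (by fun_prop) _ _)
      · exact (Continuous.intervalIntegrable (by fun_prop) _ _)
    rw [h2] at h1
    have h3 : 0 ≤ (b - a) * ((b - a) * J - I ^ 2) := by nlinarith only [h1]
    have h4 : 0 ≤ (b - a) * J - I ^ 2 := nonneg_of_mul_nonneg_right h3 (by linarith)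
    linarith

/-- Exchange of the order of integration for continuous integrands. -/
theorem swap (F : ℝ → ℝ → ℝ) (hF : Continuous (Function.uncurry F)) (a b c d : ℝ) :
    ∫ x in a..b, ∫ y in c..d, F x y = ∫ y in c..d, ∫ x in a..b, F x y := by
  apply MeasureTheory.intervalIntegral_intervalIntegral_swap
  have hc : IsCompact (uIcc a b ×ˢ uIcc c d) := isCompact_uIcc.prod isCompact_uIcc
  exact (hF.continuousOn.integrableOn_compact hc).mono_set
    (prod_mono uIoc_subset_uIcc uIoc_subset_uIcc)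

end RADM

theorem specRAD : SpecRAD := by
  intro U Ur Uφ Uθ hS r hr1 hr2
  obtain ⟨cU, cUr, -, -, dr, -, -⟩ := hS
  have hpi := Real.pi_pos
  -- pointwise bound
  have cr : ∀ φ θ, Continuous fun t => Ur t φ θ := fun φ θ =>
    cUr.comp (by fun_prop : Continuous fun t : ℝ => (t, φ, θ))
  have pt : ∀ φ θ, (U 1 φ θ - U r φ θ) ^ 2 ≤ ∫ t in (1 / 2 : ℝ)..1, Ur t φ θ ^ 2 := by
    intro φ θ
    have ftc : ∫ t in r..1, Ur t φ θ = U 1 φ θ - U r φ θ :=
      intervalIntegral.integral_eq_sub_of_hasDerivAt (fun x _ => dr x φ θ)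
        ((cr φ θ).intervalIntegrable _ _)
    have c := RADM.cs (fun t => Ur t φ θ) (cr φ θ) r 1 hr2
    rw [ftc] at c
    have hsq : Continuous fun t => Ur t φ θ ^ 2 := (cr φ θ).pow 2
    have n : 0 ≤ ∫ t in r..1, Ur t φ θ ^ 2 :=
      intervalIntegral.integral_nonneg hr2 fun x _ => sq_nonneg _
    have m : ∫ t in r..1, Ur t φ θ ^ 2 ≤ ∫ t in (1 / 2 : ℝ)..1, Ur t φ θ ^ 2 := by
      refine intervalIntegral.integral_mono_interval hr1 hr2 le_rfl ?_
        (hsq.intervalIntegrable _ _)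
      exact Filter.Eventually.of_forall fun t => sq_nonneg _
    have : (1 - r) * ∫ t in r..1, Ur t φ θ ^ 2 ≤ 1 * ∫ t in r..1, Ur t φ θ ^ 2 :=
      mul_le_mul_of_nonneg_right (by linarith) n
    linarith
  -- continuity of the integrands
  have cFull : Continuous fun q : ℝ × ℝ × ℝ => Ur q.1 q.2.1 q.2.2 ^ 2 * Real.sin q.2.1 :=
    (cUr.pow 2).mul (by fun_prop)
  have cInner : Continuous fun q : ℝ × ℝ => ∫ t in (1 / 2 : ℝ)..1, Ur t q.1 q.2 ^ 2 := by
    apply intervalIntegral.continuous_parametric_intervalIntegral_of_continuous'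
    have : Continuous fun x : (ℝ × ℝ) × ℝ => Ur x.2 x.1.1 x.1.2 ^ 2 :=
      (cUr.comp (by fun_prop : Continuous fun x : (ℝ × ℝ) × ℝ => (x.2, x.1.1, x.1.2))).pow 2
    exact this
  have cL : Continuous fun q : ℝ × ℝ => (U 1 q.1 q.2 - U r q.1 q.2) ^ 2 * Real.sin q.1 :=
    (((cU.comp (by fun_prop : Continuous fun q : ℝ × ℝ => ((1 : ℝ), q.1, q.2))).sub
      (cU.comp (by fun_prop : Continuous fun q : ℝ × ℝ => (r, q.1, q.2)))).pow 2).mul
      (by fun_prop)
  have cR : Continuous fun q : ℝ × ℝ =>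
      (∫ t in (1 / 2 : ℝ)..1, Ur t q.1 q.2 ^ 2) * Real.sin q.1 :=
    cInner.mul (by fun_prop)
  have step1 : II (fun φ θ => (U 1 φ θ - U r φ θ) ^ 2) ≤
      II (fun φ θ => ∫ t in (1 / 2 : ℝ)..1, Ur t φ θ ^ 2) := by
    unfold II
    have A1 : Continuous (fun φ : ℝ => ∫ θ in (-Real.pi)..Real.pi,
        (U 1 φ θ - U r φ θ) ^ 2 * Real.sin φ) :=
      intervalIntegral.continuous_parametric_intervalIntegral_of_continuous' cL _ _
    have A2 : Continuous (fun φ : ℝ => ∫ θ in (-Real.pi)..Real.pi,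
        (∫ t in (1 / 2 : ℝ)..1, Ur t φ θ ^ 2) * Real.sin φ) :=
      intervalIntegral.continuous_parametric_intervalIntegral_of_continuous' cR _ _
    refine intervalIntegral.integral_mono_on hpi.le (A1.intervalIntegrable _ _)
      (A2.intervalIntegrable _ _) ?_
    intro φ hφ
    have hs : 0 ≤ Real.sin φ := Real.sin_nonneg_of_mem_Icc hφ
    refine intervalIntegral.integral_mono_on (by linarith) ?_ ?_ ?_
    · exact (cL.comp (by fun_prop : Continuous fun θ : ℝ => (φ, θ))).intervalIntegrable _ _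
    · exact (cR.comp (by fun_prop : Continuous fun θ : ℝ => (φ, θ))).intervalIntegrable _ _
    · intro θ _
      exact mul_le_mul_of_nonneg_right (pt φ θ) hs
  refine step1.trans (le_of_eq ?_)
  unfold II
  -- move `t` outside twice
  have e1 : ∀ φ θ : ℝ, (∫ t in (1 / 2 : ℝ)..1, Ur t φ θ ^ 2) * Real.sin φ =
      ∫ t in (1 / 2 : ℝ)..1, Ur t φ θ ^ 2 * Real.sin φ := fun φ θ =>
    (intervalIntegral.integral_mul_const _ _).symm
  have e2 : ∀ φ : ℝ, (∫ θ in (-Real.pi)..Real.pi, (∫ t in (1 / 2 : ℝ)..1, Ur t φ θ ^ 2) *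
      Real.sin φ) = ∫ t in (1 / 2 : ℝ)..1, ∫ θ in (-Real.pi)..Real.pi,
        Ur t φ θ ^ 2 * Real.sin φ := by
    intro φ
    simp only [e1]
    apply RADM.swap (fun θ t => Ur t φ θ ^ 2 * Real.sin φ)
    exact cFull.comp (by fun_prop : Continuous fun x : ℝ × ℝ => (x.2, φ, x.1))
  simp only [e2]
  apply RADM.swap (fun φ t => ∫ θ in (-Real.pi)..Real.pi, Ur t φ θ ^ 2 * Real.sin φ)
  apply intervalIntegral.continuous_parametric_intervalIntegral_of_continuous'
  exact cFull.comp (by fun_prop : Continuous fun x : (ℝ × ℝ) × ℝ => (x.1.2, x.1.1, x.2))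

end Pool.Agent.Lib.MP441052
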