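import Pool.Agent.Lib.MP_441052_gt.Defs

set_option autoImplicit false

/-!
# Large first Steklov eigenvalue on the ball: specification of the modules

THEOREM.  Let `g₀` be a smooth Riemannian metric on the closed unit ball `B³`, `V > 0` and `K` real.
There is a smooth Riemannian metric `g` on `B³` with `g = g₀` on `T S²`, `vol g = V` and
`σ₁(g) ≥ K`.

THE METRIC (matrix `gm G₀ δ τ p` below).  Put `s = |p|²`.  In the shell `s ≥ 1/4` it is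
`δ² p pᵀ + H` with `H p = 0`: the shell has thickness of order `δ`, and the spheres `s = const`
carry the metric `H`.  In two layers (`s ≈ 3/4 .. 13/16` and `s ≈ 3/8 .. 1/2`) the spheres are
squeezed by the factor `1 / (1 + |X|²/δ²)` along a vector field `X` and stretched by the same factor
in the orthogonal direction, with `X = X1` (the rotation field) in the first layer and `X = X2`
(`= - |p| sin φ ∂_φ`) in the second one.  The area form of the spheres is independent of `δ`.  A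
function with energy `E` then has a trace on `S²` which is `O(δE)`-close in `L²` to a function of
`φ` alone (layer 1) and to a function of `θ` alone (layer 2), hence to a constant.  So
`σ₁ ≥ c/δ`, while the volume of the shell is `O(δ)`; the rest of the volume is put near the centre.

CONVENTIONS.  Every module `XXX` is a file `Pool/Agent/Lib/MP_441052_gt/XXX.lean` which imports only
this file and proves `theorem specXXX (hYYY : SpecYYY) .. : SpecXXX` in namespace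
`Pool.Agent.Lib.MP441052`, the hypotheses being those named in the docstring, in this order; private
lemmas in a namespace `XXXM`.
-/

namespace Pool.Agent.Lib.MP441052

open MeasureTheory Set Filter
open scoped ContDiff Topology

/-! ### The metric -/

/-- `s = |p|²`. -/
def sq (p : Pt) : ℝ := ip p p

/-- `1` for `s ≤ 1/8`, `0` for `s ≥ 1/4`. -/
noncomputable def be (s : ℝ) : ℝ := Real.smoothTransition (2 - 8 * s)

/-- `0` for `s ≤ 7/8`, `1` for `s ≥ 15/16`. -/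
noncomputable def chb (s : ℝ) : ℝ := Real.smoothTransition (16 * s - 14)

/-- `1` for `3/4 ≤ s ≤ 13/16`, `0` for `s ≤ 5/8` and for `s ≥ 7/8`. -/
noncomputable def ch1 (s : ℝ) : ℝ :=
  Real.smoothTransition (8 * s - 5) * Real.smoothTransition (14 - 16 * s)

/-- `1` for `3/8 ≤ s ≤ 1/2`, `0` for `s ≤ 1/4` and for `s ≥ 5/8`. -/
noncomputable def ch2 (s : ℝ) : ℝ :=
  Real.smoothTransition (8 * s - 2) * Real.smoothTransition (5 - 8 * s)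

/-- The rotation field `∂_θ`. -/
def X1 (p : Pt) : Pt := (0, -p.2.2, p.2.1)

/-- The field `|p|² e₀ - p₀ p`. -/
def X2 (p : Pt) : Pt := (p.2.1 ^ 2 + p.2.2 ^ 2, -(p.1 * p.2.1), -(p.1 * p.2.2))

/-- The field along which the spheres are squeezed. -/
noncomputable def XX (p : Pt) : Pt := ch1 (sq p) • X1 p + ch2 (sq p) • X2 p

/-- `a = 1 + |X|²/δ²`. -/
noncomputable def aa (δ : ℝ) (p : Pt) : ℝ := 1 + ip (XX p) (XX p) / δ ^ 2

/-- `κ = (1 + a)/(δ² a)`, so that `κ |X|² = a - 1/a`. -/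
noncomputable def ka (δ : ℝ) (p : Pt) : ℝ := (1 + aa δ p) / (δ ^ 2 * aa δ p)

/-- The matrix `v vᵀ`. -/
def outer (v : Pt) : Matrix (Fin 3) (Fin 3) ℝ := Matrix.of fun i j => co v i * co v j

/-- The matrix `|p|² I - p pᵀ`. -/
def Pm (p : Pt) : Matrix (Fin 3) (Fin 3) ℝ := sq p • (1 : Matrix (Fin 3) (Fin 3) ℝ) - outer p

/-- The vector `Pm p v = |p|² v - ⟨p, v⟩ p`. -/
def pr (p v : Pt) : Pt := sq p • v - ip p v • p

/-- The squeezed and stretched metric of the spheres. -/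
noncomputable def MM (δ : ℝ) (p : Pt) : Matrix (Fin 3) (Fin 3) ℝ :=
  aa δ p • Pm p - (sq p * ka δ p) • outer (XX p)

/-- The metric. -/
noncomputable def gm (G₀ : RiemMetric) (δ τ : ℝ) (p : Pt) : Matrix (Fin 3) (Fin 3) ℝ :=
  (τ * be (sq p)) • (1 : Matrix (Fin 3) (Fin 3) ℝ) + δ ^ 2 • outer p +
    (1 - chb (sq p)) • MM δ p + chb (sq p) • (Pm p * G₀.g p * Pm p)

/-- The determinant of `p pᵀ + H`, with `H` without squeezing. -/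
noncomputable def DD (G₀ : RiemMetric) (p : Pt) : ℝ :=
  (outer p + (1 - chb (sq p)) • Pm p + chb (sq p) • (Pm p * G₀.g p * Pm p)).det

/-- Module CUT (60 lines).  PROOF.  `Real.smoothTransition.zero_of_nonpos`, `.one_of_one_le`,
`.nonneg`, `.le_one`; `ip p (X1 p) = 0` and `ip p (X2 p) = 0` by `ring`.  For the last four clauses
note that on the set in question one of `ch1`, `ch2` vanishes and the other one is `1` (or both
vanish). -/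
def SpecCUT : Prop :=
  (∀ s, 0 ≤ be s ∧ be s ≤ 1 ∧ 0 ≤ chb s ∧ chb s ≤ 1) ∧
  (∀ s, s ≤ 1 / 8 → be s = 1) ∧ (∀ s, 1 / 4 ≤ s → be s = 0) ∧
  (∀ s, s ≤ 7 / 8 → chb s = 0) ∧ (∀ s, 15 / 16 ≤ s → chb s = 1) ∧
  (∀ p, ip p (XX p) = 0) ∧
  (∀ p, sq p ≤ 1 / 4 → XX p = 0) ∧ (∀ p, 7 / 8 ≤ sq p → XX p = 0) ∧
  (∀ p, 3 / 4 ≤ sq p → sq p ≤ 13 / 16 → XX p = X1 p) ∧
  (∀ p, 3 / 8 ≤ sq p → sq p ≤ 1 / 2 → XX p = X2 p)

/-- Module FRM (60 lines).  PROOF.  Expand: `bil` is linear in the matrix;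
`bil 1 v w = ip v w`, `bil (outer x) v w = ip x v * ip x w`, and
`bil (Pm p * A * Pm p) v w = bil A (pr p v) (pr p w)` since `Pm p` is symmetric and maps `co v` to
`co (pr p v)`.  (With `Fin.sum_univ_three`, `Matrix.mul_apply` everything is a polynomial identity.)
-/
def SpecFRM : Prop :=
  ∀ (G₀ : RiemMetric) (δ τ : ℝ) (p v w : Pt), bil (gm G₀ δ τ p) v w =
    τ * be (sq p) * ip v w + δ ^ 2 * (ip p v * ip p w) +
    (1 - chb (sq p)) * (aa δ p * (sq p * ip v w - ip p v * ip p w) -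
      sq p * ka δ p * (ip (XX p) v * ip (XX p) w)) +
    chb (sq p) * bil (G₀.g p) (pr p v) (pr p w)

/-- Module SMO (60 lines).  PROOF.  The entries of `gm` are sums and products of smooth functions
(`Real.smoothTransition.contDiff`, polynomials, the entries of `G₀.g`) and of `ka`, a quotient of
smooth functions with denominator `δ² a > 0` (`a ≥ 1`).  `ContDiff.div`. -/
def SpecSMO : Prop :=
  ∀ (G₀ : RiemMetric) (δ τ : ℝ), 0 < δ → ∀ i j, ContDiff ℝ ∞ (fun p => gm G₀ δ τ p i j)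

/-- Module PDM (from CUT, FRM; 120 lines).  PROOF.  Hermitian: clear, as `Pm p`, `outer`, `1` and
`G₀.g p` are symmetric.  Let `v ≠ 0`, `s = sq p`, `q = s |v|² - ⟨p,v⟩² ≥ 0` (Lagrange identity).
By FRM, `vᵀ gm v = τ β |v|² + δ² ⟨p,v⟩² + (1-χ) (a q - s κ ⟨X,v⟩²) + χ bil (G₀.g p) (pr p v) (pr p v)`.
As `⟨p,X⟩ = 0`, `s ⟨X,v⟩² ≤ |X|² q`: indeed
`s|X|²|v|² - s⟨X,v⟩² - |X|²⟨p,v⟩² = det(p,X,v)² - 2⟨p,X⟩⟨X,v⟩⟨p,v⟩ + |v|²⟨p,X⟩²`.
And `κ |X|² = a - 1/a`, so `a q - s κ ⟨X,v⟩² ≥ q/a ≥ 0`.  All four terms are `≥ 0`.  One of them is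
`> 0`: if `s ≤ 1/8`, `β = 1` and `τ |v|² > 0`.  If `s > 1/8` and `q = 0`: `⟨p,v⟩² = s |v|² > 0`.  If
`s > 1/8` and `q > 0`: `(1-χ) q/a > 0` or `χ = 1`, and `pr p v ≠ 0` because
`|pr p v|² = s q > 0`, so `bil (G₀.g p) (pr p v) (pr p v) > 0`.
Use `Matrix.posDef_iff_dotProduct_mulVec`. -/
def SpecPDM : Prop :=
  ∀ (G₀ : RiemMetric) (δ τ : ℝ) (p : Pt), 0 < δ → 0 < τ → (gm G₀ δ τ p).PosDef

/-- Module VAL (from CUT, FRM; 80 lines).  PROOF.  For `s ≥ 1/4`, `β = 0`.  (1) `v = w = p`: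
`s|p|² - ⟨p,p⟩² = 0`, `⟨X,p⟩ = 0`, `pr p p = 0`, so the form is `δ² s²`.  (2), (3) In the layers
`χ = 0`, `X = X_i`, `⟨p,X⟩ = 0`: the form is `a s |X|² - s κ |X|⁴ = s |X|²/a ≤ s δ² ≤ δ²`
(`a ≥ |X|²/δ²`).  (4) At `s = 1`: `β = 0`, `χ = 1`, `⟨p,v⟩ = ⟨p,w⟩ = 0`, `pr p v = v`,
`pr p w = w`. -/
def SpecVAL : Prop :=
  ∀ (G₀ : RiemMetric) (δ τ : ℝ) (p : Pt), 0 < δ →
    (1 / 4 ≤ sq p → bil (gm G₀ δ τ p) p p = δ ^ 2 * sq p ^ 2) ∧
    (3 / 4 ≤ sq p → sq p ≤ 13 / 16 → bil (gm G₀ δ τ p) (X1 p) (X1 p) ≤ δ ^ 2) ∧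
    (3 / 8 ≤ sq p → sq p ≤ 1 / 2 → bil (gm G₀ δ τ p) (X2 p) (X2 p) ≤ δ ^ 2) ∧
    (sq p = 1 → ∀ v w, ip p v = 0 → ip p w = 0 → bil (gm G₀ δ τ p) v w = bil (G₀.g p) v w)

/-- Module DET (from CUT; 120 lines).  PROOF.  Identity (I): for `⟨x,y⟩ = 0`,
`det (c I + t x xᵀ + r y yᵀ) = c (c + t|x|²)(c + r|y|²)` (`Matrix.det_fin_three`; in general the
determinant is `c³ + c²(t|x|²+r|y|²) + c t r (|x|²|y|² - ⟨x,y⟩²)`).
Second clause: `s ≤ 1/4` gives `X = 0`, `χ = 0`, `a = 1`, so `gm = (τβ+s) I + (δ²-1) p pᵀ`.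
First clause, `s ≥ 1/4`, `β = 0`.  If `s ≤ 7/8`: `χ = 0` and `gm = a s I + (δ² - a) p pᵀ - s κ X Xᵀ`
has determinant `a s · δ² s · (a s - s κ |X|²) = a s · δ² s · s/a = δ² s³`, and
`DD = det (s I) = s³`.  If `s ≥ 7/8`: `X = 0`, `a = 1`, `MM = Pm`, `gm = δ² p pᵀ + H` with
`H = (1-χ) Pm + χ Pm G₀ Pm`, `H p = 0` (as `Pm p p = 0`).  So `det H = 0`
(`Matrix.exists_mulVec_eq_zero_iff`, `p ≠ 0`), and `det (H + t p pᵀ) = det H + t · Q(H, p)` with a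
polynomial `Q` (`Matrix.det_fin_three`, `ring`); compare `t = δ²` and `t = 1`. -/
def SpecDET : Prop :=
  ∀ (G₀ : RiemMetric) (δ τ : ℝ) (p : Pt), 0 < δ →
    (1 / 4 ≤ sq p → (gm G₀ δ τ p).det = δ ^ 2 * DD G₀ p) ∧
    (sq p ≤ 1 / 4 → (gm G₀ δ τ p).det =
      (τ * be (sq p) + sq p) ^ 2 * (τ * be (sq p) + δ ^ 2 * sq p))

/-- Module DBD (from CUT; 100 lines).  PROOF.  `DD G₀` is continuous (entries continuous,
`Continuous.matrix_det`).  For `p ≠ 0` the matrix is positive definite: for `v ≠ 0` the form is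
`⟨p,v⟩² + (1-χ) q + χ bil (G₀.g p) (pr p v) (pr p v)`, `q = s|v|² - ⟨p,v⟩² ≥ 0`; if `q = 0` then
`⟨p,v⟩² = s|v|² > 0`; if `q > 0` then `|pr p v|² = s q > 0`, and one of `1-χ`, `χ` is positive.
So `DD G₀ p > 0`, and the set `1/4 ≤ sq p ≤ 1` is compact. -/
def SpecDBD : Prop :=
  ∀ G₀ : RiemMetric, Continuous (DD G₀) ∧
    ∃ c C : ℝ, 0 < c ∧ ∀ p, 1 / 4 ≤ sq p → sq p ≤ 1 → c ≤ DD G₀ p ∧ DD G₀ p ≤ C

/-- Module VOL (from CUT, SMO, DET, DBD; 150 lines).  PROOF.  Let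
`W δ τ = ∫ p in ball3, √ (gm G₀ δ τ p).det`.  For fixed `δ > 0`, `(τ, p) ↦ √ det` is continuous
(entries: `gm G₀ δ τ p i j = τ · (be (sq p) * δ_ij) + gm G₀ δ 0 p i j`), so `W δ` is continuous in
`τ` (`continuous_parametric_integral_of_continuous`, `ball3` compact).  For `δ ≤ 1`, `τ = δ²` and
`p ∈ ball3`: `√ det ≤ C' δ` with `C' = 4 + √C`: for `s ≥ 1/4`, `√ (δ² DD) = δ √DD`; for `s ≤ 1/4`,
`det ≤ (1 + 1/4)² · δ² (1 + 1/4) ≤ 16 δ²`.  So `W δ (δ²) ≤ C' δ vol(ball3)`.  For `s ≤ 1/8` and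
`τ ≥ 1`: `be = 1`, `det ≥ τ³ ≥ τ²`, so `W δ τ ≥ τ · vol{sq p ≤ 1/8}`, which tends to infinity, the
volume of this set being positive (it contains an open neighbourhood of `0`).  Choose `δ₀ ≤ 1` with
`C' δ₀ vol(ball3) ≤ V`; the intermediate value theorem on `[δ², τ₁]` gives `τ`. -/
def SpecVOL : Prop :=
  ∀ (G₀ : RiemMetric) (V : ℝ), 0 < V → ∃ δ₀ : ℝ, 0 < δ₀ ∧ ∀ δ : ℝ, 0 < δ → δ ≤ δ₀ →
    ∃ τ : ℝ, 0 < τ ∧ ∫ p in ball3, √ (gm G₀ δ τ p).det = V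

/-! ### The energy -/

/-- The energy density `|∇u|² √det` of the metric with matrix `A`. -/
noncomputable def eden (A : Matrix (Fin 3) (Fin 3) ℝ) (u : Pt → ℝ) (p : Pt) : ℝ :=
  (∑ i, ∑ j, A⁻¹ i j * fderiv ℝ u p (e i) * fderiv ℝ u p (e j)) * √ A.det

/-- Module CSI (60 lines).  PROOF.  Put `y = A⁻¹ w`.  Then `wᵀ A⁻¹ w = yᵀ A y`,
`⟨w, v⟩ = yᵀ A v`, `A` symmetric.  For `v ≠ 0` let `α = vᵀ A v > 0`, `γ = yᵀ A v`;
`0 ≤ (α y - γ v)ᵀ A (α y - γ v) = α (α yᵀAy - γ²)`.  (For `v = 0` both sides are `0`.) -/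
def SpecCSI : Prop :=
  ∀ A : Matrix (Fin 3) (Fin 3) ℝ, A.PosDef → ∀ (w : Fin 3 → ℝ) (v : Pt),
    0 ≤ ∑ i, ∑ j, A⁻¹ i j * w i * w j ∧
    (∑ i, w i * co v i) ^ 2 ≤ (∑ i, ∑ j, A⁻¹ i j * w i * w j) * bil A v v

/-- Module EDN (from PDM, VAL, DET, DBD, CSI; 80 lines).  PROOF.  `c := √c'`, `c'` from DBD.
`fderiv ℝ u p v = ∑ i, fderiv ℝ u p (e i) * co v i` (linearity).  With
`Q = ∑ ∑ (gm)⁻¹ i j ∂_i u ∂_j u ≥ 0`: by CSI and VAL, `(fderiv ℝ u p v)² ≤ Q · bil (gm) v v ≤ Q δ²`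
for `v = p` (here `δ² s² ≤ δ²`), `X1 p`, `X2 p`; and `√det = δ √(DD) ≥ δ c`.  So
`δ · eden = δ Q √det ≥ Q δ² c ≥ c (fderiv ℝ u p v)²`. -/
def SpecEDN : Prop :=
  ∀ G₀ : RiemMetric, ∃ c : ℝ, 0 < c ∧ ∀ δ τ : ℝ, 0 < δ → 0 < τ → ∀ (u : Pt → ℝ) (p : Pt),
    0 ≤ eden (gm G₀ δ τ p) u p ∧
    (1 / 4 ≤ sq p → sq p ≤ 1 → c * fderiv ℝ u p p ^ 2 ≤ δ * eden (gm G₀ δ τ p) u p) ∧
    (3 / 4 ≤ sq p → sq p ≤ 13 / 16 →
      c * fderiv ℝ u p (X1 p) ^ 2 ≤ δ * eden (gm G₀ δ τ p) u p) ∧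
    (3 / 8 ≤ sq p → sq p ≤ 1 / 2 →
      c * fderiv ℝ u p (X2 p) ^ 2 ≤ δ * eden (gm G₀ δ τ p) u p)

/-- Module POL (150 lines): integration over the ball in spherical coordinates.  PROOF.  Let `g` be
the indicator of `ball3` times `f`, an integrable function.
`∫ g = ∫ z, ∫ (x,y), g (z,(x,y))`.  Polar coordinates in `(x,y)`
(`integral_comp_polarCoord_symm`) give `∫ z, ∫ (ρ,θ) ∈ (0,∞)×(-π,π), ρ g (z, ρ cos θ, ρ sin θ)`;
exchange (Fubini; everything is bounded with bounded support) to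
`∫ θ ∈ (-π,π), ∫ (z,ρ), 1_{ρ>0} ρ g (..)` and use polar coordinates `(z,ρ) = (r cos φ, r sin φ)`:
`ρ > 0` means `φ ∈ (0,π)`, and `|p| = r`, so `p ∈ ball3` means `r ≤ 1`. -/
def SpecPOL : Prop :=
  ∀ f : Pt → ℝ, Continuous f → ∫ p in ball3, f p =
    ∫ r in (0 : ℝ)..1, ∫ φ in (0 : ℝ)..Real.pi, ∫ θ in (-Real.pi)..Real.pi,
      f (r • sph φ θ) * (r ^ 2 * Real.sin φ)

/-- `∫∫ f(φ,θ) sin φ dθ dφ` over the sphere. -/
noncomputable def II (f : ℝ → ℝ → ℝ) : ℝ :=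
  ∫ φ in (0 : ℝ)..Real.pi, ∫ θ in (-Real.pi)..Real.pi, f φ θ * Real.sin φ

/-- Module ENG (from SMO, PDM, EDN, POL; 180 lines).  PROOF.  Let `c'` be the constant of EDN and
`c = c'/16`.  `p ↦ eden (gm G₀ δ τ p) u p` is continuous (entries of the inverse: adjugate divided
by the determinant, which is positive; `fderiv ℝ u` continuous).  By POL,
`E = ∫ r in 0..1, ∫ φ, ∫ θ, eden(r • sph φ θ) r² sin φ`, where the integrand is `≥ 0`; restrict `r`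
to `[1/2,1]`, `[7/8,9/10]`, `[5/8,11/16]`.  `sq (r • sph φ θ) = r²`; `1/4 ≤ r² ≤ 1` on the first
interval, `3/4 ≤ r² ≤ 13/16` on the second, `3/8 ≤ r² ≤ 1/2` on the third.  With
`p = r • sph φ θ`: `p = r • sph`, so `fderiv u p p = r · fderiv u p (sph φ θ)`;
`X1 p = r • sphθ φ θ`; `X2 p = -(r sin φ) • (r • sphφ φ θ)`.  So `δ eden r² sin φ` is at least
`c' r⁴ (fderiv u p sph)² sin φ`, `c' r² (fderiv u p (r • sphθ))² sin φ`,
`c' r⁴ sin² φ (fderiv u p (r • sphφ))² sin φ` respectively, and `r⁴ ≥ 1/16`. -/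
def SpecENG : Prop :=
  ∀ G₀ : RiemMetric, ∃ c : ℝ, 0 < c ∧ ∀ δ τ : ℝ, 0 < δ → 0 < τ → ∀ u : Pt → ℝ, ContDiff ℝ 1 u →
    (c * ∫ r in (1 / 2 : ℝ)..1, II (fun φ θ => fderiv ℝ u (r • sph φ θ) (sph φ θ) ^ 2)) ≤
      δ * ∫ p in ball3, eden (gm G₀ δ τ p) u p ∧
    (c * ∫ r in (7 / 8 : ℝ)..(9 / 10),
      II (fun φ θ => fderiv ℝ u (r • sph φ θ) (r • sphθ φ θ) ^ 2)) ≤
      δ * ∫ p in ball3, eden (gm G₀ δ τ p) u p ∧
    (c * ∫ r in (5 / 8 : ℝ)..(11 / 16),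
      II (fun φ θ => Real.sin φ ^ 2 * fderiv ℝ u (r • sph φ θ) (r • sphφ φ θ) ^ 2)) ≤
      δ * ∫ p in ball3, eden (gm G₀ δ τ p) u p

/-! ### Analysis in spherical coordinates -/

/-- `U(r,φ,θ)` is `C¹` with partial derivatives `Ur`, `Uφ`, `Uθ`. -/
def Smooth3 (U Ur Uφ Uθ : ℝ → ℝ → ℝ → ℝ) : Prop :=
  Continuous (fun q : ℝ × ℝ × ℝ => U q.1 q.2.1 q.2.2) ∧
  Continuous (fun q : ℝ × ℝ × ℝ => Ur q.1 q.2.1 q.2.2) ∧
  Continuous (fun q : ℝ × ℝ × ℝ => Uφ q.1 q.2.1 q.2.2) ∧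
  Continuous (fun q : ℝ × ℝ × ℝ => Uθ q.1 q.2.1 q.2.2) ∧
  (∀ r φ θ, HasDerivAt (fun t => U t φ θ) (Ur r φ θ) r) ∧
  (∀ r φ θ, HasDerivAt (fun t => U r t θ) (Uφ r φ θ) φ) ∧
  (∀ r φ θ, HasDerivAt (fun t => U r φ t) (Uθ r φ θ) θ)

/-- Module DER (60 lines).  PROOF.  Chain rule: `t ↦ t • sph φ θ` has derivative `sph φ θ`,
`t ↦ r • sph t θ` has derivative `r • sphφ φ θ`, `t ↦ r • sph φ t` has derivative `r • sphθ φ θ`;
`HasFDerivAt.comp_hasDerivAt`.  Continuity: `fderiv ℝ u` is continuous. -/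
def SpecDER : Prop :=
  ∀ u : Pt → ℝ, ContDiff ℝ 1 u → Smooth3 (fun r φ θ => u (r • sph φ θ))
    (fun r φ θ => fderiv ℝ u (r • sph φ θ) (sph φ θ))
    (fun r φ θ => fderiv ℝ u (r • sph φ θ) (r • sphφ φ θ))
    (fun r φ θ => fderiv ℝ u (r • sph φ θ) (r • sphθ φ θ))

/-- Module RAD (80 lines).  PROOF.  `U 1 φ θ - U r φ θ = ∫ t in r..1, Ur t φ θ`, so by
Cauchy-Schwarz its square is at most `(1-r) ∫ t in r..1, Ur² ≤ ∫ t in 1/2..1, Ur t φ θ ^ 2`.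
Multiply by `sin φ ≥ 0`, integrate over `θ`, `φ` and exchange the order of integration (all
integrands are continuous; `intervalIntegral_integral_interchange`). -/
def SpecRAD : Prop :=
  ∀ U Ur Uφ Uθ : ℝ → ℝ → ℝ → ℝ, Smooth3 U Ur Uφ Uθ → ∀ r : ℝ, 1 / 2 ≤ r → r ≤ 1 →
    II (fun φ θ => (U 1 φ θ - U r φ θ) ^ 2) ≤
      ∫ t in (1 / 2 : ℝ)..1, II (fun φ θ => Ur t φ θ ^ 2)

/-- Module SLI (60 lines).  PROOF.  (1) The mean value: otherwise `(b-a) h(r) > ∫ h` for all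
`r ∈ [a,b]`, integrate (or take `r` a minimum point of `h` on `[a,b]`).  (2) `II` of a function
depending continuously on a parameter is continuous in the parameter
(`intervalIntegral.continuous_parametric_intervalIntegral_of_continuous'` twice). -/
def SpecSLI : Prop :=
  (∀ (h : ℝ → ℝ) (a b : ℝ), Continuous h → a < b →
    ∃ r ∈ Icc a b, (b - a) * h r ≤ ∫ t in a..b, h t) ∧
  (∀ F : ℝ → ℝ → ℝ → ℝ, Continuous (fun q : ℝ × ℝ × ℝ => F q.1 q.2.1 q.2.2) →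
    Continuous (fun r => II (F r)))

/-- Module THE (70 lines).  PROOF.  For `|θ| ≤ π`, `(f φ θ - f φ 0)² ≤ |θ| |∫ t in 0..θ, fθ²| ≤
π ∫ t in -π..π, fθ φ t ^ 2`.  Multiply by `sin φ ≥ 0` and integrate over `θ ∈ [-π,π]` (the right
side does not depend on `θ`) and `φ ∈ [0,π]`. -/
def SpecTHE : Prop :=
  ∀ f f' : ℝ → ℝ → ℝ, Continuous (fun q : ℝ × ℝ => f q.1 q.2) →
    Continuous (fun q : ℝ × ℝ => f' q.1 q.2) → (∀ φ θ, HasDerivAt (fun t => f φ t) (f' φ θ) θ) →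
    II (fun φ θ => (f φ θ - f φ 0) ^ 2) ≤ 2 * Real.pi ^ 2 * II (fun φ θ => f' φ θ ^ 2)

/-- Module HAR (90 lines): a Hardy inequality.  PROOF.  Replace `w` by `w - w(π/2)`, so that
`w(π/2) = 0`.  On `[0,π/2]`: `((1 - cos φ) w²)' = sin φ w² + 2 (1 - cos φ) w w'`, and the boundary
terms vanish, so `0 = ∫ sin φ w² + 2 (1 - cos φ) w w'`.  Here `0 ≤ 1 - cos φ ≤ sin² φ`, so
`|2 (1 - cos φ) w w'| ≤ 2 sin² φ |w| |w'| ≤ (1/2) sin φ w² + 2 sin³ φ w'²`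
(`(sin φ/2)(|w| - 2 sin φ |w'|)² ≥ 0`).  Hence `∫ sin φ w² ≤ 4 ∫ sin³ φ w'²` on `[0,π/2]`.  On
`[π/2,π]` use `-(1 + cos φ) w²`, with derivative `sin φ w² - 2 (1 + cos φ) w w'`, and
`1 + cos φ ≤ sin² φ` (or apply the first case to `w(π - φ)`). -/
def SpecHAR : Prop :=
  ∀ w w' : ℝ → ℝ, Continuous w' → (∀ φ, HasDerivAt w (w' φ) φ) →
    ∫ φ in (0 : ℝ)..Real.pi, (w φ - w (Real.pi / 2)) ^ 2 * Real.sin φ ≤
      4 * ∫ φ in (0 : ℝ)..Real.pi, Real.sin φ ^ 2 * w' φ ^ 2 * Real.sin φ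

/-- Module PHI (from HAR; 40 lines).  PROOF.  Exchange the integrals in both sides
(`intervalIntegral_integral_interchange`, continuous integrands) and apply HAR for every `θ`. -/
def SpecPHI : Prop :=
  ∀ f f' : ℝ → ℝ → ℝ, Continuous (fun q : ℝ × ℝ => f q.1 q.2) →
    Continuous (fun q : ℝ × ℝ => f' q.1 q.2) → (∀ φ θ, HasDerivAt (fun t => f t θ) (f' φ θ) φ) →
    II (fun φ θ => (f φ θ - f (Real.pi / 2) θ) ^ 2) ≤
      4 * II (fun φ θ => Real.sin φ ^ 2 * f' φ θ ^ 2)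

/-- Module TWO (from SLI; 90 lines).  PROOF.  `(a(φ) - b(θ))² ≤ 2 (F-a)² + 2 (F-b)²`, so
`II (a - b)² ≤ 2A + 2B`.  `II (a-b)² = ∫ θ in -π..π, h θ` with
`h θ = ∫ φ in 0..π, (a φ - b θ)² sin φ` continuous; by SLI (1) there is `θ₀ ∈ [-π,π]` with
`2π h θ₀ ≤ 2A + 2B`.  Put `m = b θ₀`: `(F - m)² ≤ 2 (F - a)² + 2 (a - m)²` and
`II (a - m)² = 2π h θ₀`.  So `II (F - m)² ≤ 2A + 2 (2A + 2B) = 6A + 4B`. -/
def SpecTWO : Prop :=
  ∀ (F : ℝ → ℝ → ℝ) (a b : ℝ → ℝ) (A B : ℝ), Continuous (fun q : ℝ × ℝ => F q.1 q.2) →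
    Continuous a → Continuous b → II (fun φ θ => (F φ θ - a φ) ^ 2) ≤ A →
    II (fun φ θ => (F φ θ - b θ) ^ 2) ≤ B →
    ∃ m : ℝ, II (fun φ θ => (F φ θ - m) ^ 2) ≤ 6 * A + 4 * B

/-- Module ANA (from RAD, SLI, THE, PHI, TWO; 120 lines).  PROOF.  By SLI there are
`r₁ ∈ [7/8,9/10]` and `r₂ ∈ [5/8,11/16]` with `II (Uθ r₁)² ≤ 40 κ` and
`II (sin² Uφ(r₂)²) ≤ 16 κ`.  Let `a φ = U r₁ φ 0`, `b θ = U r₂ (π/2) θ`, `F = U 1`.  By RAD,
`II (F - U r_i)² ≤ κ`; by THE, `II (U r₁ - a)² ≤ 80 π² κ ≤ 800 κ` (`π² < 10`); by PHI,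
`II (U r₂ - b)² ≤ 64 κ`.  With `(x+y)² ≤ 2x² + 2y²`: `II (F - a)² ≤ 1602 κ`,
`II (F - b)² ≤ 130 κ`.  TWO: `6·1602 + 4·130 = 10132 ≤ 20000` (`κ ≥ 0`, being at least the
integral of a nonnegative function). -/
def SpecANA : Prop :=
  ∀ (U Ur Uφ Uθ : ℝ → ℝ → ℝ → ℝ) (κ : ℝ), Smooth3 U Ur Uφ Uθ →
    (∫ r in (1 / 2 : ℝ)..1, II (fun φ θ => Ur r φ θ ^ 2)) ≤ κ →
    (∫ r in (7 / 8 : ℝ)..(9 / 10), II (fun φ θ => Uθ r φ θ ^ 2)) ≤ κ →
    (∫ r in (5 / 8 : ℝ)..(11 / 16), II (fun φ θ => Real.sin φ ^ 2 * Uφ r φ θ ^ 2)) ≤ κ →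
    ∃ m : ℝ, II (fun φ θ => (U 1 φ θ - m) ^ 2) ≤ 20000 * κ

/-! ### The boundary -/

/-- Module ARE (120 lines).  PROOF.  `sphθ φ θ = sin φ • T θ` with `T θ = (0, -sin θ, cos θ)`, so
`bdens = √ (sin² φ W) = |sin φ| √W` with
`W φ θ = g(Pφ,Pφ) g(T,T) - g(Pφ,T)²` (at the point `sph φ θ`, `Pφ = sphφ φ θ`), continuous in
`(φ,θ)`.  `W > 0`: `y = g(T,T) Pφ - g(Pφ,T) T` is not zero, as `⟨y, Pφ⟩ = g(T,T) > 0` (`Pφ`, `T`
are orthonormal), and `0 < g(y,y) = g(T,T) W`.  On the compact rectangle `W` has a positive minimum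
and a maximum; take square roots. -/
def SpecARE : Prop :=
  ∀ G : RiemMetric, Continuous (fun q : ℝ × ℝ => G.bdens q.1 q.2) ∧
    ∃ c C : ℝ, 0 < c ∧ 0 < C ∧ ∀ φ ∈ Icc (0 : ℝ) Real.pi, ∀ θ ∈ Icc (-Real.pi) Real.pi,
      c * Real.sin φ ≤ G.bdens φ θ ∧ G.bdens φ θ ≤ C * Real.sin φ

/-- Module SIG (from ARE; 180 lines).  PROOF.  `sph φ θ ∈ sphere2` and `sphφ`, `sphθ` are
orthogonal to it, so `SameBoundary` gives `G.bdens = G₀.bdens`.  Let `c`, `C` be the constants of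
ARE for `G₀`; this `C` works.  The set of quotients is nonempty: `area > 0`, put
`m₀ = intB (p ↦ p.1)/area` and `u p = p.1 - m₀`; `intB u = 0` and
`intB u² ≥ c II (cos φ - m₀)² = 2π c ∫ (cos φ - m₀)² sin φ = 2π c (2/3 + 2 m₀²) > 0`.  Let `u` be
admissible and `m` as in the hypothesis.  `intB (u-m)² = intB u² - 2 m intB u + m² area ≥ intB u²`
and `intB (u-m)² ≤ C II (u-m)² ≤ C energy/A`.  As `intB u² > 0` (it is `≥ 0` and `≠ 0`),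
`A/C ≤ energy/intB u²`.  `le_csInf`. -/
def SpecSIG : Prop :=
  ∀ G₀ : RiemMetric, ∃ C : ℝ, 0 < C ∧ ∀ G : RiemMetric, G.SameBoundary G₀ → ∀ A : ℝ, 0 < A →
    (∀ u : Pt → ℝ, ContDiff ℝ 1 u →
      ∃ m : ℝ, A * II (fun φ θ => (u (sph φ θ) - m) ^ 2) ≤ G.energy u) →
    A / C ≤ G.sigma1

/-- Module FIN (from SMO, PDM, VAL, VOL, ENG, DER, ANA, SIG; 100 lines).  PROOF.  The metric is
`⟨gm G₀ δ τ, SMO, PDM⟩` with `δ ≤ δ₀` from VOL and `τ` from VOL; `SameBoundary` is the last clause of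
VAL.  By ENG with `κ = δ E/c`, `E` the energy (`eden (gm ..) u p = gradSq * dens`), DER and ANA
(`U 1 φ θ = u (sph φ θ)`) there is `m` with `II (u - m)² ≤ 20000 δ E/c`, so SIG with
`A = c/(20000 δ)` gives `σ₁ ≥ c/(20000 C δ) ≥ K` for `δ` small.  The first part: take `g₀` Euclidean,
`V = 1`, `K = n`; the areas are all equal to that of `g₀` by `SameBoundary`. -/
def SpecFIN : Prop :=
  (∃ g : ℕ → RiemMetric, (∃ C : ℝ, ∀ n, (g n).vol ≤ C ∧ (g n).area ≤ C) ∧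
    Tendsto (fun n => (g n).sigma1) atTop atTop) ∧
  ∀ (G₀ : RiemMetric) (V K : ℝ), 0 < V →
    ∃ G : RiemMetric, G.SameBoundary G₀ ∧ G.vol = V ∧ K ≤ G.sigma1

end Pool.Agent.Lib.MP441052
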